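import Pool.Agent.X157.Poly

set_option autoImplicit false
set_option linter.unusedSectionVars false

/-! Eulerian posets which agree with a lattice abstract polytope outside of one rank. -/

namespace Pool.Agent.X157.AgreeCore

open Set Pool.Agent.X157.Poly

/-- An Eulerian poset: finite, bounded, graded by `rk` (with `rk ⊥ = 0`), and every interval
`[x, y]` with `x < y` has as many elements of even rank as of odd rank. -/
structure IsEulerian {α : Type} [PartialOrder α] [BoundedOrder α] (rk : α → ℕ) : Prop where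
  finite : Finite α
  bot : rk ⊥ = 0
  strictMono : StrictMono rk
  graded : ∀ x y : α, x < y → rk x + 2 ≤ rk y → ∃ z, x < z ∧ z < y
  euler : ∀ x y : α, x < y →
    {z | z ∈ Icc x y ∧ Even (rk z)}.ncard = {z | z ∈ Icc x y ∧ ¬ Even (rk z)}.ncard

section graded

variable {β : Type} [PartialOrder β] [BoundedOrder β] {rk : β → ℕ}

/-- in a graded poset there are elements of every intermediate rank -/
lemma exists_rank (hm : StrictMono rk)
    (hg : ∀ x y : β, x < y → rk x + 2 ≤ rk y → ∃ z, x < z ∧ z < y) :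
    ∀ (k : ℕ) (x y : β), x < y → rk y - rk x = k → ∀ i, rk x < i → i < rk y →
      ∃ z, x < z ∧ z < y ∧ rk z = i := by
  intro k
  induction k using Nat.strong_induction_on with
  | _ k ih =>
    intro x y hxy hk i hi1 hi2
    obtain ⟨z, hz1, hz2⟩ := hg x y hxy (by omega)
    have h1 := hm hz1
    have h2 := hm hz2
    rcases lt_trichotomy (rk z) i with h | h | h
    · obtain ⟨w, hw1, hw2, hw3⟩ := ih (rk y - rk z) (by omega) z y hz2 rfl i h hi2
      exact ⟨w, hz1.trans hw1, hw2, hw3⟩
    · exact ⟨z, hz1, hz2, h⟩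
    · obtain ⟨w, hw1, hw2, hw3⟩ := ih (rk z - rk x) (by omega) x z hz1 rfl i hi1 h
      exact ⟨w, hw1, hw2.trans hz2, hw3⟩

end graded

section eul

variable {α : Type} [PartialOrder α] [BoundedOrder α] {rq : α → ℕ} (hE : IsEulerian rq)

/-- the elements of rank `i` strictly between -/
def lvl (rq : α → ℕ) (x y : α) (i : ℕ) : Set α := {z | x < z ∧ z < y ∧ rq z = i}

include hE

lemma lvl_finite (x y : α) (i : ℕ) : (lvl rq x y i).Finite := by
  have := hE.finite
  exact toFinite _

lemma exists_lvl {x y : α} (h : x < y) {i : ℕ} (h1 : rq x < i) (h2 : i < rq y) :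
    (lvl rq x y i).Nonempty := by
  obtain ⟨z, hz1, hz2, hz3⟩ := exists_rank hE.strictMono hE.graded _ x y h rfl i h1 h2
  exact ⟨z, hz1, hz2, hz3⟩

/-- intervals of length two -/
lemma euler_two {x y : α} (h : x < y) (hr : rq y = rq x + 2) :
    (lvl rq x y (rq x + 1)).ncard = 2 := by
  have := hE.finite
  have he := hE.euler x y h
  have hsplit : ∀ z ∈ Icc x y, z = x ∨ z = y ∨ z ∈ lvl rq x y (rq x + 1) := by
    rintro z ⟨h1, h2⟩
    rcases h1.eq_or_lt with h1 | h1
    · exact Or.inl h1.symm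
    · rcases h2.eq_or_lt with h2 | h2
      · exact Or.inr (Or.inl h2)
      · right; right
        have r1 := hE.strictMono h1
        have r2 := hE.strictMono h2
        exact ⟨h1, h2, by omega⟩
  by_cases hpar : Even (rq x)
  · have e1 : {z | z ∈ Icc x y ∧ Even (rq z)} = {x, y} := by
      ext z
      constructor
      · rintro ⟨hz, hz2⟩
        rcases hsplit z hz with rfl | rfl | hz3
        · exact Or.inl rfl
        · exact Or.inr rfl
        · rw [hz3.2.2] at hz2
          exact absurd hz2 (by rw [Nat.even_add_one, not_not]; exact hpar)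
      · rintro (rfl | rfl)
        · exact ⟨⟨le_rfl, h.le⟩, hpar⟩
        · exact ⟨⟨h.le, le_rfl⟩, by rw [hr]; exact hpar.add (by decide)⟩
    have e2 : {z | z ∈ Icc x y ∧ ¬ Even (rq z)} = lvl rq x y (rq x + 1) := by
      ext z
      constructor
      · rintro ⟨hz, hz2⟩
        rcases hsplit z hz with rfl | rfl | hz3
        · exact absurd hpar hz2
        · exact absurd (by rw [hr]; exact hpar.add (by decide)) hz2
        · exact hz3
      · rintro ⟨h1, h2, h3⟩
        refine ⟨⟨h1.le, h2.le⟩, ?_⟩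
        rw [h3, Nat.even_add_one, not_not]; exact hpar
    rw [e1, e2, ncard_pair h.ne] at he
    exact he.symm
  · have e1 : {z | z ∈ Icc x y ∧ ¬ Even (rq z)} = {x, y} := by
      ext z
      constructor
      · rintro ⟨hz, hz2⟩
        rcases hsplit z hz with rfl | rfl | hz3
        · exact Or.inl rfl
        · exact Or.inr rfl
        · rw [hz3.2.2, Nat.even_add_one] at hz2
          exact absurd hpar hz2
      · rintro (rfl | rfl)
        · exact ⟨⟨le_rfl, h.le⟩, hpar⟩
        · refine ⟨⟨h.le, le_rfl⟩, ?_⟩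
          rw [hr]
          intro h2
          rw [Nat.even_add] at h2
          exact hpar (h2.mpr (by decide))
    have e2 : {z | z ∈ Icc x y ∧ Even (rq z)} = lvl rq x y (rq x + 1) := by
      ext z
      constructor
      · rintro ⟨hz, hz2⟩
        rcases hsplit z hz with rfl | rfl | hz3
        · exact absurd hz2 hpar
        · exfalso
          rw [hr, Nat.even_add] at hz2
          exact hpar (hz2.mpr (by decide))
        · exact hz3
      · rintro ⟨h1, h2, h3⟩
        refine ⟨⟨h1.le, h2.le⟩, ?_⟩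
        rw [h3, Nat.even_add_one]; exact hpar
    rw [e1, e2, ncard_pair h.ne] at he
    exact he

/-- Euler's relation for intervals of length four -/
lemma euler_four {x y : α} (h : x < y) (hr : rq y = rq x + 4) :
    (lvl rq x y (rq x + 1)).ncard + (lvl rq x y (rq x + 3)).ncard =
      (lvl rq x y (rq x + 2)).ncard + 2 := by
  have := hE.finite
  have he := hE.euler x y h
  have hsplit : ∀ z ∈ Icc x y, z = x ∨ z = y ∨ z ∈ lvl rq x y (rq x + 1) ∨
      z ∈ lvl rq x y (rq x + 2) ∨ z ∈ lvl rq x y (rq x + 3) := by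
    rintro z ⟨h1, h2⟩
    rcases h1.eq_or_lt with h1 | h1
    · exact Or.inl h1.symm
    · rcases h2.eq_or_lt with h2 | h2
      · exact Or.inr (Or.inl h2)
      · right; right
        have r1 := hE.strictMono h1
        have r2 := hE.strictMono h2
        rcases (show rq z = rq x + 1 ∨ rq z = rq x + 2 ∨ rq z = rq x + 3 by omega) with h3 | h3 | h3
        · exact Or.inl ⟨h1, h2, h3⟩
        · exact Or.inr (Or.inl ⟨h1, h2, h3⟩)
        · exact Or.inr (Or.inr ⟨h1, h2, h3⟩)
  have par : ∀ k, Even (rq x + k) ↔ (Even (rq x) ↔ Even k) := fun k => Nat.even_add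
  have e1 : {z | z ∈ Icc x y ∧ (Even (rq z) ↔ Even (rq x))} =
      {x, y} ∪ lvl rq x y (rq x + 2) := by
    ext z
    constructor
    · rintro ⟨hz, hz2⟩
      rcases hsplit z hz with rfl | rfl | hz3 | hz3 | hz3
      · exact Or.inl (Or.inl rfl)
      · exact Or.inl (Or.inr rfl)
      · rw [hz3.2.2, par] at hz2
        have : ¬ Even 1 := by decide
        tauto
      · exact Or.inr hz3
      · rw [hz3.2.2, par] at hz2
        have : ¬ Even 3 := by decide
        tauto
    · rintro ((rfl | rfl) | ⟨h1, h2, h3⟩)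
      · exact ⟨⟨le_rfl, h.le⟩, Iff.rfl⟩
      · refine ⟨⟨h.le, le_rfl⟩, ?_⟩
        rw [hr, par]
        have : Even 4 := by decide
        tauto
      · refine ⟨⟨h1.le, h2.le⟩, ?_⟩
        rw [h3, par]
        have : Even 2 := by decide
        tauto
  have e2 : {z | z ∈ Icc x y ∧ ¬ (Even (rq z) ↔ Even (rq x))} =
      lvl rq x y (rq x + 1) ∪ lvl rq x y (rq x + 3) := by
    ext z
    constructor
    · rintro ⟨hz, hz2⟩
      rcases hsplit z hz with rfl | rfl | hz3 | hz3 | hz3
      · exact absurd Iff.rfl hz2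
      · exfalso
        apply hz2
        rw [hr, par]
        have : Even 4 := by decide
        tauto
      · exact Or.inl hz3
      · exfalso
        apply hz2
        rw [hz3.2.2, par]
        have : Even 2 := by decide
        tauto
      · exact Or.inr hz3
    · rintro (⟨h1, h2, h3⟩ | ⟨h1, h2, h3⟩)
      · refine ⟨⟨h1.le, h2.le⟩, ?_⟩
        rw [h3, par]
        have : ¬ Even 1 := by decide
        tauto
      · refine ⟨⟨h1.le, h2.le⟩, ?_⟩
        rw [h3, par]
        have : ¬ Even 3 := by decide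
        tauto
  have he' : {z | z ∈ Icc x y ∧ (Even (rq z) ↔ Even (rq x))}.ncard =
      {z | z ∈ Icc x y ∧ ¬ (Even (rq z) ↔ Even (rq x))}.ncard := by
    by_cases hpar : Even (rq x)
    · have s1 : {z | z ∈ Icc x y ∧ (Even (rq z) ↔ Even (rq x))} = {z | z ∈ Icc x y ∧ Even (rq z)} := by
        ext z; simp only [Set.mem_ofPred_eq]; tauto
      have s2 : {z | z ∈ Icc x y ∧ ¬ (Even (rq z) ↔ Even (rq x))} =
          {z | z ∈ Icc x y ∧ ¬ Even (rq z)} := by
        ext z; simp only [Set.mem_ofPred_eq]; tauto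
      rw [s1, s2]; exact he
    · have s1 : {z | z ∈ Icc x y ∧ (Even (rq z) ↔ Even (rq x))} =
          {z | z ∈ Icc x y ∧ ¬ Even (rq z)} := by
        ext z; simp only [Set.mem_ofPred_eq]; tauto
      have s2 : {z | z ∈ Icc x y ∧ ¬ (Even (rq z) ↔ Even (rq x))} =
          {z | z ∈ Icc x y ∧ Even (rq z)} := by
        ext z; simp only [Set.mem_ofPred_eq]; tauto
      rw [s1, s2]; exact he.symm
  have u1 : (({x, y} : Set α) ∪ lvl rq x y (rq x + 2)).ncard =
      ({x, y} : Set α).ncard + (lvl rq x y (rq x + 2)).ncard := by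
    apply ncard_union_eq _ (toFinite _) (toFinite _)
    rw [disjoint_left]
    rintro z (rfl | rfl) ⟨h1, h2, h3⟩
    · exact lt_irrefl _ h1
    · exact lt_irrefl _ h2
  have u2 : (lvl rq x y (rq x + 1) ∪ lvl rq x y (rq x + 3)).ncard =
      (lvl rq x y (rq x + 1)).ncard + (lvl rq x y (rq x + 3)).ncard := by
    apply ncard_union_eq _ (toFinite _) (toFinite _)
    rw [disjoint_left]
    rintro z ⟨_, _, h1⟩ ⟨_, _, h2⟩
    omega
  rw [e1, e2, u1, u2, ncard_pair h.ne] at he'
  omega

end eul

section two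

/-- two distinct elements of a set with two elements -/
lemma two_of_ncard {β : Type} {S : Set β} (h : S.ncard = 2) : ∃ a ∈ S, ∃ b ∈ S, a ≠ b ∧
    ∀ c ∈ S, c = a ∨ c = b := by
  obtain ⟨a, b, hab, rfl⟩ := ncard_eq_two.mp h
  exact ⟨a, Or.inl rfl, b, Or.inr rfl, hab, fun c hc => hc⟩

lemma eq_of_ncard {β : Type} {S : Set β} (h : S.ncard = 2) {a b c : β} (ha : a ∈ S) (hb : b ∈ S)
    (hab : a ≠ b) (hc : c ∈ S) : c = a ∨ c = b := by
  obtain ⟨x, _, y, _, hxy, hall⟩ := two_of_ncard h
  rcases hall a ha with rfl | rfl <;> rcases hall b hb with rfl | rfl <;>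
    rcases hall c hc with rfl | rfl <;> tauto

lemma other_of_ncard {β : Type} {S : Set β} (h : S.ncard = 2) {a : β} (ha : a ∈ S) :
    ∃ b ∈ S, b ≠ a := by
  obtain ⟨x, hx, y, hy, hxy, hall⟩ := two_of_ncard h
  rcases hall a ha with rfl | rfl
  · exact ⟨y, hy, hxy.symm⟩
  · exact ⟨x, hx, hxy⟩

end two

section main

variable {n : ℕ} (P : Polytope n)

/-- the section between -/
def sec (x y : P.Face) (i : ℕ) : Set P.Face := {z | x < z ∧ z < y ∧ P.rk z = i}

lemma flag_rk (A : Flag P.Face) (i : ℕ) (hi : i ≤ n + 1) : ∃ x ∈ A, P.rk x = i :=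
  flag_exists P.flag_ranks A hi

/-- a flag through a chain of two elements -/
lemma flag_through {x y : P.Face} (h : x ≤ y) : ∃ A : Flag P.Face, x ∈ A ∧ y ∈ A := by
  have hc : IsChain (· ≤ ·) ({x, y} : Set P.Face) := by
    apply IsChain.insert
    · exact Set.subsingleton_singleton.isChain
    · intro b hb _
      rw [mem_singleton_iff.mp hb]
      exact Or.inl h
  obtain ⟨A, hA⟩ := hc.exists_subset_flag
  exact ⟨A, hA (Or.inl rfl), hA (Or.inr rfl)⟩

lemma rk_top : P.rk (⊤ : P.Face) = n + 1 := by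
  obtain ⟨A, hA, _⟩ := flag_through P (le_refl (⊤ : P.Face))
  obtain ⟨x, hx, hxr⟩ := flag_rk P A (n + 1) le_rfl
  have h1 : P.rk (⊤ : P.Face) ∈ P.rk '' (A : Set P.Face) := ⟨⊤, hA, rfl⟩
  rw [P.flag_ranks A] at h1
  have h2 : P.rk (⊤ : P.Face) ≤ n + 1 := h1
  rcases (le_top (a := x)).eq_or_lt with h | h
  · rw [h] at hxr; exact hxr
  · have := P.rk_strictMono h
    omega

lemma rk_bot : P.rk (⊥ : P.Face) = 0 := by
  obtain ⟨A, hA, _⟩ := flag_through P (le_refl (⊥ : P.Face))
  obtain ⟨x, hx, hxr⟩ := flag_rk P A 0 (by omega)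
  rcases (bot_le (a := x)).eq_or_lt with h | h
  · rw [h]; exact hxr
  · have := P.rk_strictMono h
    omega

lemma exists_sec {x y : P.Face} (h : x < y) {i : ℕ} (h1 : P.rk x < i) (h2 : i < P.rk y) :
    ∃ z, x < z ∧ z < y ∧ P.rk z = i := by
  obtain ⟨A, hx, hy⟩ := flag_through P h.le
  have hy' : P.rk y ∈ P.rk '' (A : Set P.Face) := ⟨y, hy, rfl⟩
  rw [P.flag_ranks A] at hy'
  have hy'' : P.rk y ≤ n + 1 := hy'
  obtain ⟨z, hz, hzr⟩ := flag_rk P A i (by omega)
  exact ⟨z, flag_lt P.rk_strictMono A hx hz (by omega), flag_lt P.rk_strictMono A hz hy (by omega), hzr⟩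

lemma sec_two {x y : P.Face} (h : x < y) (hr : P.rk y = P.rk x + 2) :
    (sec P x y (P.rk x + 1)).ncard = 2 := by
  rw [← P.diamond x y h hr]
  congr 1
  ext z
  constructor
  · rintro ⟨h1, h2, _⟩; exact ⟨h1, h2⟩
  · rintro ⟨h1, h2⟩
    have r1 := P.rk_strictMono h1
    have r2 := P.rk_strictMono h2
    exact ⟨h1, h2, by omega⟩

/-- the face of rank `i` in adjacent flags -/
lemma adj_rank {A B : Flag P.Face} (h : FlagAdj A B) {x y : P.Face} (hx : x ∈ A) (hy : y ∈ B)
    (hr : P.rk x = P.rk y) (hne : x ≠ y) : ∀ z : P.Face, z ∈ A → z ≠ x → z ∈ B := by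
  intro z hz hzx
  by_contra hzB
  have hxB : x ∉ B := fun hxB => hne (flag_unique P.rk_strictMono B hxB hy hr)
  obtain ⟨w, hw⟩ := ncard_eq_one.mp h.1
  have h1 : z ∈ (A : Set P.Face) \ B := ⟨hz, hzB⟩
  have h2 : x ∈ (A : Set P.Face) \ B := ⟨hx, hxB⟩
  rw [hw] at h1 h2
  exact hzx (h1.trans h2.symm)

/-- propagation along flags: a property of faces of rank `i` which passes from a face to the
other face of the same diamond, inside of a fixed chain -/
lemma propagate {i : ℕ} (hi1 : 1 ≤ i) (hi2 : i ≤ n) (p : P.Face → Prop) {F0 F1 : P.Face}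
    {A B : Flag P.Face} (h0 : F0 ∈ A) (h1 : F1 ∈ B) (hr0 : P.rk F0 = i) (hr1 : P.rk F1 = i)
    (hstep : ∀ F F' R S : P.Face, P.rk F = i → P.rk F' = i → P.rk R + 1 = i → P.rk S = i + 1 →
      F ≠ F' → R < F → R < F' → F < S → F' < S →
      (∀ w ∈ (A : Set P.Face) ∩ B, P.rk w < i → w ≤ R) →
      (∀ w ∈ (A : Set P.Face) ∩ B, i < P.rk w → S ≤ w) → p F → p F')
    (hp : p F0) : p F1 := by
  have key : ∀ C : Flag P.Face, Relation.ReflTransGen
      (fun C D : Flag P.Face => FlagAdj C D ∧ (A : Set P.Face) ∩ B ⊆ D) A C →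
      (A : Set P.Face) ∩ B ⊆ C ∧ ∀ F ∈ C, P.rk F = i → p F := by
    intro C hC
    induction hC with
    | refl =>
      refine ⟨inter_subset_left, fun F hF hr => ?_⟩
      rw [flag_unique P.rk_strictMono A hF h0 (hr.trans hr0.symm)]
      exact hp
    | tail _ hCD ih =>
      rename_i C D _
      obtain ⟨hadj, hsub⟩ := hCD
      obtain ⟨hsubC, ihp⟩ := ih
      refine ⟨hsub, fun F' hF' hr' => ?_⟩
      obtain ⟨F, hF, hr⟩ := flag_rk P C i (by omega)
      by_cases hne : F = F'
      · rw [← hne]; exact ihp F hF hr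
      · obtain ⟨R, hR, hRr⟩ := flag_rk P C (i - 1) (by omega)
        obtain ⟨S, hS, hSr⟩ := flag_rk P C (i + 1) (by omega)
        have hRF : R < F := flag_lt P.rk_strictMono C hR hF (by omega)
        have hFS : F < S := flag_lt P.rk_strictMono C hF hS (by omega)
        have hRD : R ∈ D := adj_rank P hadj hF hF' (hr.trans hr'.symm) hne R hR hRF.ne
        have hSD : S ∈ D := adj_rank P hadj hF hF' (hr.trans hr'.symm) hne S hS hFS.ne'
        refine hstep F F' R S hr hr' (by omega) hSr hne hRF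
          (flag_lt P.rk_strictMono D hRD hF' (by omega)) hFS
          (flag_lt P.rk_strictMono D hF' hSD (by omega)) ?_ ?_ (ihp F hF hr)
        · intro w hw hwr
          exact flag_le P.rk_strictMono C (hsubC hw) hR (by omega)
        · intro w hw hwr
          exact flag_le P.rk_strictMono C hS (hsubC hw) (by omega)
  exact (key B (P.connected A B)).2 F1 h1 hr1

end main

end Pool.Agent.X157.AgreeCore
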