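import Pool.Agent.X157.AgreeCore

set_option autoImplicit false
set_option linter.unusedSectionVars false

namespace Pool.Agent.X157.AgreeMain

open Set Pool.Agent.X157.Poly Pool.Agent.X157.AgreeCore

variable {n : ℕ} {P : Polytope n} {α : Type} [PartialOrder α] [BoundedOrder α] {rq : α → ℕ}

/-- the identification of the elements of rank different from `ρ`, with junk values elsewhere -/
structure Ident (P : Polytope n) (rq : α → ℕ) (ρ : ℕ) (f : α → P.Face) (g : P.Face → α) : Prop where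
  frk : ∀ x, rq x ≠ ρ → P.rk (f x) = rq x
  grk : ∀ F, P.rk F ≠ ρ → rq (g F) = P.rk F
  fg : ∀ F, P.rk F ≠ ρ → f (g F) = F
  gf : ∀ x, rq x ≠ ρ → g (f x) = x
  gle : ∀ F G, P.rk F ≠ ρ → P.rk G ≠ ρ → (F ≤ G ↔ g F ≤ g G)

section

variable {ρ : ℕ} {f : α → P.Face} {g : P.Face → α} (hI : Ident P rq ρ f g)

include hI

lemma glt {F G : P.Face} (hF : P.rk F ≠ ρ) (hG : P.rk G ≠ ρ) : F < G ↔ g F < g G := by
  rw [lt_iff_le_and_ne, lt_iff_le_and_ne, hI.gle F G hF hG]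
  constructor
  · rintro ⟨h1, h2⟩
    refine ⟨h1, fun h => h2 ?_⟩
    rw [← hI.fg F hF, ← hI.fg G hG, h]
  · rintro ⟨h1, h2⟩
    exact ⟨h1, fun h => h2 (by rw [h])⟩

lemma fle {x y : α} (hx : rq x ≠ ρ) (hy : rq y ≠ ρ) : f x ≤ f y ↔ x ≤ y := by
  rw [hI.gle _ _ (by rw [hI.frk x hx]; exact hx) (by rw [hI.frk y hy]; exact hy), hI.gf x hx,
    hI.gf y hy]

lemma flt {x y : α} (hx : rq x ≠ ρ) (hy : rq y ≠ ρ) : f x < f y ↔ x < y := by
  rw [glt hI (by rw [hI.frk x hx]; exact hx) (by rw [hI.frk y hy]; exact hy), hI.gf x hx,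
    hI.gf y hy]

end

/-- the elements of rank `ρ` with the same relations as the face `F` -/
def Mu (P : Polytope n) (rq : α → ℕ) (ρ : ℕ) (g : P.Face → α) (F : P.Face) : Set α :=
  {x | rq x = ρ ∧ (∀ A, P.rk A ≠ ρ → (g A < x ↔ A < F)) ∧ (∀ B, P.rk B ≠ ρ → (x < g B ↔ F < B))}

section core

variable {ρ : ℕ} {f : α → P.Face} {g : P.Face → α} (hI : Ident P rq ρ f g)
  (hE : IsEulerian rq) (hL : ∀ x y : P.Face, ∃ z, IsLUB {x, y} z) (h2 : 2 ≤ ρ) (hρ : ρ + 1 ≤ n)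

include hL in
lemma interp {A B C D : P.Face} (h1 : A ≤ C) (h2 : B ≤ C) (h3 : A ≤ D) (h4 : B ≤ D) :
    ∃ J, A ≤ J ∧ B ≤ J ∧ J ≤ C ∧ J ≤ D := by
  obtain ⟨J, hJ1, hJ2⟩ := hL A B
  refine ⟨J, hJ1 (Or.inl rfl), hJ1 (Or.inr rfl), hJ2 ?_, hJ2 ?_⟩
  · rintro z (rfl | rfl)
    · exact h1
    · exact h2
  · rintro z (rfl | rfl)
    · exact h3
    · exact h4

lemma lt_of_le_ne_rk {x y z : P.Face} (hx : x ≤ z) (hy : y ≤ z) (hr : P.rk x = P.rk y)
    (hne : x ≠ y) : x < z := by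
  rcases hx.eq_or_lt with h | h
  · subst h
    rcases hy.eq_or_lt with h' | h'
    · exact absurd h'.symm hne
    · exact absurd (P.rk_strictMono h') (by omega)
  · exact h

lemma lt_of_ge_ne_rk {x y z : P.Face} (hx : z ≤ x) (hy : z ≤ y) (hr : P.rk x = P.rk y)
    (hne : x ≠ y) : z < x := by
  rcases hx.eq_or_lt with h | h
  · subst h
    rcases hy.eq_or_lt with h' | h'
    · exact absurd h' hne
    · exact absurd (P.rk_strictMono h') (by omega)
  · exact h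

lemma eq_of_le_rk {x y : P.Face} (h : x ≤ y) (hr : P.rk y ≤ P.rk x) : x = y := by
  rcases h.eq_or_lt with h' | h'
  · exact h'
  · exact absurd (P.rk_strictMono h') (by omega)

/-- two faces of the same rank below two faces of the next rank -/
lemma no_crossing (hL : ∀ x y : P.Face, ∃ z, IsLUB {x, y} z) {F F' B B' : P.Face}
    (hr : P.rk F = P.rk F') (hne : F ≠ F') (hB : P.rk B = P.rk F + 1) (hB' : P.rk B' = P.rk F + 1)
    (hneB : B ≠ B') (h1 : F ≤ B) (h2 : F' ≤ B) (h3 : F ≤ B') (h4 : F' ≤ B') : False := by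
  obtain ⟨J, j1, j2, j3, j4⟩ := interp hL h1 h2 h3 h4
  have h5 := P.rk_strictMono (lt_of_le_ne_rk j1 j2 hr hne)
  have h6 := P.rk_strictMono (lt_of_ge_ne_rk j3 j4 (hB.trans hB'.symm) hneB)
  omega

omit hL h2 hρ in
include hI hE in
lemma down_step {x : α} (hx : rq x = ρ) {F G G' R : P.Face} (hFr : P.rk F = ρ)
    (down1 : ∀ A, P.rk A ≠ ρ → g A < x → A < F)
    (hG : P.rk G + 1 = ρ) (hG' : P.rk G' + 1 = ρ) (hR : P.rk R + 2 = ρ)
    (hne : G ≠ G') (hRG : R < G) (hRG' : R < G') (hGS : G < F) (hGS' : G' < F)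
    (hp : g G < x) : g G' < x := by
  have hRρ : P.rk R ≠ ρ := by omega
  have hGρ : P.rk G ≠ ρ := by omega
  have hgRG : g R < g G := (glt hI hRρ hGρ).mp hRG
  have hgR : g R < x := hgRG.trans hp
  have hgRr : rq (g R) = P.rk R := hI.grk R hRρ
  have e1 := euler_two hE hgR (by omega)
  have hgG : g G ∈ lvl rq (g R) x (rq (g R) + 1) := by
    refine ⟨hgRG, hp, ?_⟩
    rw [hgRr, hI.grk G hGρ]; omega
  obtain ⟨c, hc, hcne⟩ := other_of_ncard e1 hgG
  obtain ⟨hc1, hc2, hc3⟩ := hc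
  have hcr : rq c ≠ ρ := by omega
  have hfcr : P.rk (f c) = rq c := hI.frk c hcr
  have hfcρ : P.rk (f c) ≠ ρ := by omega
  have hgf : g (f c) = c := hI.gf c hcr
  have hfc : f c ∈ sec P R F (P.rk R + 1) := by
    refine ⟨?_, ?_, ?_⟩
    · rw [glt hI hRρ hfcρ, hgf]; exact hc1
    · apply down1 _ hfcρ
      rw [hgf]; exact hc2
    · omega
  have hGs : G ∈ sec P R F (P.rk R + 1) := ⟨hRG, hGS, by omega⟩
  have hGs' : G' ∈ sec P R F (P.rk R + 1) := ⟨hRG', hGS', by omega⟩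
  have hne2 : G ≠ f c := by
    intro h
    apply hcne
    rw [h, hgf]
  have hs := sec_two P (hRG.trans hGS) (by omega)
  rcases eq_of_ncard hs hGs hfc hne2 hGs' with h | h
  · exact absurd h.symm hne
  · rw [h, hgf]; exact hc2

omit hL h2 hρ in
include hI hE in
lemma up_step {x : α} (hx : rq x = ρ) {F G G' S : P.Face} (hFr : P.rk F = ρ)
    (up1 : ∀ B, P.rk B ≠ ρ → x < g B → F < B)
    (hG : P.rk G = ρ + 1) (hG' : P.rk G' = ρ + 1) (hS : P.rk S = ρ + 2)
    (hne : G ≠ G') (hFG : F < G) (hFG' : F < G') (hGS : G < S) (hGS' : G' < S)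
    (hp : x < g G) : x < g G' := by
  have hSρ : P.rk S ≠ ρ := by omega
  have hGρ : P.rk G ≠ ρ := by omega
  have hgGS : g G < g S := (glt hI hGρ hSρ).mp hGS
  have hgS : x < g S := hp.trans hgGS
  have hgSr : rq (g S) = P.rk S := hI.grk S hSρ
  have e1 := euler_two hE hgS (by omega)
  have hgG : g G ∈ lvl rq x (g S) (rq x + 1) := by
    refine ⟨hp, hgGS, ?_⟩
    rw [hI.grk G hGρ]; omega
  obtain ⟨c, hc, hcne⟩ := other_of_ncard e1 hgG
  obtain ⟨hc1, hc2, hc3⟩ := hc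
  have hcr : rq c ≠ ρ := by omega
  have hfcr : P.rk (f c) = rq c := hI.frk c hcr
  have hfcρ : P.rk (f c) ≠ ρ := by omega
  have hgf : g (f c) = c := hI.gf c hcr
  have hfc : f c ∈ sec P F S (P.rk F + 1) := by
    refine ⟨?_, ?_, ?_⟩
    · apply up1 _ hfcρ
      rw [hgf]; exact hc1
    · rw [glt hI hfcρ hSρ, hgf]; exact hc2
    · omega
  have hGs : G ∈ sec P F S (P.rk F + 1) := ⟨hFG, hGS, by omega⟩
  have hGs' : G' ∈ sec P F S (P.rk F + 1) := ⟨hFG', hGS', by omega⟩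
  have hne2 : G ≠ f c := by
    intro h
    apply hcne
    rw [h, hgf]
  have hs := sec_two P (hFG.trans hGS) (by omega)
  rcases eq_of_ncard hs hGs hfc hne2 hGs' with h | h
  · exact absurd h.symm hne
  · rw [h, hgf]; exact hc1

include hI hE hL h2 hρ

theorem exists_pre {x : α} (hx : rq x = ρ) : ∃ F A0 B0, P.rk F = ρ ∧ P.rk A0 + 1 = ρ ∧
    P.rk B0 = ρ + 1 ∧ g A0 < x ∧ x < g B0 ∧
    (∀ A, P.rk A ≠ ρ → g A < x → A < F) ∧ (∀ B, P.rk B ≠ ρ → x < g B → F < B) := by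
  have hrtop : n + 1 ≤ rq (⊤ : α) := by
    have h1 : P.rk (⊤ : P.Face) = n + 1 := rk_top P
    rw [← h1, ← hI.grk ⊤ (by omega)]
    exact hE.strictMono.monotone le_top
  -- below
  obtain ⟨z, hzx, hzr⟩ : ∃ z, z < x ∧ rq z + 2 = ρ := by
    by_cases h : ρ = 2
    · refine ⟨⊥, ?_, by rw [hE.bot]; omega⟩
      refine lt_of_le_of_ne bot_le (fun he => ?_)
      rw [← he, hE.bot] at hx; omega
    · have hbx : (⊥ : α) < x := by
        refine lt_of_le_of_ne bot_le (fun he => ?_)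
        rw [← he, hE.bot] at hx; omega
      obtain ⟨z, hz⟩ := exists_lvl hE hbx (i := ρ - 2) (by rw [hE.bot]; omega) (by omega)
      exact ⟨z, hz.2.1, by have := hz.2.2; omega⟩
  obtain ⟨w, hxw, hwr⟩ : ∃ w, x < w ∧ rq w = ρ + 2 := by
    have hxt : x < ⊤ := by
      refine lt_of_le_of_ne le_top (fun he => ?_)
      rw [he] at hx; omega
    by_cases h : rq (⊤ : α) = ρ + 2
    · exact ⟨⊤, hxt, h⟩
    · obtain ⟨w, hw⟩ := exists_lvl hE hxt (i := ρ + 2) (by omega) (by omega)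
      exact ⟨w, hw.1, hw.2.2⟩
  obtain ⟨a1, ha1, a2, ha2, hane, _⟩ := two_of_ncard (euler_two hE hzx (by omega))
  obtain ⟨b1, hb1, b2, hb2, hbne, _⟩ := two_of_ncard (euler_two hE hxw (by omega))
  have ra1 : rq a1 + 1 = ρ := by have := ha1.2.2; omega
  have ra2 : rq a2 + 1 = ρ := by have := ha2.2.2; omega
  have rb1 : rq b1 = ρ + 1 := by have := hb1.2.2; omega
  have rb2 : rq b2 = ρ + 1 := by have := hb2.2.2; omega
  have na1 : rq a1 ≠ ρ := by omega
  have na2 : rq a2 ≠ ρ := by omega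
  have nb1 : rq b1 ≠ ρ := by omega
  have nb2 : rq b2 ≠ ρ := by omega
  have fa1 := hI.frk a1 na1
  have fa2 := hI.frk a2 na2
  have fb1 := hI.frk b1 nb1
  have fb2 := hI.frk b2 nb2
  have hA : f a1 ≠ f a2 := fun h => hane (by rw [← hI.gf a1 na1, ← hI.gf a2 na2, h])
  have hB : f b1 ≠ f b2 := fun h => hbne (by rw [← hI.gf b1 nb1, ← hI.gf b2 nb2, h])
  have h11 : f a1 ≤ f b1 := (fle hI na1 nb1).mpr (ha1.2.1.trans hb1.1).le
  have h12 : f a1 ≤ f b2 := (fle hI na1 nb2).mpr (ha1.2.1.trans hb2.1).le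
  have h21 : f a2 ≤ f b1 := (fle hI na2 nb1).mpr (ha2.2.1.trans hb1.1).le
  have h22 : f a2 ≤ f b2 := (fle hI na2 nb2).mpr (ha2.2.1.trans hb2.1).le
  obtain ⟨F, hF1, hF2⟩ := hL (f a1) (f a2)
  have hFa1 : f a1 ≤ F := hF1 (Or.inl rfl)
  have hFa2 : f a2 ≤ F := hF1 (Or.inr rfl)
  have lub : ∀ B, f a1 ≤ B → f a2 ≤ B → F ≤ B := by
    intro B h1 h2
    apply hF2
    rintro z (rfl | rfl)
    · exact h1
    · exact h2
  have hFb1 := lub _ h11 h21
  have hFb2 := lub _ h12 h22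
  have hr1 := P.rk_strictMono (lt_of_le_ne_rk hFa1 hFa2 (by omega) hA)
  have hr2 := P.rk_strictMono (lt_of_ge_ne_rk hFb1 hFb2 (by omega) hB)
  have hFr : P.rk F = ρ := by omega
  -- easy directions
  have down1 : ∀ A, P.rk A ≠ ρ → g A < x → A < F := by
    intro A hA' hlt
    have hAr : P.rk A < ρ := by
      rw [← hI.grk A hA', ← hx]; exact hE.strictMono hlt
    have l1 : A ≤ f b1 := by
      rw [hI.gle A _ hA' (by omega), hI.gf b1 nb1]; exact (hlt.trans hb1.1).le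
    have l2 : A ≤ f b2 := by
      rw [hI.gle A _ hA' (by omega), hI.gf b2 nb2]; exact (hlt.trans hb2.1).le
    obtain ⟨J, j1, j2, j3, j4⟩ := interp hL l1 hFb1 l2 hFb2
    have h5 := P.rk_strictMono (lt_of_ge_ne_rk j3 j4 (by omega) hB)
    have h6 : F = J := eq_of_le_rk j2 (by omega)
    rw [← h6] at j1
    exact lt_of_le_of_ne j1 (fun he => hA' (by rw [he]; exact hFr))
  have up1 : ∀ B, P.rk B ≠ ρ → x < g B → F < B := by
    intro B hB' hlt
    have l1 : f a1 ≤ B := by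
      rw [hI.gle _ B (by omega) hB', hI.gf a1 na1]; exact (ha1.2.1.trans hlt).le
    have l2 : f a2 ≤ B := by
      rw [hI.gle _ B (by omega) hB', hI.gf a2 na2]; exact (ha2.2.1.trans hlt).le
    exact lt_of_le_of_ne (lub B l1 l2) (fun he => hB' (by rw [← he]; exact hFr))
  refine ⟨F, f a1, f b1, hFr, by rw [fa1]; exact ra1, by rw [fb1]; exact rb1, ?_, ?_, down1, up1⟩
  · rw [hI.gf a1 na1]; exact ha1.2.1
  · rw [hI.gf b1 nb1]; exact hb1.1

theorem exists_Mu {x : α} (hx : rq x = ρ) : ∃ F, P.rk F = ρ ∧ x ∈ Mu P rq ρ g F := by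
  obtain ⟨F, A0, B0, hFr, hA0, hB0, hA0x, hB0x, down1, up1⟩ := exists_pre hI hE hL h2 hρ hx
  have hA0F : A0 < F := down1 A0 (by omega) hA0x
  have hFB0 : F < B0 := up1 B0 (by omega) hB0x
  -- all facets of F are below x
  have down2 : ∀ A, P.rk A + 1 = ρ → A < F → g A < x := by
    intro A hAr hAF
    obtain ⟨φ, hφ1, hφ2⟩ := flag_through P hA0F.le
    obtain ⟨ψ, hψ1, hψ2⟩ := flag_through P hAF.le
    have i1 : 1 ≤ ρ - 1 := by omega
    have i2 : ρ - 1 ≤ n := by omega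
    have i3 : P.rk A0 = ρ - 1 := by omega
    have i4 : P.rk A = ρ - 1 := by omega
    refine propagate P i1 i2 (fun A => g A < x) hφ1 hψ1 i3 i4 ?_ hA0x
    intro G G' R S hG hG' hR hS hne hRG hRG' hGS hGS' _ hhi hp
    have i5 : ρ - 1 < P.rk F := by omega
    have hSF : S = F := eq_of_le_rk (hhi F ⟨hφ2, hψ2⟩ i5) (by rw [hS, hFr]; omega)
    rw [hSF] at hGS hGS'
    exact down_step hI hE hx hFr down1 (by rw [hG]; omega) (by rw [hG']; omega)
      (by omega) hne hRG hRG' hGS hGS' hp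
  have up2 : ∀ B, P.rk B = ρ + 1 → F < B → x < g B := by
    intro B hBr hFB
    obtain ⟨φ, hφ1, hφ2⟩ := flag_through P hFB0.le
    obtain ⟨ψ, hψ1, hψ2⟩ := flag_through P hFB.le
    have i1 : 1 ≤ ρ + 1 := by omega
    refine propagate P i1 hρ (fun B => x < g B) hφ2 hψ2 hB0 hBr ?_ hB0x
    intro G G' R S hG hG' hR hS hne hRG hRG' hGS hGS' hlo _ hp
    have i5 : P.rk F < ρ + 1 := by rw [hFr]; omega
    have hRF : F = R := eq_of_le_rk (hlo F ⟨hφ1, hψ1⟩ i5) (by rw [hFr]; omega)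
    rw [← hRF] at hRG hRG'
    exact up_step hI hE hx hFr up1 hG hG' hS hne hRG hRG' hGS hGS' hp
  refine ⟨F, hFr, hx, ?_, ?_⟩
  · intro A hA'
    refine ⟨down1 A hA', fun hlt => ?_⟩
    have hAr := P.rk_strictMono hlt
    by_cases h : P.rk A + 1 = ρ
    · exact down2 A h hlt
    · obtain ⟨A', h1, h2', h3⟩ := exists_sec P hlt (i := ρ - 1) (by omega) (by omega)
      exact ((glt hI hA' (by omega)).mp h1).trans (down2 A' (by omega) h2')
  · intro B hB'
    refine ⟨up1 B hB', fun hlt => ?_⟩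
    have hBr := P.rk_strictMono hlt
    by_cases h : P.rk B = ρ + 1
    · exact up2 B h hlt
    · obtain ⟨B', h1, h2', h3⟩ := exists_sec P hlt (i := ρ + 1) (by omega) (by omega)
      exact (up2 B' h3 h1).trans ((glt hI (by omega) hB').mp h2')

omit hI hE in
lemma Mu_unique {F F' : P.Face} (hF : P.rk F = ρ) (hF' : P.rk F' = ρ) {x : α}
    (hx : x ∈ Mu P rq ρ g F) (hx' : x ∈ Mu P rq ρ g F') : F = F' := by
  -- two facets of F
  obtain ⟨R, hRF, hRr⟩ : ∃ R, R < F ∧ P.rk R + 2 = ρ := by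
    have hb : (⊥ : P.Face) < F := by
      refine lt_of_le_of_ne bot_le (fun he => ?_)
      rw [← he, rk_bot P] at hF; omega
    by_cases h : ρ = 2
    · exact ⟨⊥, hb, by rw [rk_bot P]; omega⟩
    · obtain ⟨R, _, h1, h3⟩ := exists_sec P hb (i := ρ - 2) (by rw [rk_bot P]; omega) (by omega)
      exact ⟨R, h1, by omega⟩
  obtain ⟨a, ha, b, hb, hab, _⟩ := two_of_ncard (sec_two P hRF (by omega))
  have ra : P.rk a ≠ ρ := by have := ha.2.2; omega
  have rb : P.rk b ≠ ρ := by have := hb.2.2; omega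
  have ha' : a < F' := (hx'.2.1 a ra).mp ((hx.2.1 a ra).mpr ha.2.1)
  have hb' : b < F' := (hx'.2.1 b rb).mp ((hx.2.1 b rb).mpr hb.2.1)
  by_contra hne
  exact no_crossing hL (ha.2.2.trans hb.2.2.symm) hab (by have := ha.2.2; omega)
    (by have := ha.2.2; omega) hne ha.2.1.le hb.2.1.le ha'.le hb'.le

lemma Mu_disj {F F' : P.Face} (hF : P.rk F = ρ) (hF' : P.rk F' = ρ) (hne : F ≠ F') :
    Disjoint (Mu P rq ρ g F) (Mu P rq ρ g F') := by
  rw [disjoint_left]
  intro x h1 h2'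
  exact hne (Mu_unique hL h2 hρ hF hF' h1 h2')

lemma Mu_diamond {A B F F' : P.Face} (hA : P.rk A + 1 = ρ) (hB : P.rk B = ρ + 1)
    (hF : F ∈ sec P A B ρ) (hF' : F' ∈ sec P A B ρ) (hne : F ≠ F') :
    (Mu P rq ρ g F).ncard + (Mu P rq ρ g F').ncard = 2 := by
  have := hE.finite
  have hAB : A < B := hF.1.trans hF.2.1
  have nA : P.rk A ≠ ρ := by omega
  have nB : P.rk B ≠ ρ := by omega
  have e1 := euler_two hE ((glt hI nA nB).mp hAB) (by rw [hI.grk A nA, hI.grk B nB]; omega)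
  have e2 := sec_two P hAB (by omega)
  rw [show P.rk A + 1 = ρ by omega] at e2
  rw [show rq (g A) + 1 = ρ by rw [hI.grk A nA]; omega] at e1
  rw [← ncard_union_eq (Mu_disj hI hE hL h2 hρ hF.2.2 hF'.2.2 hne) (toFinite _) (toFinite _), ← e1]
  congr 1
  ext x
  constructor
  · rintro (hx | hx)
    · exact ⟨(hx.2.1 A nA).mpr hF.1, (hx.2.2 B nB).mpr hF.2.1, hx.1⟩
    · exact ⟨(hx.2.1 A nA).mpr hF'.1, (hx.2.2 B nB).mpr hF'.2.1, hx.1⟩
  · rintro ⟨h1, h3, h4⟩
    obtain ⟨G, hG, hxG⟩ := exists_Mu hI hE hL h2 hρ h4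
    have hGs : G ∈ sec P A B ρ := ⟨(hxG.2.1 A nA).mp h1, (hxG.2.2 B nB).mp h3, hG⟩
    rcases eq_of_ncard e2 hF hF' hne hGs with rfl | rfl
    · exact Or.inl hxG
    · exact Or.inr hxG

/-- at most four elements above `v` -/
lemma deg_up (hm : ∀ F, P.rk F = ρ → (Mu P rq ρ g F).ncard ≠ 1) {V C : P.Face}
    (hV : P.rk V + 1 = ρ) (hC : P.rk C = ρ + 2) (hVC : V < C) :
    4 ≤ (lvl rq (g V) (g C) ρ).ncard := by
  have := hE.finite
  have nV : P.rk V ≠ ρ := by omega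
  have nC : P.rk C ≠ ρ := by omega
  obtain ⟨B, hB1, hB2, hB3⟩ := exists_sec P hVC (i := ρ + 1) (by omega) (by omega)
  have hs := sec_two P hB1 (by omega)
  rw [hV] at hs
  obtain ⟨F1, hF1, F2, hF2, hne, _⟩ := two_of_ncard hs
  -- arrange that F2 has multiplicity zero
  have main : ∀ F1 F2 : P.Face, F1 ∈ sec P V B ρ → F2 ∈ sec P V B ρ → F1 ≠ F2 →
      (Mu P rq ρ g F1).ncard = 2 → (Mu P rq ρ g F2).ncard = 0 →
      4 ≤ (lvl rq (g V) (g C) ρ).ncard := by
    intro F1 F2 hF1 hF2 hne h1 h0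
    have hs2 := sec_two P (hF2.2.1.trans hB2) (by have := hF2.2.2; omega)
    have hBs : B ∈ sec P F2 C (P.rk F2 + 1) := ⟨hF2.2.1, hB2, by have := hF2.2.2; omega⟩
    obtain ⟨B', hB', hBne⟩ := other_of_ncard hs2 hBs
    have rB' : P.rk B' = ρ + 1 := by have := hB'.2.2; have := hF2.2.2; omega
    have hs3 := sec_two P (hF2.1.trans hB'.1) (by omega)
    rw [hV] at hs3
    have hF2s : F2 ∈ sec P V B' ρ := ⟨hF2.1, hB'.1, hF2.2.2⟩
    obtain ⟨F3, hF3, hF3ne⟩ := other_of_ncard hs3 hF2s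
    have h3 := Mu_diamond hI hE hL h2 hρ hV rB' hF2s hF3 hF3ne.symm
    have h13 : F1 ≠ F3 := by
      rintro rfl
      exact no_crossing hL (hF1.2.2.trans hF2.2.2.symm) hne (by rw [hB3, hF1.2.2])
        (by rw [rB', hF1.2.2]) hBne.symm hF1.2.1.le hF2.2.1.le hF3.2.1.le hB'.1.le
    have hd := ncard_union_eq (Mu_disj hI hE hL h2 hρ hF1.2.2 hF3.2.2 h13) (toFinite _) (toFinite _)
    have hsub : Mu P rq ρ g F1 ∪ Mu P rq ρ g F3 ⊆ lvl rq (g V) (g C) ρ := by
      rintro x (hx | hx)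
      · exact ⟨(hx.2.1 V nV).mpr hF1.1, (hx.2.2 C nC).mpr (hF1.2.1.trans hB2), hx.1⟩
      · exact ⟨(hx.2.1 V nV).mpr hF3.1, (hx.2.2 C nC).mpr (hF3.2.1.trans hB'.2.1), hx.1⟩
    have := ncard_le_ncard hsub (toFinite _)
    omega
  have hsum := Mu_diamond hI hE hL h2 hρ hV hB3 hF1 hF2 hne
  have n1 := hm F1 hF1.2.2
  have n2 := hm F2 hF2.2.2
  rcases (show (Mu P rq ρ g F1).ncard = 0 ∨ (Mu P rq ρ g F1).ncard = 2 by omega) with h | h
  · exact main F2 F1 hF2 hF1 hne.symm (by omega) h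
  · exact main F1 F2 hF1 hF2 hne h (by omega)

lemma deg_down (hm : ∀ F, P.rk F = ρ → (Mu P rq ρ g F).ncard ≠ 1) {A W : P.Face}
    (hA : P.rk A + 2 = ρ) (hW : P.rk W = ρ + 1) (hAW : A < W) :
    4 ≤ (lvl rq (g A) (g W) ρ).ncard := by
  have := hE.finite
  have nA : P.rk A ≠ ρ := by omega
  have nW : P.rk W ≠ ρ := by omega
  obtain ⟨V, hV1, hV2, hV3⟩ := exists_sec P hAW (i := ρ - 1) (by omega) (by omega)
  have hV : P.rk V + 1 = ρ := by omega
  have hs := sec_two P hV2 (by omega)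
  rw [hV] at hs
  obtain ⟨F1, hF1, F2, hF2, hne, _⟩ := two_of_ncard hs
  have main : ∀ F1 F2 : P.Face, F1 ∈ sec P V W ρ → F2 ∈ sec P V W ρ → F1 ≠ F2 →
      (Mu P rq ρ g F1).ncard = 2 → (Mu P rq ρ g F2).ncard = 0 →
      4 ≤ (lvl rq (g A) (g W) ρ).ncard := by
    intro F1 F2 hF1 hF2 hne h1 h0
    have hs2 := sec_two P (hV1.trans hF2.1) (by have := hF2.2.2; omega)
    have hVs : V ∈ sec P A F2 (P.rk A + 1) := ⟨hV1, hF2.1, by omega⟩
    obtain ⟨V', hV', hVne⟩ := other_of_ncard hs2 hVs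
    have rV' : P.rk V' + 1 = ρ := by have := hV'.2.2; omega
    have hs3 := sec_two P (hV'.2.1.trans hF2.2.1) (by omega)
    rw [rV'] at hs3
    have hF2s : F2 ∈ sec P V' W ρ := ⟨hV'.2.1, hF2.2.1, hF2.2.2⟩
    obtain ⟨F3, hF3, hF3ne⟩ := other_of_ncard hs3 hF2s
    have h3 := Mu_diamond hI hE hL h2 hρ rV' hW hF2s hF3 hF3ne.symm
    have h13 : F1 ≠ F3 := by
      rintro rfl
      exact no_crossing hL (show P.rk V = P.rk V' by omega) hVne.symm
        (show P.rk F1 = P.rk V + 1 by rw [hF1.2.2]; omega)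
        (show P.rk F2 = P.rk V + 1 by rw [hF2.2.2]; omega) hne hF1.1.le hF3.1.le hF2.1.le
        hV'.2.1.le
    have hd := ncard_union_eq (Mu_disj hI hE hL h2 hρ hF1.2.2 hF3.2.2 h13) (toFinite _) (toFinite _)
    have hsub : Mu P rq ρ g F1 ∪ Mu P rq ρ g F3 ⊆ lvl rq (g A) (g W) ρ := by
      rintro x (hx | hx)
      · exact ⟨(hx.2.1 A nA).mpr (hV1.trans hF1.1), (hx.2.2 W nW).mpr hF1.2.1, hx.1⟩
      · exact ⟨(hx.2.1 A nA).mpr (hV'.1.trans hF3.1), (hx.2.2 W nW).mpr hF3.2.1, hx.1⟩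
    have := ncard_le_ncard hsub (toFinite _)
    omega
  have hsum := Mu_diamond hI hE hL h2 hρ hV hW hF1 hF2 hne
  have n1 := hm F1 hF1.2.2
  have n2 := hm F2 hF2.2.2
  rcases (show (Mu P rq ρ g F1).ncard = 0 ∨ (Mu P rq ρ g F1).ncard = 2 by omega) with h | h
  · exact main F2 F1 hF2 hF1 hne.symm (by omega) h
  · exact main F1 F2 hF1 hF2 hne h (by omega)

theorem Mu_one {F : P.Face} (hF : P.rk F = ρ) : (Mu P rq ρ g F).ncard = 1 := by
  classical
  have := hE.finite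
  letI := Fintype.ofFinite α
  by_contra hcon
  -- then no face has multiplicity one
  have hm : ∀ G, P.rk G = ρ → (Mu P rq ρ g G).ncard ≠ 1 := by
    intro G hG
    obtain ⟨φ, hφ, _⟩ := flag_through P (le_refl F)
    obtain ⟨ψ, hψ, _⟩ := flag_through P (le_refl G)
    have i1 : 1 ≤ ρ := by omega
    have i2 : ρ ≤ n := by omega
    refine propagate P i1 i2 (fun F => (Mu P rq ρ g F).ncard ≠ 1) hφ hψ hF hG ?_ hcon
    intro G G' R S hG hG' hR hS hne hRG hRG' hGS hGS' _ _ hp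
    have := Mu_diamond hI hE hL h2 hρ hR hS (F := G) (F' := G') ⟨hRG, hGS, hG⟩ ⟨hRG', hGS', hG'⟩ hne
    intro h1
    apply hp
    omega
  -- a section of length four
  obtain ⟨φ, hφ, _⟩ := flag_through P (le_refl F)
  obtain ⟨A, hA, hAr⟩ := flag_rk P φ (ρ - 2) (by omega)
  obtain ⟨C, hC, hCr⟩ := flag_rk P φ (ρ + 2) (by omega)
  have hAC : A < C := flag_lt P.rk_strictMono φ hA hC (by omega)
  have nA : P.rk A ≠ ρ := by omega
  have nC : P.rk C ≠ ρ := by omega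
  have hgAC := (glt hI nA nC).mp hAC
  have e4 := euler_four hE hgAC (by rw [hI.grk A nA, hI.grk C nC]; omega)
  rw [hI.grk A nA] at e4
  rw [show P.rk A + 1 = ρ - 1 by omega, show P.rk A + 2 = ρ by omega,
    show P.rk A + 3 = ρ + 1 by omega] at e4
  -- double counting
  have c1 : (lvl rq (g A) (g C) (ρ - 1)).ncard * 4 ≤ (lvl rq (g A) (g C) ρ).ncard * 2 := by
    rw [ncard_eq_toFinset_card', ncard_eq_toFinset_card']
    have := Finset.card_nsmul_le_card_nsmul (r := fun v x : α => v < x)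
      (s := (lvl rq (g A) (g C) (ρ - 1)).toFinset) (t := (lvl rq (g A) (g C) ρ).toFinset)
      (m := 4) (n := 2) ?_ ?_
    · simpa using this
    · intro v hv
      rw [mem_toFinset] at hv
      have hvr : rq v ≠ ρ := by have := hv.2.2; omega
      have h4 := deg_up hI hE hL h2 hρ hm (V := f v) (C := C)
        (by rw [hI.frk v hvr]; have := hv.2.2; omega) hCr
        (by rw [glt hI (by rw [hI.frk v hvr]; exact hvr) nC, hI.gf v hvr]; exact hv.2.1)
      rw [hI.gf v hvr] at h4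
      rw [ncard_eq_toFinset_card'] at h4
      refine h4.trans (Finset.card_le_card ?_)
      intro x hx
      rw [mem_toFinset] at hx
      rw [Finset.mem_bipartiteAbove, mem_toFinset]
      exact ⟨⟨hv.1.trans hx.1, hx.2.1, hx.2.2⟩, hx.1⟩
    · intro x hx
      rw [mem_toFinset] at hx
      have e2 := euler_two hE hx.1 (by rw [hx.2.2, hI.grk A nA]; omega)
      rw [hI.grk A nA, show P.rk A + 1 = ρ - 1 by omega, ncard_eq_toFinset_card'] at e2
      rw [← e2]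
      apply Finset.card_le_card
      intro v hv
      rw [Finset.mem_bipartiteBelow, mem_toFinset] at hv
      rw [mem_toFinset]
      exact ⟨hv.1.1, hv.2, hv.1.2.2⟩
  have c2 : (lvl rq (g A) (g C) (ρ + 1)).ncard * 4 ≤ (lvl rq (g A) (g C) ρ).ncard * 2 := by
    rw [ncard_eq_toFinset_card', ncard_eq_toFinset_card']
    have := Finset.card_nsmul_le_card_nsmul (r := fun v x : α => x < v)
      (s := (lvl rq (g A) (g C) (ρ + 1)).toFinset) (t := (lvl rq (g A) (g C) ρ).toFinset)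
      (m := 4) (n := 2) ?_ ?_
    · simpa using this
    · intro v hv
      rw [mem_toFinset] at hv
      have hvr : rq v ≠ ρ := by have := hv.2.2; omega
      have h4 := deg_down hI hE hL h2 hρ hm (A := A) (W := f v)
        (by omega) (by rw [hI.frk v hvr]; exact hv.2.2)
        (by rw [glt hI nA (by rw [hI.frk v hvr]; exact hvr), hI.gf v hvr]; exact hv.1)
      rw [hI.gf v hvr] at h4
      rw [ncard_eq_toFinset_card'] at h4
      refine h4.trans (Finset.card_le_card ?_)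
      intro x hx
      rw [mem_toFinset] at hx
      rw [Finset.mem_bipartiteAbove, mem_toFinset]
      exact ⟨⟨hx.1, hx.2.1.trans hv.2.1, hx.2.2⟩, hx.2.1⟩
    · intro x hx
      rw [mem_toFinset] at hx
      have e2 := euler_two hE hx.2.1 (by rw [hx.2.2, hI.grk C nC]; omega)
      rw [hx.2.2, ncard_eq_toFinset_card'] at e2
      rw [← e2]
      apply Finset.card_le_card
      intro v hv
      rw [Finset.mem_bipartiteBelow, mem_toFinset] at hv
      rw [mem_toFinset]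
      exact ⟨hv.2, hv.1.2.1, hv.1.2.2⟩
  omega

/-- the identification extends to an isomorphism -/
theorem exists_iso : ∃ φ : α ≃o P.Face, ∀ x, rq x ≠ ρ → φ x = f x := by
  classical
  have hex : ∀ x, rq x = ρ → ∃ F, P.rk F = ρ ∧ x ∈ Mu P rq ρ g F := fun x hx =>
    exists_Mu hI hE hL h2 hρ hx
  choose! Φ hΦ1 hΦ2 using hex
  have hone : ∀ F, P.rk F = ρ → ∃ x, Mu P rq ρ g F = {x} := fun F hF =>
    ncard_eq_one.mp (Mu_one hI hE hL h2 hρ hF)
  choose! Ψ hΨ using hone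
  have hΨmem : ∀ F, P.rk F = ρ → Ψ F ∈ Mu P rq ρ g F := by
    intro F hF
    have : Ψ F ∈ ({Ψ F} : Set α) := rfl
    rw [← hΨ F hF] at this
    exact this
  have hΨr : ∀ F, P.rk F = ρ → rq (Ψ F) = ρ := fun F hF => (hΨmem F hF).1
  have hΦΨ : ∀ F, P.rk F = ρ → Φ (Ψ F) = F := fun F hF =>
    Mu_unique hL h2 hρ (hΦ1 _ (hΨr F hF)) hF (hΦ2 _ (hΨr F hF)) (hΨmem F hF)
  have hΨΦ : ∀ x, rq x = ρ → Ψ (Φ x) = x := by
    intro x hx
    have h1 := hΦ2 x hx
    rw [hΨ _ (hΦ1 x hx)] at h1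
    exact h1.symm
  let φ : α → P.Face := fun x => if rq x = ρ then Φ x else f x
  let ψ : P.Face → α := fun F => if P.rk F = ρ then Ψ F else g F
  have φ1 : ∀ x, rq x = ρ → φ x = Φ x := fun x hx => if_pos hx
  have φ2 : ∀ x, rq x ≠ ρ → φ x = f x := fun x hx => if_neg hx
  have hφψ : ∀ F, φ (ψ F) = F := by
    intro F
    by_cases h : P.rk F = ρ
    · show φ (if P.rk F = ρ then Ψ F else g F) = F
      rw [if_pos h, φ1 _ (hΨr F h), hΦΨ F h]
    · show φ (if P.rk F = ρ then Ψ F else g F) = F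
      rw [if_neg h, φ2 _ (by rw [hI.grk F h]; exact h), hI.fg F h]
  have hψφ : ∀ x, ψ (φ x) = x := by
    intro x
    by_cases h : rq x = ρ
    · rw [φ1 x h]
      show (if P.rk (Φ x) = ρ then Ψ (Φ x) else g (Φ x)) = x
      rw [if_pos (hΦ1 x h), hΨΦ x h]
    · rw [φ2 x h]
      show (if P.rk (f x) = ρ then Ψ (f x) else g (f x)) = x
      rw [if_neg (by rw [hI.frk x h]; exact h), hI.gf x h]
  have hle : ∀ x y, φ x ≤ φ y ↔ x ≤ y := by
    intro x y
    by_cases hx : rq x = ρ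
    · by_cases hy : rq y = ρ
      · constructor
        · intro h
          have he : φ x = φ y := eq_of_le_rk h (by
            rw [φ1 x hx, φ1 y hy, hΦ1 x hx, hΦ1 y hy])
          rw [← hψφ x, ← hψφ y, he]
        · intro h
          rcases h.eq_or_lt with h' | h'
          · rw [h']
          · exact absurd (hE.strictMono h') (by omega)
      · have hfy : P.rk (f y) ≠ ρ := by rw [hI.frk y hy]; exact hy
        have h1 := (hΦ2 x hx).2.2 (f y) hfy
        rw [hI.gf y hy] at h1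
        rw [φ1 x hx, φ2 y hy]
        constructor
        · intro h
          exact (h1.mpr (lt_of_le_of_ne h (fun he => hfy (by rw [← he]; exact hΦ1 x hx)))).le
        · intro h
          exact (h1.mp (lt_of_le_of_ne h (fun he => hy (by rw [← he]; exact hx)))).le
    · have hfx : P.rk (f x) ≠ ρ := by rw [hI.frk x hx]; exact hx
      by_cases hy : rq y = ρ
      · have h1 := (hΦ2 y hy).2.1 (f x) hfx
        rw [hI.gf x hx] at h1
        rw [φ2 x hx, φ1 y hy]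
        constructor
        · intro h
          exact (h1.mpr (lt_of_le_of_ne h (fun he => hfx (by rw [he]; exact hΦ1 y hy)))).le
        · intro h
          exact (h1.mp (lt_of_le_of_ne h (fun he => hx (by rw [he]; exact hy)))).le
      · rw [φ2 x hx, φ2 y hy]
        exact fle hI hx hy
  exact ⟨⟨⟨φ, ψ, hψφ, hφψ⟩, fun {x y} => hle x y⟩, φ2⟩

end core

end Pool.Agent.X157.AgreeMain
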