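import Pool.Agent.X157.KInfB

/-!
# Systems with an infinite abelian group of symmetries
-/

namespace Pool.Agent.X157.KInf

open Finset Filter MulAction

lemma exists_signs {S X : Type} [DecidableEq S] (f : S → X → ℝ)
    (hf : ∀ s, Summable fun x => f s x ^ 2) (T : Finset S) :
    ∃ σ : S → ℝ, (∀ s, σ s = 1 ∨ σ s = -1) ∧
      (Summable fun x => (∑ s ∈ T, σ s * f s x) ^ 2) ∧
      ∑' x, (∑ s ∈ T, σ s * f s x) ^ 2 ≤ ∑ s ∈ T, ∑' x, f s x ^ 2 := by
  induction T using Finset.induction_on with
  | empty => exact ⟨fun _ => 1, fun _ => Or.inl rfl, by simpa using summable_zero, by simp⟩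
  | insert t T ht ih =>
    obtain ⟨σ, hσ, hsm, hb⟩ := ih
    set A : X → ℝ := fun x => ∑ s ∈ T, σ s * f s x with hA
    have hAf : Summable fun x => A x * f t x := by
      refine Summable.of_norm_bounded (hsm.add (hf t)) fun x => ?_
      rw [Real.norm_eq_abs, abs_le]
      constructor <;> nlinarith [sq_nonneg (A x - f t x), sq_nonneg (A x + f t x),
        sq_nonneg (A x), sq_nonneg (f t x)]
    set c : ℝ := if 0 ≤ ∑' x, A x * f t x then -1 else 1 with hc
    have hc1 : c = 1 ∨ c = -1 := by rw [hc]; split_ifs <;> simp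
    have hc2 : c ^ 2 = 1 := by rcases hc1 with h | h <;> rw [h] <;> norm_num
    have hc3 : c * ∑' x, A x * f t x ≤ 0 := by
      rw [hc]; split_ifs with h
      · linarith
      · push Not at h; linarith
    have h1 : ∀ x, (∑ s ∈ insert t T, Function.update σ t c s * f s x) ^ 2 =
        A x ^ 2 + 2 * c * (A x * f t x) + f t x ^ 2 := by
      intro x
      rw [Finset.sum_insert ht, Function.update_self]
      have h2 : ∑ s ∈ T, Function.update σ t c s * f s x = ∑ s ∈ T, σ s * f s x := by
        refine Finset.sum_congr rfl fun s hs => ?_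
        rw [Function.update_of_ne (fun h => ht (by rw [← h]; exact hs))]
      rw [h2]
      calc _ = A x ^ 2 + 2 * c * (A x * f t x) + c ^ 2 * f t x ^ 2 := by rw [hA]; ring
        _ = _ := by rw [hc2, one_mul]
    refine ⟨Function.update σ t c, fun s => ?_, ?_, ?_⟩
    · by_cases h : s = t
      · rw [h, Function.update_self]; exact hc1
      · rw [Function.update_of_ne h]; exact hσ s
    · simp_rw [h1]
      exact (hsm.add (hAf.mul_left _)).add (hf t)
    · rw [Finset.sum_insert ht]
      simp_rw [h1]
      rw [Summable.tsum_add (hsm.add (hAf.mul_left _)) (hf t),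
        Summable.tsum_add hsm (hAf.mul_left _), tsum_mul_left]
      linarith

lemma sq_summable {X : Type} (w : X → ℝ) (h : Summable fun k => |w k|) :
    Summable fun k => w k ^ 2 := by
  have h1 : Summable fun k => ‖w k‖ := h
  have h2 := h1.tendsto_cofinite_zero
  have h3 : ∀ᶠ k in cofinite, ‖w k‖ ≤ 1 := by
    have := h2.eventually (gt_mem_nhds (by norm_num : (0:ℝ) < 1))
    filter_upwards [this] with k hk using hk.le
  refine Summable.of_norm_bounded_eventually h1 ?_
  filter_upwards [h3] with k hk
  rw [norm_pow]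
  nlinarith [norm_nonneg (w k)]

theorem action_inf (G D N : Type) [CommGroup G] [MulAction G D] [MulAction G N]
    (hG : Good (Additive G)) [Finite (orbitRel.Quotient G N)] (v : N → D → ℝ)
    (hD : ∀ (a : G) (k : D), a • k = k → a = 1) (hN : ∀ (a : G) (j : N), a • j = j → a = 1)
    (hinv : ∀ (a : G) (j : N) (k : D), v (a • j) (a • k) = v j k)
    (hsum : ∀ j, Summable fun k => |v j k|)
    (hcol : ∀ j, ∑' k, v j k ^ 2 ≤ 1) :
    ∃ ε : N → ℝ, (∀ j, ε j = 1 ∨ ε j = -1) ∧
      ∀ k, (Summable fun j => |v j k|) ∧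
        |∑' j, ε j * v j k| ≤ 2 ^ 666 * Real.sqrt (Nat.card (orbitRel.Quotient G N)) := by
  classical
  letI : Fintype (orbitRel.Quotient G N) := Fintype.ofFinite _
  let eD := Pool.Agent.W862.Kom.orbEquiv G D hD
  let eN := Pool.Agent.W862.Kom.orbEquiv G N hN
  -- the functions
  set f : orbitRel.Quotient G N → (orbitRel.Quotient G D × Additive G) → ℝ :=
    fun s q => v (Quotient.out s) ((Additive.toMul q.2) • (Quotient.out q.1 : D)) with hf
  let E2 : (orbitRel.Quotient G D × Additive G) ≃ D :=
    (Equiv.prodCongr (Equiv.refl _) Additive.toMul).trans eD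
  have hfE : ∀ s q, f s q = v (Quotient.out s) (E2 q) := fun s q => rfl
  have hfsum : ∀ s, Summable fun q => |f s q| := by
    intro s
    have := (E2.summable_iff (f := fun k => |v (Quotient.out s) k|)).mpr (hsum _)
    exact this
  have hfsq : ∀ s, Summable fun q => f s q ^ 2 := fun s => sq_summable _ (hfsum s)
  have hftsum : ∀ s, ∑' q, f s q ^ 2 ≤ 1 := by
    intro s
    refine le_trans (le_of_eq ?_) (hcol (Quotient.out s))
    exact E2.tsum_eq (fun k => v (Quotient.out s) k ^ 2)
  obtain ⟨σ, hσ, hσs, hσb⟩ := exists_signs f hfsq univ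
  have hS : ∑' q, (∑ s, σ s * f s q) ^ 2 ≤ (Fintype.card (orbitRel.Quotient G N) : ℝ) := by
    refine hσb.trans ((Finset.sum_le_sum fun s _ => hftsum s).trans ?_)
    rw [Finset.sum_const, Finset.card_univ, nsmul_eq_mul, mul_one]
  set S : ℝ := (Fintype.card (orbitRel.Quotient G N) : ℝ) with hSdef
  have hS0 : 0 ≤ S := Nat.cast_nonneg _
  have hcard : (Nat.card (orbitRel.Quotient G N) : ℝ) = S := by
    rw [Nat.card_eq_fintype_card, hSdef]
  rw [hcard]
  by_cases hSz : S = 0
  · -- no vectors
    have hemp : IsEmpty N := by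
      have h0 : Fintype.card (orbitRel.Quotient G N) = 0 := by
        rw [hSdef] at hSz; exact_mod_cast hSz
      have h1 := Fintype.card_eq_zero_iff.mp h0
      exact ⟨fun j => h1.false (Quotient.mk'' j)⟩
    refine ⟨fun _ => 1, fun _ => Or.inl rfl, fun k => ⟨?_, ?_⟩⟩
    · exact summable_of_hasFiniteSupport (Set.toFinite _)
    · rw [tsum_empty, abs_zero]
      positivity
  have hSpos : 0 < S := lt_of_le_of_ne hS0 (Ne.symm hSz)
  have hsq : 0 < Real.sqrt S := Real.sqrt_pos.mpr hSpos
  have hrow : ∀ ρ : orbitRel.Quotient G D, ∀ s, Summable fun i : Additive G => |f s (ρ, i)| := by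
    intro ρ s
    exact (hfsum s).comp_injective (i := fun i : Additive G => (ρ, i))
      (fun i j h => congrArg Prod.snd h)
  obtain ⟨x, hx, hxb⟩ := one_inf hG (R := orbitRel.Quotient G D)
    (fun ρ g => (∑ s, σ s * f s (ρ, g)) / Real.sqrt S)
    (by
      simp_rw [div_pow, Real.sq_sqrt hS0]
      exact hσs.div_const S)
    (by
      simp_rw [div_pow, Real.sq_sqrt hS0]
      rw [tsum_div_const, div_le_one hSpos]
      exact hS)
    (by
      intro ρ
      simp_rw [abs_div]
      refine Summable.div_const ?_ _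
      refine Summable.of_nonneg_of_le (fun _ => abs_nonneg _) (fun i => ?_)
        (summable_sum (f := fun s (i : Additive G) => |f s (ρ, i)|)
          (s := univ) fun s _ => hrow ρ s)
      refine (Finset.abs_sum_le_sum_abs _ _).trans (le_of_eq ?_)
      refine Finset.sum_congr rfl fun s _ => ?_
      rw [abs_mul]
      rcases hσ s with h | h <;> rw [h] <;> simp)
  -- the signs
  refine ⟨fun j => σ (eN.symm j).1 * x (Additive.ofMul (eN.symm j).2), fun j => ?_,
    fun k => ?_⟩
  · beta_reduce
    rcases hσ (eN.symm j).1 with h1 | h1 <;>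
      rcases hx (Additive.ofMul (eN.symm j).2) with h2 | h2 <;>
      rw [h1, h2] <;> simp
  obtain ⟨⟨ρ, g⟩, hk⟩ := E2.surjective k
  have hk2 : k = (Additive.toMul g) • (Quotient.out ρ : D) := hk.symm
  -- entries of the row
  have hent : ∀ (s : orbitRel.Quotient G N) (h : G),
      v (eN (s, h)) k = f s (ρ, g - Additive.ofMul h) := by
    intro s h
    have h4 := hinv h (Quotient.out s : N) ((h⁻¹ * Additive.toMul g) • (Quotient.out ρ : D))
    rw [← mul_smul, mul_inv_cancel_left, ← hk2] at h4
    have h5 : f s (ρ, g - Additive.ofMul h) =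
        v (Quotient.out s) ((h⁻¹ * Additive.toMul g) • (Quotient.out ρ : D)) := by
      rw [hf]
      simp only []
      rw [toMul_sub, toMul_ofMul, div_eq_mul_inv, mul_comm]
    rw [h5, ← h4]
    rfl
  let E3 : Additive G ≃ G := (Equiv.subLeft g).trans Additive.toMul
  have hE3 : ∀ t : Additive G, g - Additive.ofMul (E3 t) = t := by
    intro t
    change g - (g - t) = t
    abel
  have hE3' : ∀ t : Additive G, Additive.ofMul (E3 t) = g - t := fun t => rfl
  have hsumN : Summable fun j => |v j k| := by
    rw [← eN.summable_iff]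
    refine (summable_prod_of_nonneg (f := (fun j => |v j k|) ∘ eN)
      (fun q => abs_nonneg _)).mpr ⟨fun s => ?_, summable_of_hasFiniteSupport (Set.toFinite _)⟩
    rw [← E3.summable_iff]
    refine (hrow ρ s).congr fun t => ?_
    simp only [Function.comp_apply]
    rw [hent s (E3 t), hE3]
  refine ⟨hsumN, ?_⟩
  have hsumN2 : Summable fun j => σ (eN.symm j).1 * x (Additive.ofMul (eN.symm j).2) * v j k := by
    refine Summable.of_abs (hsumN.congr fun j => ?_)
    rw [abs_mul, abs_mul]
    rcases hσ (eN.symm j).1 with h1 | h1 <;>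
      rcases hx (Additive.ofMul (eN.symm j).2) with h2 | h2 <;>
      rw [h1, h2] <;> simp
  have h1 : ∑' j, (σ (eN.symm j).1 * x (Additive.ofMul (eN.symm j).2)) * v j k =
      Real.sqrt S * ∑' t, ((∑ s, σ s * f s (ρ, t)) / Real.sqrt S) * x (g - t) := by
    rw [← eN.tsum_eq]
    have hsum3 := (eN.summable_iff (f := fun j =>
      σ (eN.symm j).1 * x (Additive.ofMul (eN.symm j).2) * v j k)).mpr hsumN2
    rw [Summable.tsum_prod (by exact hsum3), tsum_fintype]
    have h3 : ∀ s : orbitRel.Quotient G N,
        ∑' h : G, σ (eN.symm (eN (s, h))).1 * x (Additive.ofMul (eN.symm (eN (s, h))).2) *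
          v (eN (s, h)) k = ∑' t : Additive G, σ s * f s (ρ, t) * x (g - t) := by
      intro s
      rw [← E3.tsum_eq]
      refine tsum_congr fun t => ?_
      rw [hent s (E3 t), hE3, Equiv.symm_apply_apply]
      simp only []
      rw [hE3']
      ring
    simp_rw [h3]
    rw [← Summable.tsum_finsetSum]
    · rw [← tsum_mul_left]
      refine tsum_congr fun t => ?_
      rw [show Real.sqrt S * ((∑ s, σ s * f s (ρ, t)) / Real.sqrt S * x (g - t)) =
        (∑ s, σ s * f s (ρ, t)) * x (g - t) by field_simp, Finset.sum_mul]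
    · intro s _
      refine Summable.of_abs ((hrow ρ s).congr fun t => ?_)
      rw [abs_mul, abs_mul]
      rcases hσ s with h1 | h1 <;> rcases hx (g - t) with h2 | h2 <;> rw [h1, h2] <;> simp
  rw [h1, abs_mul, abs_of_pos hsq, mul_comm]
  exact mul_le_mul_of_nonneg_right (hxb ρ g) hsq.le

end Pool.Agent.X157.KInf
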