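import Pool.Agent.TH104.BF.Q
import Pool.Agent.X157.KInfC

/-!
# Translation invariant set systems on infinite groups
-/

namespace Pool.Agent.X157.BFInf

open Finset

variable {G : Type} [AddGroup G] {r : ℕ}

/-- the left translate by `a` of a finite subset of `r` copies of `G` -/
def shift (a : G) (A : Finset (Fin r × G)) : Finset (Fin r × G) :=
  A.map ((Equiv.refl (Fin r)).prodCongr (Equiv.addLeft a)).toEmbedding

/-- no element except `0` has finite order -/
def TorsionFree (G : Type) [AddGroup G] : Prop := ∀ (n : ℕ) (a : G), n ≠ 0 → n • a = 0 → a = 0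

/-- the family is invariant under the left translations -/
def Invariant (F : Set (Finset (Fin r × G))) : Prop := ∀ (a : G), ∀ A ∈ F, shift a A ∈ F

/-- no nonempty member of the family is invariant under a translation different from `0` -/
def Free (F : Set (Finset (Fin r × G))) : Prop :=
  ∀ A ∈ F, A.Nonempty → ∀ a : G, shift a A = A → a = 0

/-- every point lies in at most `t` members of the family -/
def DegreeLE (F : Set (Finset (Fin r × G))) (t : ℕ) : Prop :=
  ∀ q, {A | A ∈ F ∧ q ∈ A}.encard ≤ t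

lemma mem_shift {a : G} {A : Finset (Fin r × G)} {c : Fin r} {x : G} :
    (c, x) ∈ shift a A ↔ (c, -a + x) ∈ A := by
  unfold shift
  rw [Finset.mem_map]
  constructor
  · rintro ⟨⟨c', x'⟩, h, heq⟩
    simp only [Equiv.coe_toEmbedding, Equiv.prodCongr_apply, Equiv.coe_refl, Prod.map_apply,
      id_eq, Equiv.coe_addLeft, Prod.mk.injEq] at heq
    obtain ⟨h1, h2⟩ := heq
    subst h1
    rw [← h2, neg_add_cancel_left]
    exact h
  · intro h
    refine ⟨(c, -a + x), h, ?_⟩
    simp

lemma mem_shift' {a : G} {A : Finset (Fin r × G)} {c : Fin r} {x : G} :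
    (c, a + x) ∈ shift a A ↔ (c, x) ∈ A := by
  rw [mem_shift, neg_add_cancel_left]

lemma shift_shift (a b : G) (A : Finset (Fin r × G)) : shift a (shift b A) = shift (a + b) A := by
  ext ⟨c, x⟩
  rw [mem_shift, mem_shift, mem_shift, neg_add_rev, add_assoc]

lemma shift_zero (A : Finset (Fin r × G)) : shift 0 A = A := by
  ext ⟨c, x⟩
  rw [mem_shift, neg_zero, zero_add]

lemma free (htf : TorsionFree G) {A : Finset (Fin r × G)} (hA : A.Nonempty) {a : G}
    (h : shift a A = A) : a = 0 := by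
  by_contra ha
  obtain ⟨⟨c, x⟩, hx⟩ := hA
  have h1 : ∀ n : ℕ, (c, n • a + x) ∈ A := by
    intro n
    induction n with
    | zero => rw [zero_nsmul, zero_add]; exact hx
    | succ n ih =>
      rw [succ_nsmul', add_assoc, ← h, mem_shift']
      exact ih
  have hinj : Function.Injective fun n : ℕ => (c, n • a + x) := by
    intro m n hmn
    have h2 : m • a = n • a := by
      have := congrArg Prod.snd hmn
      simpa using this
    by_contra hne
    wlog hlt : m < n generalizing m n
    · exact this hmn.symm h2.symm (Ne.symm hne) (by omega)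
    have h3 : (n - m) • a = 0 := by
      have h4 : n • a = m • a + (n - m) • a := by
        rw [← add_nsmul]; congr 1; omega
      rw [← h2] at h4
      have := h4.symm
      rwa [add_eq_left] at this
    exact ha (htf (n - m) a (by omega) h3)
  exact Set.infinite_of_injective_forall_mem hinj h1 A.finite_toSet

lemma shift_nonempty {a : G} {A : Finset (Fin r × G)} (hA : A.Nonempty) : (shift a A).Nonempty := by
  unfold shift; exact hA.map

lemma shift_inj {F : Set (Finset (Fin r × G))} (hfree : Free F) {A : Finset (Fin r × G)}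
    (hAF : A ∈ F) (hA : A.Nonempty) {a b : G} (h : shift a A = shift b A) : a = b := by
  have h1 : shift (-b + a) A = A := by
    rw [← shift_shift, h, shift_shift, neg_add_cancel, shift_zero]
  have h2 := hfree A hAF hA _ h1
  have h3 := neg_add_eq_zero.mp h2
  exact h3.symm

lemma deg_fin {F : Set (Finset (Fin r × G))} {t : ℕ} (hdeg : DegreeLE F t) (q : Fin r × G) :
    {A | A ∈ F ∧ q ∈ A}.Finite := by
  refine Set.finite_of_encard_le_coe (hdeg q)

lemma deg_ncard {F : Set (Finset (Fin r × G))} {t : ℕ} (hdeg : DegreeLE F t) (q : Fin r × G) :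
    {A | A ∈ F ∧ q ∈ A}.ncard ≤ t := by
  have h := hdeg q
  rw [← (deg_fin hdeg q).cast_ncard_eq] at h
  exact_mod_cast h

/-- the sets are small -/
lemma size_le {F : Set (Finset (Fin r × G))} (hfree : Free F) (hinv : Invariant F) {t : ℕ}
    (hdeg : DegreeLE F t) {A : Finset (Fin r × G)} (hA : A ∈ F) : A.card ≤ r * t := by
  classical
  have h1 : A.card ≤ ∑ _c : Fin r, t := by
    rw [Finset.card_eq_sum_card_fiberwise (f := Prod.fst) (t := univ) (fun _ _ => mem_coe.mpr (mem_univ _))]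
    refine Finset.sum_le_sum fun c _ => ?_
    have h2 := deg_ncard hdeg (c, 0)
    refine le_trans ?_ h2
    rw [← Set.ncard_coe_finset]
    refine Set.ncard_le_ncard_of_injOn (fun q => shift (-q.2) A) ?_ ?_ (deg_fin hdeg _)
    · rintro ⟨c', x⟩ hq
      rw [Finset.mem_coe, Finset.mem_filter] at hq
      obtain ⟨hq1, hq2⟩ := hq
      simp only at hq2
      subst hq2
      refine ⟨hinv _ A hA, ?_⟩
      rw [mem_shift]
      simpa using hq1
    · rintro ⟨c', x⟩ hq ⟨c'', y⟩ hq' h
      rw [Finset.mem_coe, Finset.mem_filter] at hq hq'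
      have h3 := shift_inj hfree hA ⟨_, hq.1⟩ h
      simp only [neg_inj] at h3
      rw [h3]
      congr 1
      exact hq.2.trans hq'.2.symm
  simpa using h1

/-- a separating normal subgroup of small index -/
lemma exists_normal {F : Set (Finset (Fin r × G))} (hfree : Free F) (hinv : Invariant F)
    {t : ℕ} (hdeg : DegreeLE F t) (e : ℕ) (he : 1 ≤ e)
    (hres : ∀ A ∈ F, ∀ (c : Fin r) (x y : G), (c, x) ∈ A → (c, y) ∈ A → x ≠ y →
      ∃ N : AddSubgroup G, N.Normal ∧ 0 < N.index ∧ N.index ≤ e ∧ x - y ∉ N) :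
    ∃ N : AddSubgroup G, N.Normal ∧ 0 < N.index ∧ N.index ≤ e ^ (r * t ^ 2) ∧
      ∀ A ∈ F, ∀ (c : Fin r) (x y : G), (c, x) ∈ A → (c, y) ∈ A → x - y ∈ N → x = y := by
  classical
  have hfin : ∀ c : Fin r, Finite {A // A ∈ F ∧ (c, (0 : G)) ∈ A} := fun c =>
    (deg_fin hdeg (c, 0)).to_subtype
  let _ : ∀ c : Fin r, Fintype {A // A ∈ F ∧ (c, (0 : G)) ∈ A} := fun c => Fintype.ofFinite _
  have hcard : ∀ c : Fin r, Fintype.card {A // A ∈ F ∧ (c, (0 : G)) ∈ A} ≤ t := by
    intro c
    have h := deg_ncard hdeg (c, (0 : G))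
    rw [← Nat.card_coe_set_eq] at h
    rw [← Nat.card_eq_fintype_card]
    exact h
  let T := Σ c : Fin r, {A // A ∈ F ∧ (c, (0 : G)) ∈ A} × {A // A ∈ F ∧ (c, (0 : G)) ∈ A}
  have hT : Fintype.card T ≤ r * t ^ 2 := by
    simp only [T, Fintype.card_sigma, Fintype.card_prod]
    calc ∑ c : Fin r, Fintype.card {A // A ∈ F ∧ (c, (0 : G)) ∈ A} *
          Fintype.card {A // A ∈ F ∧ (c, (0 : G)) ∈ A}
        ≤ ∑ _c : Fin r, t * t := Finset.sum_le_sum fun c _ => Nat.mul_le_mul (hcard c) (hcard c)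
      _ = r * t ^ 2 := by
          rw [Finset.sum_const, Finset.card_univ, Fintype.card_fin, smul_eq_mul]; ring
  have hsub : ∀ τ : T, ∃ N : AddSubgroup G, N.Normal ∧ 0 < N.index ∧ N.index ≤ e ∧
      ∀ a : G, shift a τ.2.1.1 = τ.2.2.1 → a ∈ N → a = 0 := by
    intro τ
    by_cases h : ∃ a : G, shift a τ.2.1.1 = τ.2.2.1 ∧ a ≠ 0
    · obtain ⟨a, ha, ha1⟩ := h
      have h1 : (τ.1, -a + 0) ∈ τ.2.1.1 := by
        rw [← mem_shift, ha]; exact τ.2.2.2.2
      obtain ⟨N, hN1, hN2, hN3, hN4⟩ := hres τ.2.1.1 τ.2.1.2.1 τ.1 0 (-a + 0) τ.2.1.2.2 h1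
        (by rw [add_zero]; exact fun h => ha1 (neg_eq_zero.mp h.symm))
      refine ⟨N, hN1, hN2, hN3, fun b hb hbN => ?_⟩
      have h2 : b = a := shift_inj hfree τ.2.1.2.1 ⟨_, τ.2.1.2.2⟩ (hb.trans ha.symm)
      rw [h2] at hbN
      exact absurd (by simpa using hbN) hN4
    · push Not at h
      refine ⟨⊤, inferInstance, ?_, ?_, fun a ha _ => h a ha⟩
      · rw [AddSubgroup.index_top]; exact Nat.one_pos
      · rw [AddSubgroup.index_top]; exact he
  choose N hN1 hN2 hN3 hN4 using hsub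
  refine ⟨⨅ τ, N τ, ?_, ?_, ?_, ?_⟩
  · constructor
    intro n hn g
    rw [AddSubgroup.mem_iInf] at hn ⊢
    exact fun τ => (hN1 τ).conj_mem n (hn τ) g
  · refine Nat.pos_of_ne_zero (AddSubgroup.index_iInf_ne_zero fun τ => (hN2 τ).ne')
  · calc (⨅ τ, N τ).index ≤ ∏ τ, (N τ).index := AddSubgroup.index_iInf_le N
      _ ≤ ∏ _τ : T, e := Finset.prod_le_prod' fun τ _ => hN3 τ
      _ = e ^ Fintype.card T := by rw [Finset.prod_const, Finset.card_univ]
      _ ≤ _ := Nat.pow_le_pow_right he hT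
  · intro A hA c x y hx hy hxy
    have g1 : (c, (0 : G)) ∈ shift (-y) A := by rw [mem_shift]; simpa using hy
    have g2 : (c, (0 : G)) ∈ shift (-x) A := by rw [mem_shift]; simpa using hx
    have h1 := hN4 (⟨c, ⟨shift (-y) A, hinv _ A hA, g1⟩, ⟨shift (-x) A, hinv _ A hA, g2⟩⟩ : T)
      (-x + y) (by
        change shift (-x + y) (shift (-y) A) = shift (-x) A
        rw [shift_shift, add_assoc, add_neg_cancel, add_zero]) (by
        have h2 := (AddSubgroup.mem_iInf.1 hxy)
          (⟨c, ⟨shift (-y) A, hinv _ A hA, g1⟩, ⟨shift (-x) A, hinv _ A hA, g2⟩⟩ : T)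
        have h3 := (hN1 (⟨c, ⟨shift (-y) A, hinv _ A hA, g1⟩,
          ⟨shift (-x) A, hinv _ A hA, g2⟩⟩ : T)).conj_mem _ h2 (-y)
        have h4 : -x + y = -(-y + (x - y) + -(-y)) := by
          rw [neg_neg, add_assoc, sub_add_cancel, neg_add_rev, neg_neg]
        rw [h4]
        exact neg_mem h3)
    have h5 := neg_add_eq_zero.mp h1
    exact h5

/-- reduction to the quotient -/
theorem quot {F : Set (Finset (Fin r × G))} (hinv : Invariant F)
    {t : ℕ} (hdeg : DegreeLE F t) (s : ℕ) (hs : ∀ A ∈ F, A.card ≤ s)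
    (N : AddSubgroup G) (hN : N.Normal) (hN0 : 0 < N.index)
    (hsep : ∀ A ∈ F, ∀ (c : Fin r) (x y : G), (c, x) ∈ A → (c, y) ∈ A → x - y ∈ N → x = y)
    (B : ℝ) (hB : Pool.Agent.TH104.BF.GoodSys t s (r * N.index) B) :
    ∃ χ : Fin r × G → ℤ, (∀ q, χ q = 1 ∨ χ q = -1) ∧
      ∀ A ∈ F, ((|∑ q ∈ A, χ q| : ℤ) : ℝ) ≤ B := by
  classical
  have hfinQ : Finite (G ⧸ N) := Nat.finite_of_card_ne_zero (by
    have : Nat.card (G ⧸ N) = N.index := rfl
    rw [this]; exact hN0.ne')
  let _ : Fintype (G ⧸ N) := Fintype.ofFinite _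
  let pV : Fin r × G → Fin r × (G ⧸ N) := fun q => (q.1, QuotientAddGroup.mk q.2)
  have hmk : ∀ x y : G, (QuotientAddGroup.mk x : G ⧸ N) = QuotientAddGroup.mk y ↔ x - y ∈ N := by
    intro x y
    rw [QuotientAddGroup.eq]
    constructor
    · intro h
      have h1 := hN.conj_mem _ (neg_mem h) x
      have h2 : x + -(-x + y) + -x = x - y := by
        rw [neg_add_rev, neg_neg, sub_eq_add_neg]
        rw [← add_assoc, add_assoc, add_neg_cancel, add_zero]
      rwa [h2] at h1
    · intro h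
      have h1 := hN.conj_mem _ (neg_mem h) (-x)
      have h2 : -x + -(x - y) + -(-x) = -x + y := by
        rw [neg_neg, neg_sub, sub_eq_add_neg, ← add_assoc, add_assoc, neg_add_cancel, add_zero]
      rwa [h2] at h1
  have hinj : ∀ A ∈ F, Set.InjOn pV A := by
    rintro A hA ⟨c, x⟩ hx ⟨c', y⟩ hy h
    have h1 : c = c' := congrArg Prod.fst h
    subst h1
    have h2 : x - y ∈ N := (hmk x y).mp (congrArg Prod.snd h)
    rw [hsep A hA c x y hx hy h2]
  let M := {A' : Finset (Fin r × (G ⧸ N)) // ∃ A ∈ F, A.image pV = A'}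
  let _ : Fintype M := Fintype.ofFinite _
  obtain ⟨χ, h1, h2⟩ := Pool.Agent.TH104.BF.good_types hB (M := M) (V := Fin r × (G ⧸ N))
    (fun i => i.1) (by
      rw [Fintype.card_prod, Fintype.card_fin, ← Nat.card_eq_fintype_card]
      exact le_rfl)
    (by
      rintro ⟨c, x'⟩
      obtain ⟨x, rfl⟩ := QuotientAddGroup.mk_surjective x'
      refine le_trans ?_ (deg_ncard hdeg (c, x))
      rw [← Nat.card_coe_set_eq]
      have hfin : Finite {A | A ∈ F ∧ (c, x) ∈ A} := (deg_fin hdeg (c, x)).to_subtype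
      refine Nat.card_le_card_of_surjective
        (fun B : {A // A ∈ F ∧ (c, x) ∈ A} =>
          (⟨⟨B.1.image pV, ⟨B.1, B.2.1, rfl⟩⟩, Finset.mem_image.mpr ⟨(c, x), B.2.2, rfl⟩⟩ :
            {i : M // ((c, QuotientAddGroup.mk x) : Fin r × (G ⧸ N)) ∈ i.1})) ?_
      rintro ⟨⟨A', A, hA, rfl⟩, hmem⟩
      obtain ⟨⟨c', y⟩, hy, hyx⟩ := Finset.mem_image.mp hmem
      have hc : c' = c := congrArg Prod.fst hyx
      subst hc
      have hyx2 : (QuotientAddGroup.mk x : G ⧸ N) = QuotientAddGroup.mk y :=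
        (congrArg Prod.snd hyx).symm
      have hn : x - y ∈ N := (hmk x y).mp hyx2
      refine ⟨⟨shift (x - y) A, hinv _ A hA, ?_⟩, ?_⟩
      · rw [mem_shift]
        have : -(x - y) + x = y := by
          rw [neg_sub, sub_eq_add_neg, add_assoc, neg_add_cancel, add_zero]
        rw [this]; exact hy
      · apply Subtype.ext
        apply Subtype.ext
        change (shift (x - y) A).image pV = A.image pV
        have hkey : ∀ (d : Fin r) (z : G), pV (d, (x - y) + z) = pV (d, z) := by
          intro d z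
          change (d, (QuotientAddGroup.mk ((x - y) + z) : G ⧸ N)) = (d, QuotientAddGroup.mk z)
          congr 1
          rw [hmk]
          have : (x - y) + z - z = x - y := by rw [add_sub_cancel_right]
          rw [this]; exact hn
        ext q
        rw [Finset.mem_image, Finset.mem_image]
        constructor
        · rintro ⟨⟨d, z⟩, hz, rfl⟩
          rw [mem_shift] at hz
          refine ⟨(d, -(x - y) + z), hz, ?_⟩
          rw [← hkey, add_neg_cancel_left]
        · rintro ⟨⟨d, z⟩, hz, rfl⟩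
          exact ⟨(d, (x - y) + z), mem_shift'.mpr hz, hkey d z⟩)
    (by
      rintro ⟨A', A, hA, rfl⟩
      exact Finset.card_image_le.trans (hs A hA))
  refine ⟨fun q => χ (pV q), fun q => h1 _, fun A hA => ?_⟩
  have h3 := h2 ⟨A.image pV, A, hA, rfl⟩
  rw [Finset.sum_image (fun x hx y hy h => hinj A hA hx hy h)] at h3
  exact h3

end Pool.Agent.X157.BFInf
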