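import Pool.Agent.X157.BFInf
import Pool.Agent.TH104.BF.Num
import Pool.Agent.Results.MP_e8ee11_co.BeckFialaIterFree

/-!
# Translation invariant set systems: the bounds
-/

namespace Pool.Agent.X157.BFInf

open Finset MulAction

lemma int_signs {V : Type} (ε : V → ℝ) (hε : ∀ q, ε q = 1 ∨ ε q = -1) :
    ∃ χ : V → ℤ, (∀ q, χ q = 1 ∨ χ q = -1) ∧ ∀ q, ((χ q : ℤ) : ℝ) = ε q := by
  classical
  refine ⟨fun q => if ε q = 1 then 1 else -1, fun q => ?_, fun q => ?_⟩
  · by_cases h : ε q = 1
    · left; exact if_pos h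
    · right; exact if_neg h
  · by_cases h : ε q = 1
    · change ((if ε q = 1 then 1 else -1 : ℤ) : ℝ) = ε q
      rw [if_pos h, h, Int.cast_one]
    · have h2 := (hε q).resolve_left h
      change ((if ε q = 1 then 1 else -1 : ℤ) : ℝ) = ε q
      rw [if_neg h, h2, Int.cast_neg, Int.cast_one]

theorem sqrt_bound {G : Type} [AddCommGroup G] (htf : TorsionFree G) {r : ℕ}
    {F : Set (Finset (Fin r × G))} (hinv : Invariant F) {t : ℕ} (ht : 1 ≤ t)
    (hdeg : DegreeLE F t) :
    ∃ χ : Fin r × G → ℤ, (∀ q, χ q = 1 ∨ χ q = -1) ∧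
      ∀ A ∈ F, ((|∑ q ∈ A, χ q| : ℤ) : ℝ) ≤ 2 ^ 666 * Real.sqrt (r * t) := by
  classical
  let P := Fin r × G
  let D := {A : Finset (Fin r × G) // A ∈ F ∧ A.Nonempty}
  let iP : MulAction (Multiplicative G) P :=
    { smul := fun a q => (q.1, Multiplicative.toAdd a + q.2)
      one_smul := fun q => by
        change (q.1, (0 : G) + q.2) = q
        rw [zero_add]
      mul_smul := fun a b q => by
        change (q.1, (Multiplicative.toAdd a + Multiplicative.toAdd b) + q.2) =
          (q.1, Multiplicative.toAdd a + (Multiplicative.toAdd b + q.2))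
        rw [add_assoc] }
  let iD : MulAction (Multiplicative G) D :=
    { smul := fun a A => ⟨shift (Multiplicative.toAdd a) A.1, hinv _ _ A.2.1, shift_nonempty A.2.2⟩
      one_smul := fun A => Subtype.ext (shift_zero A.1)
      mul_smul := fun a b A => Subtype.ext (shift_shift _ _ A.1).symm }
  have hsmulP : ∀ (a : Multiplicative G) (q : P), a • q = (q.1, Multiplicative.toAdd a + q.2) :=
    fun a q => rfl
  have hsmulD : ∀ (a : Multiplicative G) (A : D), (a • A).1 = shift (Multiplicative.toAdd a) A.1 :=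
    fun a A => rfl
  have hsurj : Function.Surjective
      (fun c : Fin r => (Quotient.mk'' ((c, (0 : G)) : P) : orbitRel.Quotient (Multiplicative G) P)) := by
    intro q
    induction q using Quotient.inductionOn' with
    | h q =>
      refine ⟨q.1, ?_⟩
      apply Quotient.sound'
      rw [orbitRel_apply]
      refine ⟨Multiplicative.ofAdd (-q.2), ?_⟩
      change (q.1, -q.2 + q.2) = (q.1, 0)
      rw [neg_add_cancel]
  have hfin : Finite (orbitRel.Quotient (Multiplicative G) P) := Finite.of_surjective _ hsurj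
  have hcard : Nat.card (orbitRel.Quotient (Multiplicative G) P) ≤ r := by
    have := Nat.card_le_card_of_surjective _ hsurj
    simpa using this
  have htR : (1 : ℝ) ≤ t := by exact_mod_cast ht
  have ht0 : (0 : ℝ) < t := by linarith
  have hst : 0 < Real.sqrt t := Real.sqrt_pos.mpr ht0
  have hgood : Pool.Agent.X157.KInf.Good (Additive (Multiplicative G)) :=
    Or.inl fun n a hn ha => htf n (Multiplicative.toAdd (Additive.toMul a)) hn ha
  let v : P → D → ℝ := fun q A => if q ∈ A.1 then 1 / Real.sqrt t else 0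
  have hfinD : ∀ q : P, {A : D | q ∈ A.1}.Finite := by
    intro q
    have h1 := deg_fin hdeg q
    refine Set.Finite.of_finite_image (f := Subtype.val) (h1.subset ?_)
      (fun x _ y _ h => Subtype.ext h)
    rintro _ ⟨A, hA, rfl⟩
    exact ⟨A.2.1, hA⟩
  have hcardD : ∀ q : P, ((hfinD q).toFinset.card : ℝ) ≤ t := by
    intro q
    have h1 := deg_ncard hdeg q
    have h2 : (hfinD q).toFinset.card ≤ t := by
      refine le_trans ?_ h1
      rw [← Set.ncard_eq_toFinset_card _ (hfinD q)]
      refine Set.ncard_le_ncard_of_injOn (Subtype.val) ?_ (fun x _ y _ h => Subtype.ext h)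
        (deg_fin hdeg q)
      intro A hA
      exact ⟨A.2.1, hA⟩
    exact_mod_cast h2
  obtain ⟨ε, hε, hb⟩ := Pool.Agent.X157.KInf.action_inf (Multiplicative G) D P hgood v
    (fun a A h => by
      have h1 : shift (Multiplicative.toAdd a) A.1 = A.1 := congrArg Subtype.val h
      have h2 := free htf A.2.2 h1
      exact Multiplicative.toAdd.injective h2)
    (fun a q h => by
      have h1 : Multiplicative.toAdd a + q.2 = q.2 := congrArg Prod.snd h
      have h2 := add_eq_right.mp h1
      exact Multiplicative.toAdd.injective h2)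
    (fun a q A => by
      change (if a • q ∈ (a • A).1 then 1 / Real.sqrt t else 0) = _
      rw [hsmulP, hsmulD]
      have : ((q.1, Multiplicative.toAdd a + q.2) ∈ shift (Multiplicative.toAdd a) A.1) ↔
          q ∈ A.1 := mem_shift'
      simp only [this]
      rfl)
    (fun q => by
      refine summable_of_hasFiniteSupport ?_
      refine (hfinD q).subset ?_
      intro A hA
      by_contra hne
      apply hA
      have : q ∉ A.1 := hne
      change |if q ∈ A.1 then 1 / Real.sqrt t else 0| = 0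
      rw [if_neg this, abs_zero])
    (fun q => by
      rw [tsum_eq_sum (s := (hfinD q).toFinset)]
      · have h1 : ∀ A ∈ (hfinD q).toFinset, v q A ^ 2 = 1 / t := by
          intro A hA
          have hA' : q ∈ A.1 := (hfinD q).mem_toFinset.mp hA
          change (if q ∈ A.1 then 1 / Real.sqrt t else 0) ^ 2 = _
          rw [if_pos hA', div_pow, one_pow, Real.sq_sqrt ht0.le]
        rw [Finset.sum_congr rfl h1, Finset.sum_const, nsmul_eq_mul, mul_one_div,
          div_le_one ht0]
        exact hcardD q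
      · intro A hA
        have hA' : q ∉ A.1 := fun h => hA ((hfinD q).mem_toFinset.mpr h)
        change (if q ∈ A.1 then 1 / Real.sqrt t else 0) ^ 2 = 0
        rw [if_neg hA']
        norm_num)
  obtain ⟨χ, hχ, hχε⟩ := int_signs ε hε
  refine ⟨χ, hχ, fun A hA => ?_⟩
  rcases A.eq_empty_or_nonempty with hAe | hAn
  · rw [hAe]
    simp only [Finset.sum_empty, abs_zero, Int.cast_zero]
    positivity
  · have h1 := (hb ⟨A, hA, hAn⟩).2
    rw [tsum_eq_sum (s := A)] at h1
    · have h2 : ∑ q ∈ A, ε q * v q ⟨A, hA, hAn⟩ = (∑ q ∈ A, ε q) / Real.sqrt t := by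
        rw [Finset.sum_div]
        refine Finset.sum_congr rfl fun q hq => ?_
        change ε q * (if q ∈ A then 1 / Real.sqrt t else 0) = _
        rw [if_pos hq, mul_one_div]
      rw [h2, abs_div, abs_of_pos hst, div_le_iff₀ hst] at h1
      have h3 : ((|∑ q ∈ A, χ q| : ℤ) : ℝ) = |∑ q ∈ A, ε q| := by
        push_cast
        simp_rw [hχε]
      rw [h3]
      refine h1.trans ?_
      rw [Real.sqrt_mul (Nat.cast_nonneg r), mul_assoc]
      refine mul_le_mul_of_nonneg_left ?_ (by positivity)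
      refine mul_le_mul_of_nonneg_right ?_ hst.le
      exact Real.sqrt_le_sqrt (by exact_mod_cast hcard)
    · intro q hq
      change ε q * (if q ∈ A then 1 / Real.sqrt t else 0) = 0
      rw [if_neg hq, mul_zero]

/-- the bound with iterated logarithms -/
theorem iter_bound : ∃ C : ℝ, ∀ (G : Type) [AddGroup G] (r t e : ℕ)
    (F : Set (Finset (Fin r × G))), Free F → Invariant F → 1 ≤ t → DegreeLE F t → 1 ≤ e →
    (∀ A ∈ F, ∀ (c : Fin r) (x y : G), (c, x) ∈ A → (c, y) ∈ A → x ≠ y →
      ∃ N : AddSubgroup G, N.Normal ∧ 0 < N.index ∧ N.index ≤ e ∧ x - y ∉ N) →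
    ∀ k : ℕ, 1 ≤ k → ∃ χ : Fin r × G → ℤ, (∀ q, χ q = 1 ∨ χ q = -1) ∧
      ∀ A ∈ F, ((|∑ q ∈ A, χ q| : ℤ) : ℝ) ≤
        C * (k * (Real.sqrt t + (1 + Real.log t) ^ 2 * Real.sqrt (Real.log r)) +
          (1 + Real.log t) ^ (3 / 2 : ℝ) *
            Real.sqrt ((fun x : ℝ => Real.log (1 + x))^[k] (Real.log e))) := by
  obtain ⟨C, hC⟩ := Pool.Agent.Results.MP_e8ee11_co.BeckFialaIterFree.result
  refine ⟨1000 * |C|, ?_⟩
  intro G _ r t e F hfree hinv ht hdeg he hres k hk
  rcases Nat.eq_zero_or_pos r with hr0 | hr0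
  · subst hr0
    refine ⟨fun _ => 1, fun _ => Or.inl rfl, fun A hA => ?_⟩
    have h1 : A = ∅ := Finset.eq_empty_of_isEmpty _
    rw [h1]
    simp only [Finset.sum_empty, abs_zero, Int.cast_zero]
    have htR : (1 : ℝ) ≤ t := by exact_mod_cast ht
    have hlt : 0 ≤ Real.log (t : ℝ) := Real.log_nonneg htR
    have hp0 : 0 ≤ (1 + Real.log (t : ℝ)) ^ (3 / 2 : ℝ) := Real.rpow_nonneg (by linarith) _
    positivity
  · obtain ⟨N, hN, hN0, hNe, hsep⟩ := exists_normal hfree hinv hdeg e he hres
    refine quot hinv hdeg (r * t) (fun A hA => size_le hfree hinv hdeg hA) N hN hN0 hsep _ ?_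
    intro m n S' hn hd hsz
    obtain ⟨⟨χ, h1, h2⟩, -⟩ := hC m n t (r * t) ht (Nat.mul_pos hr0 ht) S' hd hsz k
      (fun _ => 0) (by simp)
    refine ⟨χ, h1, fun i => ?_⟩
    have h3 := h2 i
    simp only [sub_zero] at h3
    have h4 : ((|∑ x ∈ S' i, χ x| : ℤ) : ℝ) = |∑ x ∈ S' i, (χ x : ℝ)| := by push_cast; rfl
    rw [h4]
    refine h3.trans ?_
    exact Pool.Agent.TH104.BF.final C r t e k hr0 ht he hk ((min m n : ℕ) : ℝ)
      (Nat.cast_nonneg _) (by
        exact_mod_cast (Nat.min_le_right m n).trans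
          (hn.trans (Nat.mul_le_mul_left r hNe)))

/-- separation in `ℤ^d` -/
lemma zd_sep (d D : ℕ) (x y : Fin d → ℤ) (h : ∀ k, |x k - y k| ≤ D) (hne : x ≠ y) :
    ∃ N : AddSubgroup (Fin d → ℤ), N.Normal ∧ 0 < N.index ∧ N.index ≤ D + 1 ∧ x - y ∉ N := by
  obtain ⟨k, hk⟩ := Function.ne_iff.mp hne
  let f : (Fin d → ℤ) →+ ZMod (D + 1) :=
    { toFun := fun z => ((z k : ℤ) : ZMod (D + 1))
      map_zero' := by simp
      map_add' := fun a b => by simp }
  refine ⟨f.ker, inferInstance, ?_, ?_, ?_⟩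
  · rw [AddSubgroup.index_ker]
    exact Nat.card_pos
  · rw [AddSubgroup.index_ker]
    have h1 := Nat.card_le_card_of_injective (fun z : f.range => (z : ZMod (D + 1)))
      Subtype.val_injective
    simpa using h1
  · intro hmem
    have h1 : f (x - y) = 0 := hmem
    have h2 : (((x k - y k : ℤ)) : ZMod (D + 1)) = 0 := h1
    rw [ZMod.intCast_zmod_eq_zero_iff_dvd] at h2
    have h3 := Int.eq_zero_of_abs_lt_dvd h2 (by
      have := h k
      push_cast
      omega)
    exact hk (by omega)

end Pool.Agent.X157.BFInf
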