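import Pool.Agent.X157.Join

set_option autoImplicit false

/-! Integral certificates for polytopes in any dimension. -/

namespace Pool.Agent.X157.Cert

open Set Pool.Agent.X157.CP Pool.Agent.X157.HRep Pool.Agent.X157.Join

/-- scalar product of integral vectors (as lists) -/
def dotZ : List ℤ → List ℤ → ℤ
  | a :: as, b :: bs => a * b + dotZ as bs
  | _, _ => 0

/-- the real vector -/
def toR (n : ℕ) (l : List ℤ) : Fin n → ℝ := fun i => ((l.getD i 0 : ℤ) : ℝ)

/-- the functional of an integral vector -/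
noncomputable def lin (n : ℕ) (l : List ℤ) : StrongDual ℝ (Fin n → ℝ) :=
  LinearMap.toContinuousLinearMap
    { toFun := fun x => ∑ i, toR n l i * x i
      map_add' := fun x y => by
        rw [← Finset.sum_add_distrib]
        exact Finset.sum_congr rfl fun i _ => by rw [Pi.add_apply, mul_add]
      map_smul' := fun r x => by
        rw [RingHom.id_apply, smul_eq_mul, Finset.mul_sum]
        exact Finset.sum_congr rfl fun i _ => by rw [Pi.smul_apply, smul_eq_mul]; ring }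

lemma lin_apply (n : ℕ) (l : List ℤ) (x : Fin n → ℝ) : lin n l x = ∑ i, toR n l i * x i := rfl

lemma lin_toR (n : ℕ) (a b : List ℤ) (ha : a.length ≤ n) (hb : b.length ≤ n) :
    lin n a (toR n b) = (dotZ a b : ℝ) := by
  rw [lin_apply]
  induction n generalizing a b with
  | zero =>
    have ha' : a = [] := by rw [← List.length_eq_zero_iff]; omega
    subst ha'
    simp [dotZ]
  | succ n ih =>
    rw [Fin.sum_univ_succ]
    cases a with
    | nil => simp [dotZ, toR]
    | cons x as =>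
      cases b with
      | nil => simp [dotZ, toR]
      | cons y bs =>
        have h1 : ∀ i : Fin n, toR (n + 1) (x :: as) i.succ = toR n as i := fun i => rfl
        have h2 : ∀ i : Fin n, toR (n + 1) (y :: bs) i.succ = toR n bs i := fun i => rfl
        simp only [h1, h2]
        rw [ih as bs (by simpa using ha) (by simpa using hb)]
        show ((x : ℤ) : ℝ) * ((y : ℤ) : ℝ) + _ = _
        rw [dotZ]
        push_cast
        rfl

/-- biorthogonal families are independent -/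
lemma li_of_biorth {E : Type*} [NormedAddCommGroup E] [NormedSpace ℝ E] {ι : Type*}
    [Fintype ι] (f : ι → E) (g : ι → StrongDual ℝ E) (h1 : ∀ i j, i ≠ j → g i (f j) = 0)
    (h2 : ∀ i, g i (f i) ≠ 0) : LinearIndependent ℝ f := by
  rw [Fintype.linearIndependent_iff]
  intro c hc i
  have h := congrArg (g i) hc
  rw [map_sum, map_zero, Finset.sum_eq_single i] at h
  · rw [map_smul, smul_eq_mul] at h
    rcases mul_eq_zero.mp h with h3 | h3
    · exact h3
    · exact absurd h3 (h2 i)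
  · intro j _ hj
    rw [map_smul, h1 i j (Ne.symm hj), smul_zero]
  · intro h3
    exact absurd (Finset.mem_univ i) h3

lemma le_dim {E : Type*} [NormedAddCommGroup E] [NormedSpace ℝ E] [FiniteDimensional ℝ E]
    {k : ℕ} {S : Set E} {x0 : E} (h0 : x0 ∈ S) (x : Fin k → E) (hx : ∀ i, x i ∈ S)
    (hli : LinearIndependent ℝ fun i => x i - x0) : k ≤ dim S := by
  have h1 : Module.finrank ℝ (Submodule.span ℝ (range fun i => x i - x0)) = k := by
    rw [finrank_span_eq_card hli, Fintype.card_fin]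
  rw [← h1]
  apply Submodule.finrank_mono
  rw [Submodule.span_le]
  rintro _ ⟨i, rfl⟩
  exact vsub_mem_vectorSpan ℝ (hx i) h0

/-- the hull of a list of integral points -/
def hullL (n : ℕ) (V : List (List ℤ)) : Set (Fin n → ℝ) := convexHull ℝ {x | ∃ v ∈ V, x = toR n v}

lemma mem_hullL {n : ℕ} {V : List (List ℤ)} {v : List ℤ} (hv : v ∈ V) : toR n v ∈ hullL n V :=
  subset_convexHull ℝ _ ⟨v, hv, rfl⟩

lemma hullL_le {n : ℕ} {V : List (List ℤ)} (hV : ∀ v ∈ V, v.length ≤ n) {g : List ℤ}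
    (hg : g.length ≤ n) {c : ℤ} (h : ∀ v ∈ V, dotZ g v ≤ c) {x : Fin n → ℝ}
    (hx : x ∈ hullL n V) : lin n g x ≤ (c : ℝ) := by
  apply le_of_mem_hull _ hx
  rintro _ ⟨v, hv, rfl⟩
  rw [lin_toR n g v hg (hV v hv)]
  exact_mod_cast h v hv

lemma isPoly_hullL {n : ℕ} {V : List (List ℤ)} (hV : V ≠ []) : IsPoly (hullL n V) := by
  obtain ⟨v, hv⟩ := List.exists_mem_of_ne_nil V hV
  refine ⟨⟨_, mem_hullL hv⟩, _, ?_, rfl⟩
  have : {x : Fin n → ℝ | ∃ v ∈ V, x = toR n v} = toR n '' {v | v ∈ V} := by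
    ext x
    constructor
    · rintro ⟨v, hv, rfl⟩; exact ⟨v, hv, rfl⟩
    · rintro ⟨v, hv, rfl⟩; exact ⟨v, hv, rfl⟩
  rw [this]
  exact (List.finite_toSet V).image _

/-- vertex certificate -/
lemma extreme_hullL {n : ℕ} {V : List (List ℤ)} (hV : ∀ v ∈ V, v.length ≤ n) {v g : List ℤ}
    (hv : v ∈ V) (hg : g.length ≤ n) (h : ∀ u ∈ V, u = v ∨ dotZ g u < dotZ g v) :
    toR n v ∈ (hullL n V).extremePoints ℝ := by
  apply exposedPoints_subset_extremePoints
  refine ⟨mem_hullL hv, lin n g, ?_⟩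
  have hle : ∀ u ∈ {x | ∃ v ∈ V, x = toR n v}, lin n g u ≤ lin n g (toR n v) := by
    rintro _ ⟨u, hu, rfl⟩
    rw [lin_toR n g v hg (hV v hv), lin_toR n g u hg (hV u hu)]
    rcases h u hu with rfl | h1
    · exact le_rfl
    · exact_mod_cast h1.le
  intro y hy
  refine ⟨le_of_mem_hull hle hy, fun hge => ?_⟩
  have h1 : y ∈ {x | x ∈ convexHull ℝ {x | ∃ v ∈ V, x = toR n v} ∧
      lin n g x = lin n g (toR n v)} := ⟨hy, le_antisymm (le_of_mem_hull hle hy) hge⟩
  rw [face_eq _ _ hle] at h1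
  have h2 : {u | u ∈ {x | ∃ v ∈ V, x = toR n v} ∧ lin n g u = lin n g (toR n v)} ⊆ {toR n v} := by
    rintro _ ⟨⟨u, hu, rfl⟩, h3⟩
    rcases h u hu with rfl | h4
    · rfl
    · exfalso
      rw [lin_toR n g v hg (hV v hv), lin_toR n g u hg (hV u hu)] at h3
      have : (dotZ g u : ℝ) < dotZ g v := by exact_mod_cast h4
      exact absurd h3 this.ne
  have h3 := convexHull_mono h2 h1
  rw [convexHull_singleton] at h3
  exact h3

/-- facet certificate: affinely independent vertices with dual functionals -/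
def chkFacet (n : ℕ) (V : List (List ℤ)) (e : (List ℤ × ℤ) × List ℤ × List (List ℤ × List ℤ)) :
    Bool :=
  e.1.1.length == n && e.2.2.length + 1 == n && V.contains e.2.1 && dotZ e.1.1 e.2.1 == e.1.2 &&
  V.all (fun v => dotZ e.1.1 v ≤ e.1.2) && V.any (fun v => dotZ e.1.1 v < e.1.2) &&
  (List.finRange e.2.2.length).all fun i =>
    (e.2.2.get i).2.length == n && V.contains (e.2.2.get i).1 &&
    dotZ e.1.1 (e.2.2.get i).1 == e.1.2 &&
    (List.finRange e.2.2.length).all fun j =>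
      if i = j then dotZ (e.2.2.get i).2 (e.2.2.get j).1 - dotZ (e.2.2.get i).2 e.2.1 != 0
      else dotZ (e.2.2.get i).2 (e.2.2.get j).1 - dotZ (e.2.2.get i).2 e.2.1 == 0

lemma dim_le_n {n : ℕ} (S : Set (Fin n → ℝ)) : dim S ≤ n := by
  have := Submodule.finrank_le (vectorSpan ℝ S)
  rw [Module.finrank_fin_fun] at this
  exact this

theorem facet_cert {n : ℕ} {V : List (List ℤ)} (hV : ∀ v ∈ V, v.length ≤ n)
    {e : (List ℤ × ℤ) × List ℤ × List (List ℤ × List ℤ)} (he : chkFacet n V e = true) :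
    (∀ v ∈ V, dotZ e.1.1 v ≤ e.1.2) ∧ dim (hullL n V) = n ∧
    IsExposed ℝ (hullL n V) {x | x ∈ hullL n V ∧ lin n e.1.1 x = (e.1.2 : ℝ)} ∧
    {x | x ∈ hullL n V ∧ lin n e.1.1 x = (e.1.2 : ℝ)}.Nonempty ∧
    dim {x | x ∈ hullL n V ∧ lin n e.1.1 x = (e.1.2 : ℝ)} + 1 = n := by
  unfold chkFacet at he
  simp only [Bool.and_eq_true, List.all_eq_true, List.any_eq_true, beq_iff_eq, decide_eq_true_eq,
    List.contains_iff_mem, List.mem_finRange, true_imp_iff] at he
  obtain ⟨⟨⟨⟨⟨⟨h1, h2⟩, h3⟩, h4⟩, h5⟩, p, hp, hps⟩, h6⟩ := he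
  have hle : ∀ x ∈ hullL n V, lin n e.1.1 x ≤ (e.1.2 : ℝ) := fun x hx =>
    hullL_le hV h1.le h5 hx
  have h0 : toR n e.2.1 ∈ {x | x ∈ hullL n V ∧ lin n e.1.1 x = (e.1.2 : ℝ)} := by
    refine ⟨mem_hullL h3, ?_⟩
    rw [lin_toR n _ _ h1.le (hV _ h3), h4]
  have hk : e.2.2.length ≤ dim {x | x ∈ hullL n V ∧ lin n e.1.1 x = (e.1.2 : ℝ)} := by
    apply le_dim h0 (fun i : Fin e.2.2.length => toR n (e.2.2.get i).1)
    · intro i
      obtain ⟨⟨⟨h7, h8⟩, h9⟩, _⟩ := h6 i
      refine ⟨mem_hullL h8, ?_⟩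
      rw [lin_toR n _ _ h1.le (hV _ h8), h9]
    · apply li_of_biorth _ (fun i => lin n (e.2.2.get i).2)
      · intro i j hij
        obtain ⟨⟨⟨h7, h8⟩, h9⟩, h10⟩ := h6 i
        obtain ⟨⟨⟨_, h8'⟩, _⟩, _⟩ := h6 j
        have h11 := h10 j
        rw [if_neg hij] at h11
        rw [map_sub, lin_toR n _ _ h7.le (hV _ h8'), lin_toR n _ _ h7.le (hV _ h3)]
        have h12 := beq_iff_eq.mp h11
        exact_mod_cast h12
      · intro i
        obtain ⟨⟨⟨h7, h8⟩, h9⟩, h10⟩ := h6 i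
        have h11 := h10 i
        rw [if_pos rfl] at h11
        rw [map_sub, lin_toR n _ _ h7.le (hV _ h8), lin_toR n _ _ h7.le (hV _ h3)]
        have h12 := bne_iff_ne.mp h11
        exact_mod_cast h12
  have hne : {x | x ∈ hullL n V ∧ lin n e.1.1 x = (e.1.2 : ℝ)} ≠ hullL n V := by
    intro h
    have h7 : toR n p ∈ hullL n V := mem_hullL hp
    rw [← h] at h7
    have h8 := h7.2
    rw [lin_toR n _ _ h1.le (hV _ hp)] at h8
    have : (dotZ e.1.1 p : ℝ) < e.1.2 := by exact_mod_cast hps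
    exact absurd h8 this.ne
  have h7 := dim_lt (face_of_le hle) ⟨_, h0⟩ hne
  have h8 := dim_le_n (hullL n V)
  refine ⟨h5, by omega, face_of_le hle, ⟨_, h0⟩, by omega⟩

end Pool.Agent.X157.Cert
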