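import Pool.Agent.X157.CP

set_option autoImplicit false

/-! Facets of 3-dimensional polytopes. -/

namespace Pool.Agent.X157.Facets

open Set Matrix Pool.Agent.X157.CP

abbrev R3 := Fin 3 → ℝ

/-- a convex 3-polytope in 3-space -/
def IsPoly3 (P : Set R3) : Prop :=
  (∃ S : Set R3, S.Finite ∧ P = convexHull ℝ S) ∧ (interior P).Nonempty

/-- the set of facets: exposed subsets of dimension two -/
def facets (P : Set R3) : Set (Set R3) :=
  {F | IsExposed ℝ P F ∧ Module.finrank ℝ (vectorSpan ℝ F) = 2}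

/-- the functional `x ↦ n ⬝ x` -/
noncomputable def dotL (n : R3) : StrongDual ℝ R3 :=
  LinearMap.toContinuousLinearMap
    { toFun := fun x => n ⬝ᵥ x
      map_add' := fun x y => dotProduct_add n x y
      map_smul' := fun r x => by rw [dotProduct_smul]; rfl }

lemma dotL_apply (n x : R3) : dotL n x = n ⬝ᵥ x := rfl

lemma exists_dot (l : StrongDual ℝ R3) : ∃ n : R3, ∀ x, l x = n ⬝ᵥ x := by
  refine ⟨fun i => l (Pi.single i 1), fun x => ?_⟩
  have h : x = ∑ i, x i • (Pi.single i (1 : ℝ) : R3) := by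
    funext j
    simp [Finset.sum_apply, Pi.single_apply]
  conv_lhs => rw [h]
  rw [map_sum]
  simp only [map_smul, smul_eq_mul, dotProduct]
  apply Finset.sum_congr rfl
  intro i _
  ring

lemma vectorSpan_hull (S : Set R3) : vectorSpan ℝ (convexHull ℝ S) = vectorSpan ℝ S := by
  rw [← direction_affineSpan, affineSpan_convexHull, direction_affineSpan]

lemma cross_ne_iff (a b : R3) (ha : a ≠ 0) : crossProduct a b = 0 ↔ ∃ t : ℝ, t • a = b := by
  constructor
  · intro h
    by_contra hcon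
    push Not at hcon
    exact (crossProduct_ne_zero_iff_linearIndependent.mpr
      ((LinearIndependent.pair_iff' ha).mpr hcon)) h
  · rintro ⟨t, rfl⟩
    rw [map_smul, cross_self, smul_zero]

/-- a set spanning a plane contains three non-collinear points -/
lemma exists_triple {S : Set R3} (h : Module.finrank ℝ (vectorSpan ℝ S) = 2) :
    ∃ a ∈ S, ∃ b ∈ S, ∃ c ∈ S, crossProduct (b - a) (c - a) ≠ 0 := by
  by_contra hcon
  push Not at hcon
  have hne : S.Nonempty := by
    rw [nonempty_iff_ne_empty]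
    rintro rfl
    rw [vectorSpan_empty, finrank_bot] at h
    omega
  obtain ⟨a, ha⟩ := hne
  have hcol : Collinear ℝ S := by
    rw [collinear_iff_of_mem ha]
    by_cases hall : ∀ b ∈ S, b = a
    · refine ⟨0, fun p hp => ⟨0, ?_⟩⟩
      rw [hall p hp]; simp
    · push Not at hall
      obtain ⟨b, hb, hba⟩ := hall
      refine ⟨b - a, fun p hp => ?_⟩
      obtain ⟨t, ht⟩ := (cross_ne_iff (b - a) (p - a) (sub_ne_zero.mpr hba)).mp (hcon a ha b hb p hp)
      refine ⟨t, ?_⟩
      rw [ht]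
      simp
  have := hcol.finrank_le_one
  omega

/-- three points in the kernel determine the functional up to scaling -/
lemma normal_unique {n u w : R3} (hu : n ⬝ᵥ u = 0) (hw : n ⬝ᵥ w = 0)
    (hm : crossProduct u w ≠ 0) : ∃ t : ℝ, t • crossProduct u w = n := by
  rw [← cross_ne_iff _ _ hm, cross_cross_eq_smul_sub_smul, dotProduct_comm u n, hu,
    dotProduct_comm w n, hw, zero_smul, zero_smul, sub_zero]

variable {V : Set R3}

/-- every facet of the hull of `V` is given by a functional and contains three non-collinear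
points of `V` -/
theorem facet_data {P : Set R3} (hP : P = convexHull ℝ V) {F : Set R3} (hF : F ∈ facets P) :
    ∃ (n : R3) (c : ℝ), (∀ x ∈ P, n ⬝ᵥ x ≤ c) ∧ F = {x | x ∈ P ∧ n ⬝ᵥ x = c} ∧
      ∃ x ∈ V, ∃ y ∈ V, ∃ z ∈ V, n ⬝ᵥ x = c ∧ n ⬝ᵥ y = c ∧ n ⬝ᵥ z = c ∧
        crossProduct (y - x) (z - x) ≠ 0 := by
  obtain ⟨hexp, hdim⟩ := hF
  have hne : F.Nonempty := by
    rw [nonempty_iff_ne_empty]
    rintro rfl
    rw [vectorSpan_empty, finrank_bot] at hdim
    omega
  obtain ⟨l, hl⟩ := hexp hne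
  obtain ⟨n, hn⟩ := exists_dot l
  obtain ⟨x0, hx0⟩ := hne
  rw [hl] at hx0
  have hle : ∀ x ∈ P, n ⬝ᵥ x ≤ n ⬝ᵥ x0 := by
    intro x hx
    rw [← hn, ← hn]
    exact hx0.2 x hx
  have hF2 : F = {x | x ∈ P ∧ n ⬝ᵥ x = n ⬝ᵥ x0} := by
    rw [hl]
    ext x
    constructor
    · rintro ⟨h1, h2⟩
      refine ⟨h1, le_antisymm (hle x h1) ?_⟩
      rw [← hn, ← hn]
      exact h2 x0 hx0.1
    · rintro ⟨h1, h2⟩
      refine ⟨h1, fun y hy => ?_⟩
      rw [hn, hn, h2]
      exact hle y hy
  refine ⟨n, n ⬝ᵥ x0, hle, hF2, ?_⟩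
  have hV : V ⊆ P := by rw [hP]; exact subset_convexHull ℝ V
  have hface := face_eq (S := V) (dotL n) (n ⬝ᵥ x0) (fun u hu => hle u (hV hu))
  have hF3 : F = convexHull ℝ {u | u ∈ V ∧ dotL n u = n ⬝ᵥ x0} := by
    rw [← hface, hF2, hP]; rfl
  rw [hF3, vectorSpan_hull] at hdim
  obtain ⟨a, ha, b, hb, c, hc, habc⟩ := exists_triple hdim
  exact ⟨a, ha.1, b, hb.1, c, hc.1, ha.2, hb.2, hc.2, habc⟩

lemma finrank_ker_dot {n : R3} (hn : n ≠ 0) :
    Module.finrank ℝ (LinearMap.ker (dotL n : R3 →ₗ[ℝ] ℝ)) = 2 := by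
  have h1 := LinearMap.finrank_range_add_finrank_ker (dotL n : R3 →ₗ[ℝ] ℝ)
  have h2 : LinearMap.range (dotL n : R3 →ₗ[ℝ] ℝ) = ⊤ := by
    rw [LinearMap.range_eq_top]
    have h3 : n ⬝ᵥ n ≠ 0 := by
      rw [Ne, dotProduct_self_eq_zero]; exact hn
    intro r
    refine ⟨(r / (n ⬝ᵥ n)) • n, ?_⟩
    show n ⬝ᵥ ((r / (n ⬝ᵥ n)) • n) = r
    rw [dotProduct_smul, smul_eq_mul, div_mul_cancel₀ _ h3]
  rw [h2, finrank_top, Module.finrank_self, Module.finrank_fin_fun] at h1
  omega

/-- a criterion for facets -/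
theorem facet_of {P : Set R3} {n : R3} (hn : n ≠ 0) {c : ℝ}
    (hle : ∀ x ∈ P, n ⬝ᵥ x ≤ c) {x y z : R3} (hx : x ∈ P) (hy : y ∈ P) (hz : z ∈ P)
    (hxc : n ⬝ᵥ x = c) (hyc : n ⬝ᵥ y = c) (hzc : n ⬝ᵥ z = c)
    (hcr : crossProduct (y - x) (z - x) ≠ 0) : {x | x ∈ P ∧ n ⬝ᵥ x = c} ∈ facets P := by
  refine ⟨?_, ?_⟩
  · intro _
    refine ⟨dotL n, ?_⟩
    ext w
    constructor
    · rintro ⟨h1, h2⟩
      refine ⟨h1, fun y hy => ?_⟩
      rw [dotL_apply, dotL_apply, h2]
      exact hle y hy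
    · rintro ⟨h1, h2⟩
      refine ⟨h1, le_antisymm (hle w h1) ?_⟩
      rw [← hxc]
      exact h2 x hx
  · apply le_antisymm
    · rw [← finrank_ker_dot hn]
      apply Submodule.finrank_mono
      rw [vectorSpan_eq_span_vsub_set_right ℝ (show x ∈ {x | x ∈ P ∧ n ⬝ᵥ x = c} from ⟨hx, hxc⟩),
        Submodule.span_le]
      rintro _ ⟨w, ⟨_, hw⟩, rfl⟩
      show n ⬝ᵥ (w - x) = 0
      rw [dotProduct_sub, hw, hxc, sub_self]
    · have hli := crossProduct_ne_zero_iff_linearIndependent.mp hcr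
      have h1 : Module.finrank ℝ (Submodule.span ℝ (range ![y - x, z - x])) = 2 :=
        finrank_span_eq_card hli
      rw [← h1]
      apply Submodule.finrank_mono
      rw [Submodule.span_le]
      rintro _ ⟨i, rfl⟩
      fin_cases i
      · exact vsub_mem_vectorSpan ℝ (s := {x | x ∈ P ∧ n ⬝ᵥ x = c}) ⟨hy, hyc⟩ ⟨hx, hxc⟩
      · exact vsub_mem_vectorSpan ℝ (s := {x | x ∈ P ∧ n ⬝ᵥ x = c}) ⟨hz, hzc⟩ ⟨hx, hxc⟩

/-! ### Integral points -/

abbrev Z3 := ℤ × ℤ × ℤ

def dotZ (a b : Z3) : ℤ := a.1 * b.1 + a.2.1 * b.2.1 + a.2.2 * b.2.2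
def subZ (a b : Z3) : Z3 := (a.1 - b.1, a.2.1 - b.2.1, a.2.2 - b.2.2)
def crossZ (a b : Z3) : Z3 :=
  (a.2.1 * b.2.2 - a.2.2 * b.2.1, a.2.2 * b.1 - a.1 * b.2.2, a.1 * b.2.1 - a.2.1 * b.1)

/-- the real point of an integral point -/
def toR (a : Z3) : R3 := ![(a.1 : ℝ), (a.2.1 : ℝ), (a.2.2 : ℝ)]

lemma toR_dot (a b : Z3) : toR a ⬝ᵥ toR b = (dotZ a b : ℝ) := by
  simp [toR, dotZ, dotProduct, Fin.sum_univ_three]

lemma toR_sub (a b : Z3) : toR (subZ a b) = toR a - toR b := by
  funext i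
  fin_cases i <;> simp [toR, subZ]

lemma toR_cross (a b : Z3) : toR (crossZ a b) = crossProduct (toR a) (toR b) := by
  rw [cross_apply]
  funext i
  fin_cases i <;> simp [toR, crossZ]

lemma toR_eq_zero (a : Z3) : toR a = 0 ↔ a = (0, 0, 0) := by
  constructor
  · intro h
    have h0 := congrFun h 0
    have h1 := congrFun h 1
    have h2 := congrFun h 2
    simp [toR] at h0 h1 h2
    exact Prod.ext h0 (Prod.ext h1 h2)
  · rintro rfl
    funext i
    fin_cases i <;> simp [toR]

lemma toR_injective : Function.Injective toR := by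
  intro a b h
  have h1 : toR (subZ a b) = 0 := by rw [toR_sub, h, sub_self]
  rw [toR_eq_zero] at h1
  unfold subZ at h1
  simp only [Prod.mk.injEq] at h1
  exact Prod.ext (by omega) (Prod.ext (by omega) (by omega))

/-- the hull of a list of integral points -/
def hullZ (V : List Z3) : Set R3 := convexHull ℝ {x | ∃ v ∈ V, x = toR v}

/-- the face of a functional -/
def faceZ (V : List Z3) (m : Z3 × ℤ) : Set R3 :=
  {x | x ∈ hullZ V ∧ toR m.1 ⬝ᵥ x = (m.2 : ℝ)}

/-- the certificate for the list of facets -/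
structure FacetCert (V : List Z3) (M : List (Z3 × ℤ)) : Prop where
  le : ∀ m ∈ M, ∀ v ∈ V, dotZ m.1 v ≤ m.2
  two : ∀ m ∈ M, ∃ a ∈ V, ∃ b ∈ V, ∃ c ∈ V, dotZ m.1 a = m.2 ∧ dotZ m.1 b = m.2 ∧
    dotZ m.1 c = m.2 ∧ crossZ (subZ b a) (subZ c a) ≠ (0, 0, 0)
  strict : ∀ m ∈ M, ∃ p ∈ V, dotZ m.1 p < m.2
  all : ∀ a ∈ V, ∀ b ∈ V, ∀ c ∈ V, crossZ (subZ b a) (subZ c a) = (0, 0, 0) ∨
    ((∃ p ∈ V, 0 < dotZ (crossZ (subZ b a) (subZ c a)) (subZ p a)) ∧
      ∃ p ∈ V, dotZ (crossZ (subZ b a) (subZ c a)) (subZ p a) < 0) ∨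
    ∃ m ∈ M, crossZ m.1 (crossZ (subZ b a) (subZ c a)) = (0, 0, 0) ∧ dotZ m.1 a = m.2
  dist : M.Pairwise (fun m m' => ∃ v ∈ V, dotZ m.1 v = m.2 ∧ dotZ m'.1 v ≠ m'.2)

lemma mem_hullZ {V : List Z3} {v : Z3} (hv : v ∈ V) : toR v ∈ hullZ V :=
  subset_convexHull ℝ _ ⟨v, hv, rfl⟩

lemma hullZ_le {V : List Z3} {n : R3} {c : ℝ} (h : ∀ v ∈ V, n ⬝ᵥ toR v ≤ c) {x : R3}
    (hx : x ∈ hullZ V) : n ⬝ᵥ x ≤ c := by
  have := le_of_mem_hull (S := {x | ∃ v ∈ V, x = toR v}) (l := dotL n) (c := c)
    (by rintro _ ⟨v, hv, rfl⟩; exact h v hv) hx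
  exact this

theorem facets_hullZ {V : List Z3} {M : List (Z3 × ℤ)} (h : FacetCert V M) :
    facets (hullZ V) = faceZ V '' {m | m ∈ M} := by
  have hleR : ∀ m ∈ M, ∀ x ∈ hullZ V, toR m.1 ⬝ᵥ x ≤ (m.2 : ℝ) := by
    intro m hm x hx
    apply hullZ_le _ hx
    intro v hv
    rw [toR_dot]
    exact_mod_cast h.le m hm v hv
  have hmne : ∀ m ∈ M, toR m.1 ≠ 0 := by
    intro m hm h0
    obtain ⟨a, ha, _, _, _, _, h1, _⟩ := h.two m hm
    obtain ⟨p, hp, h2⟩ := h.strict m hm
    rw [toR_eq_zero] at h0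
    rw [h0] at h1 h2
    simp [dotZ] at h1 h2
    omega
  apply Subset.antisymm
  · intro F hF
    obtain ⟨n, c, hle, hFe, x, ⟨a, ha, rfl⟩, y, ⟨b, hb, rfl⟩, z, ⟨d, hd, rfl⟩, hx, hy, hz, hcr⟩ :=
      facet_data (V := {x | ∃ v ∈ V, x = toR v}) (P := hullZ V) rfl hF
    rw [← toR_sub, ← toR_sub, ← toR_cross] at hcr
    have hw0 : crossZ (subZ b a) (subZ d a) ≠ (0, 0, 0) := by
      intro he; exact hcr ((toR_eq_zero _).mpr he)
    set w := crossZ (subZ b a) (subZ d a) with hw
    obtain ⟨t, ht⟩ : ∃ t : ℝ, t • toR w = n := by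
      rw [hw, toR_cross, toR_sub, toR_sub]
      apply normal_unique
      · rw [dotProduct_sub, hx, hy, sub_self]
      · rw [dotProduct_sub, hx, hz, sub_self]
      · rw [← toR_sub, ← toR_sub, ← toR_cross]; exact hcr
    -- the functional is not constant
    have hdotw : ∀ p ∈ V, t * (dotZ w (subZ p a) : ℝ) ≤ 0 := by
      intro p hp
      have h1 := hle (toR p) (mem_hullZ hp)
      rw [← hx, ← sub_nonpos, ← dotProduct_sub, ← toR_sub, ← ht, smul_dotProduct, toR_dot,
        smul_eq_mul] at h1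
      exact h1
    rcases h.all a ha b hb d hd with h1 | ⟨⟨p, hp, h1⟩, r, hr, h2⟩ | ⟨m, hm, h1, h2⟩
    · exact absurd h1 hw0
    · -- then t = 0 and F is everything
      exfalso
      have h3 := hdotw p hp
      have h4 := hdotw r hr
      have h1' : (0 : ℝ) < (dotZ w (subZ p a) : ℝ) := by exact_mod_cast h1
      have h2' : (dotZ w (subZ r a) : ℝ) < 0 := by exact_mod_cast h2
      have ht0 : t = 0 := by
        rcases lt_trichotomy t 0 with ht' | ht' | ht'
        · nlinarith [mul_pos_of_neg_of_neg ht' h2']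
        · exact ht'
        · nlinarith [mul_pos ht' h1']
      -- all of the hull lies in the facet
      have hall : hullZ V ⊆ F := by
        intro x hx'
        rw [hFe]
        refine ⟨hx', ?_⟩
        rw [← hx, ← ht, ht0, zero_smul, zero_dotProduct, zero_dotProduct]
      have hdim := hF.2
      have h5 : Module.finrank ℝ (vectorSpan ℝ (hullZ V)) ≤ 2 := by
        rw [← hdim]; exact Submodule.finrank_mono (vectorSpan_mono ℝ hall)
      have h6 : vectorSpan ℝ (hullZ V) = ⊤ := by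
        rw [eq_top_iff]
        have hli : LinearIndependent ℝ ![toR (subZ b a), toR (subZ d a), toR (subZ p a)] := by
          have hdet : Matrix.det ![toR (subZ b a), toR (subZ d a), toR (subZ p a)] ≠ 0 := by
            rw [← triple_product_eq_det, triple_product_permutation,
              triple_product_permutation, ← toR_cross, toR_dot]
            have : dotZ (subZ p a) (crossZ (subZ b a) (subZ d a)) = dotZ w (subZ p a) := by
              rw [← hw]; unfold dotZ; ring
            rw [this]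
            exact ne_of_gt h1'
          exact Matrix.linearIndependent_rows_of_det_ne_zero hdet
        have hspan : Submodule.span ℝ (range ![toR (subZ b a), toR (subZ d a), toR (subZ p a)]) = ⊤ := by
          apply hli.span_eq_top_of_card_eq_finrank'
          simp
        rw [← hspan, Submodule.span_le]
        rintro _ ⟨i, rfl⟩
        fin_cases i
        · show toR (subZ b a) ∈ _
          rw [toR_sub]; exact vsub_mem_vectorSpan ℝ (mem_hullZ hb) (mem_hullZ ha)
        · show toR (subZ d a) ∈ _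
          rw [toR_sub]; exact vsub_mem_vectorSpan ℝ (mem_hullZ hd) (mem_hullZ ha)
        · show toR (subZ p a) ∈ _
          rw [toR_sub]; exact vsub_mem_vectorSpan ℝ (mem_hullZ hp) (mem_hullZ ha)
      rw [h6, finrank_top, Module.finrank_fin_fun] at h5
      omega
    · -- n is a multiple of m
      have h3 : crossProduct (toR m.1) (toR w) = 0 := by
        rw [← toR_cross, toR_eq_zero]; exact h1
      obtain ⟨s, hs⟩ := (cross_ne_iff _ _ (hmne m hm)).mp h3
      have hn : n = (t * s) • toR m.1 := by rw [mul_smul, hs, ht]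
      have hca : c = (t * s) * (m.2 : ℝ) := by
        rw [← hx, hn, smul_dotProduct, toR_dot, h2, smul_eq_mul]
      obtain ⟨p, hp, hps⟩ := h.strict m hm
      have hps' : (dotZ m.1 p : ℝ) < m.2 := by exact_mod_cast hps
      have h4 := hle (toR p) (mem_hullZ hp)
      rw [hn, smul_dotProduct, toR_dot, smul_eq_mul, hca] at h4
      have hpos : 0 ≤ t * s := by
        by_contra hneg
        push Not at hneg
        nlinarith
      have hne0 : t * s ≠ 0 := by
        intro h0
        -- then again F is everything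
        have ht0 : t ≠ 0 ∨ t = 0 := by tauto
        rcases ht0 with ht0 | ht0
        · have hs0 : s = 0 := by
            rcases mul_eq_zero.mp h0 with h5 | h5
            · exact absurd h5 ht0
            · exact h5
          rw [hs0, zero_smul] at hs
          exact hcr hs.symm
        · have hall : hullZ V ⊆ F := by
            intro x hx'
            rw [hFe]
            refine ⟨hx', ?_⟩
            rw [← hx, ← ht, ht0, zero_smul, zero_dotProduct, zero_dotProduct]
          have hdim := hF.2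
          have h5 : Module.finrank ℝ (vectorSpan ℝ (hullZ V)) ≤ 2 := by
            rw [← hdim]; exact Submodule.finrank_mono (vectorSpan_mono ℝ hall)
          have hdp : (dotZ w (subZ p a) : ℝ) ≠ 0 := by
            intro h6
            have h7 : toR w ⬝ᵥ toR (subZ p a) = 0 := by rw [toR_dot]; exact h6
            rw [← hs, smul_dotProduct, smul_eq_mul, toR_sub, dotProduct_sub, toR_dot, toR_dot, h2]
              at h7
            rcases mul_eq_zero.mp h7 with h8 | h8
            · rw [h8, zero_smul] at hs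
              exact hcr hs.symm
            · linarith
          have h6 : vectorSpan ℝ (hullZ V) = ⊤ := by
            rw [eq_top_iff]
            have hli : LinearIndependent ℝ ![toR (subZ b a), toR (subZ d a), toR (subZ p a)] := by
              have hdet : Matrix.det ![toR (subZ b a), toR (subZ d a), toR (subZ p a)] ≠ 0 := by
                rw [← triple_product_eq_det, triple_product_permutation,
                  triple_product_permutation, ← toR_cross, toR_dot]
                have : dotZ (subZ p a) (crossZ (subZ b a) (subZ d a)) = dotZ w (subZ p a) := by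
                  rw [← hw]; unfold dotZ; ring
                rw [this]
                exact hdp
              exact Matrix.linearIndependent_rows_of_det_ne_zero hdet
            have hspan : Submodule.span ℝ (range ![toR (subZ b a), toR (subZ d a), toR (subZ p a)]) = ⊤ := by
              apply hli.span_eq_top_of_card_eq_finrank'
              simp
            rw [← hspan, Submodule.span_le]
            rintro _ ⟨i, rfl⟩
            fin_cases i
            · show toR (subZ b a) ∈ _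
              rw [toR_sub]; exact vsub_mem_vectorSpan ℝ (mem_hullZ hb) (mem_hullZ ha)
            · show toR (subZ d a) ∈ _
              rw [toR_sub]; exact vsub_mem_vectorSpan ℝ (mem_hullZ hd) (mem_hullZ ha)
            · show toR (subZ p a) ∈ _
              rw [toR_sub]; exact vsub_mem_vectorSpan ℝ (mem_hullZ hp) (mem_hullZ ha)
          rw [h6, finrank_top, Module.finrank_fin_fun] at h5
          omega
      refine ⟨m, hm, ?_⟩
      rw [hFe]
      ext x
      constructor
      · rintro ⟨h5, h6⟩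
        refine ⟨h5, ?_⟩
        rw [hn, smul_dotProduct, h6, smul_eq_mul, hca]
      · rintro ⟨h5, h6⟩
        refine ⟨h5, ?_⟩
        rw [hn, smul_dotProduct, hca, smul_eq_mul] at h6
        exact mul_left_cancel₀ hne0 h6
  · rintro _ ⟨m, hm, rfl⟩
    obtain ⟨a, ha, b, hb, c, hc, h1, h2, h3, h4⟩ := h.two m hm
    apply facet_of (hmne m hm) (hleR m hm) (mem_hullZ ha) (mem_hullZ hb) (mem_hullZ hc)
    · rw [toR_dot, h1]
    · rw [toR_dot, h2]
    · rw [toR_dot, h3]
    · rw [← toR_sub, ← toR_sub, ← toR_cross, Ne, toR_eq_zero]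
      exact h4

theorem ncard_facets {V : List Z3} {M : List (Z3 × ℤ)} (h : FacetCert V M) :
    (facets (hullZ V)).ncard = M.length := by
  rw [facets_hullZ h]
  have hnd : M.Nodup := by
    apply h.dist.imp
    rintro m m' ⟨v, _, h1, h2⟩ rfl
    exact h2 h1
  classical
  have hset : {m | m ∈ M} = (M.toFinset : Set (Z3 × ℤ)) := by
    ext m; simp
  have hinj : InjOn (faceZ V) {m | m ∈ M} := by
    intro m hm m' hm' he
    by_contra hne
    have hsym : ∀ m ∈ M, ∀ m' ∈ M, m ≠ m' →
        ((∃ v ∈ V, dotZ m.1 v = m.2 ∧ dotZ m'.1 v ≠ m'.2) ∨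
        (∃ v ∈ V, dotZ m'.1 v = m'.2 ∧ dotZ m.1 v ≠ m.2)) := by
      intro m hm m' hm' hne
      have h3 : M.Pairwise (fun m m' => (∃ v ∈ V, dotZ m.1 v = m.2 ∧ dotZ m'.1 v ≠ m'.2) ∨
        (∃ v ∈ V, dotZ m'.1 v = m'.2 ∧ dotZ m.1 v ≠ m.2)) := h.dist.imp (fun h => Or.inl h)
      have : Std.Symm (fun m m' : Z3 × ℤ => (∃ v ∈ V, dotZ m.1 v = m.2 ∧ dotZ m'.1 v ≠ m'.2) ∨
        (∃ v ∈ V, dotZ m'.1 v = m'.2 ∧ dotZ m.1 v ≠ m.2)) := ⟨fun a b hab => hab.symm⟩
      exact h3.forall hm hm' hne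
    rcases hsym m hm m' hm' hne with ⟨v, hv, h1, h2⟩ | ⟨v, hv, h1, h2⟩
    · have : toR v ∈ faceZ V m := ⟨mem_hullZ hv, by rw [toR_dot, h1]⟩
      rw [he] at this
      have h3 := this.2
      rw [toR_dot] at h3
      exact h2 (by exact_mod_cast h3)
    · have : toR v ∈ faceZ V m' := ⟨mem_hullZ hv, by rw [toR_dot, h1]⟩
      rw [← he] at this
      have h3 := this.2
      rw [toR_dot] at h3
      exact h2 (by exact_mod_cast h3)
  rw [hinj.ncard_image, hset, ncard_coe_finset, List.toFinset_card_of_nodup hnd]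

end Pool.Agent.X157.Facets
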