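import Pool.Agent.X157.Facets

set_option autoImplicit false

namespace Pool.Agent.X157.Facets

open Set Matrix Pool.Agent.X157.CP

/-- every vertex of the list is exposed -/
def ExpCert (V : List Z3) : Prop := ∀ v ∈ V, ∃ e ∈ V, ∀ w ∈ V, w ≠ v → dotZ e w < dotZ e v

lemma hullZ_range (V : List Z3) :
    hullZ V = convexHull ℝ (range (fun v : {v // v ∈ V} => toR v.1)) := by
  unfold hullZ
  congr 1
  ext x
  constructor
  · rintro ⟨v, hv, rfl⟩; exact ⟨⟨v, hv⟩, rfl⟩
  · rintro ⟨⟨v, hv⟩, rfl⟩; exact ⟨v, hv, rfl⟩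

lemma exp_of_cert {V : List Z3} (h : ExpCert V) : Exp (fun v : {v // v ∈ V} => toR v.1) := by
  rintro ⟨v, hv⟩
  obtain ⟨e, _, he⟩ := h v hv
  refine ⟨dotL (toR e), ?_⟩
  rintro ⟨w, hw⟩ hne
  have h1 := he w hw (fun h2 => hne (Subtype.ext h2))
  show toR e ⬝ᵥ toR w < toR e ⬝ᵥ toR v
  rw [toR_dot, toR_dot]
  exact_mod_cast h1

theorem extremePoints_hullZ {V : List Z3} (h : ExpCert V) :
    (hullZ V).extremePoints ℝ = toR '' {v | v ∈ V} := by
  rw [hullZ_range, (exp_of_cert h).extremePoints]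
  ext x
  constructor
  · rintro ⟨⟨v, hv⟩, rfl⟩; exact ⟨v, hv, rfl⟩
  · rintro ⟨v, hv, rfl⟩; exact ⟨⟨v, hv⟩, rfl⟩

theorem ncard_extremePoints {V : List Z3} (hnd : V.Nodup) (h : ExpCert V) :
    ((hullZ V).extremePoints ℝ).ncard = V.length := by
  classical
  rw [extremePoints_hullZ h, (toR_injective.injOn).ncard_image]
  have hset : {m | m ∈ V} = (V.toFinset : Set Z3) := by ext m; simp
  rw [hset, ncard_coe_finset, List.toFinset_card_of_nodup hnd]

theorem isPoly3_hullZ {V : List Z3} (h : ∃ a ∈ V, ∃ b ∈ V, ∃ c ∈ V, ∃ d ∈ V,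
    dotZ (subZ d a) (crossZ (subZ b a) (subZ c a)) ≠ 0) : IsPoly3 (hullZ V) := by
  obtain ⟨a, ha, b, hb, c, hc, d, hd, hdet⟩ := h
  refine ⟨⟨toR '' {v | v ∈ V}, ?_, ?_⟩, ?_⟩
  · exact (List.finite_toSet V).image _
  · unfold hullZ
    congr 1
    ext x
    constructor
    · rintro ⟨v, hv, rfl⟩; exact ⟨v, hv, rfl⟩
    · rintro ⟨v, hv, rfl⟩; exact ⟨v, hv, rfl⟩
  · unfold hullZ
    rw [interior_convexHull_nonempty_iff_affineSpan_eq_top, ← affineSpan_convexHull]
    have ha' : toR a ∈ hullZ V := mem_hullZ ha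
    have hdir : (affineSpan ℝ (hullZ V)).direction = ⊤ := by
      rw [direction_affineSpan, eq_top_iff]
      have hli : LinearIndependent ℝ ![toR (subZ d a), toR (subZ b a), toR (subZ c a)] := by
        have hdet2 : Matrix.det ![toR (subZ d a), toR (subZ b a), toR (subZ c a)] ≠ 0 := by
          rw [← triple_product_eq_det, ← toR_cross, toR_dot]
          exact_mod_cast hdet
        exact Matrix.linearIndependent_rows_of_det_ne_zero hdet2
      have hspan : Submodule.span ℝ (range ![toR (subZ d a), toR (subZ b a), toR (subZ c a)]) = ⊤ := by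
        apply hli.span_eq_top_of_card_eq_finrank'
        simp
      rw [← hspan, Submodule.span_le]
      rintro _ ⟨i, rfl⟩
      fin_cases i
      · show toR (subZ d a) ∈ _
        rw [toR_sub]; exact vsub_mem_vectorSpan ℝ (mem_hullZ hd) (mem_hullZ ha)
      · show toR (subZ b a) ∈ _
        rw [toR_sub]; exact vsub_mem_vectorSpan ℝ (mem_hullZ hb) (mem_hullZ ha)
      · show toR (subZ c a) ∈ _
        rw [toR_sub]; exact vsub_mem_vectorSpan ℝ (mem_hullZ hc) (mem_hullZ ha)
    exact (AffineSubspace.direction_eq_top_iff_of_nonempty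
      ⟨toR a, subset_affineSpan ℝ _ ha'⟩).mp hdir

/-- the affine span of a 3-polytope is everything -/
lemma IsPoly3.finrank {P : Set R3} (hP : IsPoly3 P) : Module.finrank ℝ (vectorSpan ℝ P) = 3 := by
  have h1 : affineSpan ℝ P = ⊤ := by
    obtain ⟨⟨S, _, rfl⟩, h2⟩ := hP
    rw [(convex_convexHull ℝ S).interior_nonempty_iff_affineSpan_eq_top] at h2
    exact h2
  rw [← direction_affineSpan, h1, AffineSubspace.direction_top, finrank_top,
    Module.finrank_fin_fun]

lemma IsPoly3.isPolytope {P : Set R3} (hP : IsPoly3 P) : IsPolytope 3 P :=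
  ⟨hP.2.mono interior_subset, hP.1, hP.finrank⟩

end Pool.Agent.X157.Facets
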