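import Pool.Agent.X157.CP

set_option autoImplicit false

/-! Facets of a polyhedron given by inequalities; facets of a free join. -/

namespace Pool.Agent.X157.HRep

open Set Pool.Agent.X157.CP

variable {E : Type*} [NormedAddCommGroup E] [NormedSpace ℝ E] [FiniteDimensional ℝ E]

omit [FiniteDimensional ℝ E] in
/-- exposed subsets as level sets -/
lemma exposed_data {P F : Set E} (hF : IsExposed ℝ P F) (hne : F.Nonempty) :
    ∃ (φ : StrongDual ℝ E) (c : ℝ), (∀ x ∈ P, φ x ≤ c) ∧ F = {x | x ∈ P ∧ φ x = c} := by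
  obtain ⟨l, hl⟩ := hF hne
  obtain ⟨x0, hx0⟩ := hne
  have hx0' := hx0
  rw [hl] at hx0'
  refine ⟨l, l x0, fun x hx => hx0'.2 x hx, ?_⟩
  rw [hl]
  ext x
  constructor
  · rintro ⟨h1, h2⟩
    exact ⟨h1, le_antisymm (hx0'.2 x h1) (h2 x0 hx0'.1)⟩
  · rintro ⟨h1, h2⟩
    exact ⟨h1, fun y hy => by rw [h2]; exact hx0'.2 y hy⟩

lemma finrank_ker {φ : StrongDual ℝ E} (h : φ ≠ 0) :
    Module.finrank ℝ (LinearMap.ker (φ : E →ₗ[ℝ] ℝ)) + 1 = Module.finrank ℝ E := by
  have h1 := LinearMap.finrank_range_add_finrank_ker (φ : E →ₗ[ℝ] ℝ)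
  have h2 : LinearMap.range (φ : E →ₗ[ℝ] ℝ) = ⊤ := by
    rw [LinearMap.range_eq_top]
    apply LinearMap.surjective
    intro h0
    apply h
    ext x
    exact congrFun (congrArg DFunLike.coe h0) x
  rw [h2, finrank_top, Module.finrank_self] at h1
  omega

omit [FiniteDimensional ℝ E] in
lemma vectorSpan_le_ker {S : Set E} {φ : StrongDual ℝ E} {c : ℝ} (h : ∀ x ∈ S, φ x = c) :
    vectorSpan ℝ S ≤ LinearMap.ker (φ : E →ₗ[ℝ] ℝ) := by
  rw [vectorSpan_def, Submodule.span_le]
  rintro _ ⟨x, hx, y, hy, rfl⟩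
  show φ (x - y) = 0
  rw [map_sub, h x hx, h y hy, sub_self]

/-- the facets of a full-dimensional polyhedron given by finitely many inequalities are among the
sets where one of the inequalities is an equality -/
theorem facet_of_hrep {P : Set E} {J : Type*} [Finite J] (l : J → StrongDual ℝ E) (b : J → ℝ)
    (hP : P = {x | ∀ j, l j x ≤ b j}) (hfull : Module.finrank ℝ (vectorSpan ℝ P) = Module.finrank ℝ E)
    {F : Set E} (hF : IsExposed ℝ P F)
    (hdim : Module.finrank ℝ (vectorSpan ℝ F) + 1 = Module.finrank ℝ E) (hne : F.Nonempty) :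
    ∃ j, F = {x | x ∈ P ∧ l j x = b j} := by
  classical
  haveI := Fintype.ofFinite J
  obtain ⟨φ, c, hle, hFe⟩ := exposed_data hF hne
  have hPconv : Convex ℝ P := by
    rw [hP]
    have : {x | ∀ j, l j x ≤ b j} = ⋂ j, {x | l j x ≤ b j} := by ext x; simp
    rw [this]
    exact convex_iInter fun j => convex_halfSpace_le (LinearMap.isLinear (l j : E →ₗ[ℝ] ℝ)) (b j)
  have hFconv : Convex ℝ F := by
    rw [hFe]
    exact hPconv.inter (convex_hyperplane (LinearMap.isLinear (φ : E →ₗ[ℝ] ℝ)) c)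
  have hφ : φ ≠ 0 := by
    rintro rfl
    obtain ⟨x, hx⟩ := hne
    have hx' := hx
    rw [hFe] at hx'
    have hc : c = 0 := by rw [← hx'.2]; rfl
    have : F = P := by
      rw [hFe]
      ext y
      exact ⟨fun h => h.1, fun h => ⟨h, by rw [hc]; rfl⟩⟩
    rw [this] at hdim
    omega
  obtain ⟨y0, hy0⟩ := hne
  -- choose strict points
  have hch : ∀ j, ∃ y ∈ F, (∃ z ∈ F, l j z < b j) → l j y < b j := by
    intro j
    by_cases h : ∃ z ∈ F, l j z < b j
    · obtain ⟨z, hz, hz'⟩ := h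
      exact ⟨z, hz, fun _ => hz'⟩
    · exact ⟨y0, hy0, fun h' => absurd h' h⟩
  choose y hyF hy using hch
  have hFP : F ⊆ P := by rw [hFe]; exact fun x hx => hx.1
  -- the average
  set N : ℝ := (Fintype.card J : ℝ) + 1 with hN
  have hNpos : 0 < N := by positivity
  set x0 : E := N⁻¹ • (y0 + ∑ j, y j) with hx0
  have hx0F : x0 ∈ F := by
    have h1 : x0 = ∑ o : Option J, N⁻¹ • (fun o : Option J => o.elim y0 y) o := by
      rw [Fintype.sum_option, hx0, smul_add, Finset.smul_sum]
      rfl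
    rw [h1]
    apply hFconv.sum_mem
    · intro _ _; positivity
    · rw [Finset.sum_const, Finset.card_univ, Fintype.card_option, nsmul_eq_mul]
      push_cast
      rw [← hN, mul_inv_cancel₀ hNpos.ne']
    · rintro (_ | j) _
      · exact hy0
      · exact hyF j
  have hstrict : ∀ j, (∃ z ∈ F, l j z < b j) → l j x0 < b j := by
    intro j hj
    have hPle : ∀ x ∈ P, l j x ≤ b j := by
      intro x hx
      rw [hP] at hx
      exact hx j
    rw [hx0, map_smul, map_add, map_sum, smul_eq_mul, inv_mul_lt_iff₀ hNpos, hN]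
    have h1 : l j y0 ≤ b j := hPle _ (hFP hy0)
    have h2 : ∑ i, l j (y i) < ∑ _i : J, b j :=
      Finset.sum_lt_sum (fun i _ => hPle _ (hFP (hyF i))) ⟨j, Finset.mem_univ _, hy j hj⟩
    rw [Finset.sum_const, Finset.card_univ, nsmul_eq_mul] at h2
    linarith
  -- some nonzero functional is tight on F
  obtain ⟨j, hj0, hjt⟩ : ∃ j, l j ≠ 0 ∧ ∀ z ∈ F, l j z = b j := by
    by_contra hcon
    push Not at hcon
    have hall : ∀ j, l j = 0 ∨ l j x0 < b j := by
      intro j
      by_cases h0 : l j = 0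
      · exact Or.inl h0
      · right
        obtain ⟨z, hz, hz'⟩ := hcon j h0
        apply hstrict
        refine ⟨z, hz, lt_of_le_of_ne ?_ hz'⟩
        have := hFP hz
        rw [hP] at this
        exact this j
    apply hφ
    have hx0c : φ x0 = c := by
      have := hx0F
      rw [hFe] at this
      exact this.2
    have hnonpos : ∀ v, φ v ≤ 0 := by
      intro v
      -- x0 + ε v lies in P
      have hev : ∀ᶠ ε in nhdsWithin (0 : ℝ) (Ioi 0), x0 + ε • v ∈ P := by
        rw [hP]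
        simp only [Set.mem_ofPred_eq]
        rw [Filter.eventually_all]
        intro j
        rcases hall j with h0 | h0
        · refine Filter.Eventually.of_forall fun ε => ?_
          have h3 : l j x0 ≤ b j := by
            have := hFP hx0F
            rw [hP] at this
            exact this j
          rw [h0] at h3 ⊢
          exact h3
        · have hcont : Continuous fun ε : ℝ => l j (x0 + ε • v) := by fun_prop
          have h3 : Filter.Tendsto (fun ε : ℝ => l j (x0 + ε • v)) (nhdsWithin (0 : ℝ) (Ioi 0))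
              (nhds (l j (x0 + (0 : ℝ) • v))) := hcont.continuousWithinAt
          rw [zero_smul, add_zero] at h3
          exact (h3.eventually_lt_const h0).mono fun ε h => h.le
      have hpos : ∀ᶠ ε in nhdsWithin (0 : ℝ) (Ioi 0), 0 < ε := self_mem_nhdsWithin
      obtain ⟨ε, hε1, hε2⟩ := (hev.and hpos).exists
      have h4 := hle _ hε1
      rw [map_add, φ.map_smul ε v, hx0c, smul_eq_mul] at h4
      nlinarith
    ext v
    have h1 := hnonpos v
    have h2 := hnonpos (-v)
    rw [map_neg] at h2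
    show φ v = 0
    linarith
  refine ⟨j, ?_⟩
  have e1 : vectorSpan ℝ F = LinearMap.ker (l j : E →ₗ[ℝ] ℝ) := by
    apply Submodule.eq_of_le_of_finrank_eq (vectorSpan_le_ker hjt)
    have := finrank_ker hj0
    omega
  have e2 : vectorSpan ℝ F = LinearMap.ker (φ : E →ₗ[ℝ] ℝ) := by
    apply Submodule.eq_of_le_of_finrank_eq
    · apply vectorSpan_le_ker (c := c)
      intro x hx
      rw [hFe] at hx
      exact hx.2
    · have := finrank_ker hφ
      omega
  apply Subset.antisymm
  · intro x hx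
    exact ⟨hFP hx, hjt x hx⟩
  · rintro x ⟨hx1, hx2⟩
    rw [hFe]
    refine ⟨hx1, ?_⟩
    have h3 : x - x0 ∈ LinearMap.ker (l j : E →ₗ[ℝ] ℝ) := by
      show l j (x - x0) = 0
      rw [map_sub, hx2, hjt x0 hx0F, sub_self]
    rw [← e1, e2] at h3
    have h4 : φ (x - x0) = 0 := h3
    have h5 : φ x0 = c := by
      have := hx0F
      rw [hFe] at this
      exact this.2
    rw [map_sub, h5] at h4
    linarith

omit [FiniteDimensional ℝ E] in
/-- points of the hull of two convex sets -/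
lemma mem_hull_union {P1 P2 : Set E} (h1 : Convex ℝ P1) (h2 : Convex ℝ P2) (hne1 : P1.Nonempty)
    (hne2 : P2.Nonempty) {x : E} (hx : x ∈ convexHull ℝ (P1 ∪ P2)) :
    ∃ x1 ∈ P1, ∃ x2 ∈ P2, ∃ s t : ℝ, 0 ≤ s ∧ 0 ≤ t ∧ s + t = 1 ∧ x = s • x1 + t • x2 := by
  rw [h1.convexHull_union h2 hne1 hne2, mem_convexJoin] at hx
  obtain ⟨x1, hx1, x2, hx2, s, t, hs, ht, hst, hx⟩ := hx
  exact ⟨x1, hx1, x2, hx2, s, t, hs, ht, hst, hx.symm⟩

/-- proper exposed parts have smaller dimension -/
lemma finrank_lt {P : Set E} {φ : StrongDual ℝ E} {c : ℝ} {u x : E} (hu : u ∈ P) (hx : x ∈ P)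
    (hφu : φ u < c) (hφx : φ x = c) :
    Module.finrank ℝ (vectorSpan ℝ {y | y ∈ P ∧ φ y = c}) + 1 ≤
      Module.finrank ℝ (vectorSpan ℝ P) := by
  have h1 : vectorSpan ℝ {y | y ∈ P ∧ φ y = c} < vectorSpan ℝ P := by
    refine lt_of_le_of_ne (vectorSpan_mono ℝ fun y hy => hy.1) (fun he => ?_)
    have h2 : u - x ∈ vectorSpan ℝ P := vsub_mem_vectorSpan ℝ hu hx
    rw [← he] at h2
    have h3 := vectorSpan_le_ker (S := {y | y ∈ P ∧ φ y = c}) (φ := φ) (c := c)
      (fun y hy => hy.2) h2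
    have h4 : φ (u - x) = 0 := h3
    rw [map_sub] at h4
    linarith
  have := Submodule.finrank_lt_finrank_of_lt h1
  omega

/-- a facet of the hull of two sets whose dimensions add up contains one of them -/
theorem join_facet {P1 P2 : Set E} (h1 : Convex ℝ P1) (h2 : Convex ℝ P2)
    (hne1 : P1.Nonempty) (hne2 : P2.Nonempty) {N : ℕ}
    (hd : Module.finrank ℝ (vectorSpan ℝ P1) + Module.finrank ℝ (vectorSpan ℝ P2) + 1 = N)
    {F : Set E}
    (hF : IsExposed ℝ (convexHull ℝ (P1 ∪ P2)) F)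
    (hdim : Module.finrank ℝ (vectorSpan ℝ F) + 1 = N) (hFne : F.Nonempty) :
    P1 ⊆ F ∨ P2 ⊆ F := by
  by_contra hcon
  rw [not_or, not_subset, not_subset] at hcon
  obtain ⟨⟨u1, hu1, hu1F⟩, u2, hu2, hu2F⟩ := hcon
  have hsub1 : P1 ⊆ convexHull ℝ (P1 ∪ P2) := subset_union_left.trans (subset_convexHull ℝ _)
  have hsub2 : P2 ⊆ convexHull ℝ (P1 ∪ P2) := subset_union_right.trans (subset_convexHull ℝ _)
  obtain ⟨φ, c, hle, hFe⟩ := exposed_data hF hFne
  have hφ1 : φ u1 < c := lt_of_le_of_ne (hle _ (hsub1 hu1)) (fun h => hu1F (by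
    rw [hFe]; exact ⟨hsub1 hu1, h⟩))
  have hφ2 : φ u2 < c := lt_of_le_of_ne (hle _ (hsub2 hu2)) (fun h => hu2F (by
    rw [hFe]; exact ⟨hsub2 hu2, h⟩))
  -- the points of F
  have hpts : ∀ x ∈ F, (∃ x1 ∈ P1, φ x1 = c ∧ x = x1) ∨ (∃ x2 ∈ P2, φ x2 = c ∧ x = x2) ∨
      ∃ x1 ∈ P1, ∃ x2 ∈ P2, φ x1 = c ∧ φ x2 = c ∧ ∃ s t : ℝ, s + t = 1 ∧ x = s • x1 + t • x2 := by
    intro x hx
    rw [hFe] at hx
    obtain ⟨x1, hx1, x2, hx2, s, t, hs, ht, hst, rfl⟩ := mem_hull_union h1 h2 hne1 hne2 hx.1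
    have l1 := hle _ (hsub1 hx1)
    have l2 := hle _ (hsub2 hx2)
    have h3 := hx.2
    rw [map_add, map_smul, map_smul, smul_eq_mul, smul_eq_mul] at h3
    rcases hs.eq_or_lt with hs0 | hs0
    · right; left
      have ht1 : t = 1 := by linarith
      rw [← hs0, ht1] at h3 ⊢
      exact ⟨x2, hx2, by linarith, by rw [zero_smul, one_smul, zero_add]⟩
    · rcases ht.eq_or_lt with ht0 | ht0
      · left
        have hs1 : s = 1 := by linarith
        rw [← ht0, hs1] at h3 ⊢
        exact ⟨x1, hx1, by linarith, by rw [zero_smul, one_smul, add_zero]⟩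
      · right; right
        have e1 : φ x1 = c := by
          by_contra hne
          have := lt_of_le_of_ne l1 hne
          have a1 := mul_lt_mul_of_pos_left this hs0
          have a2 := mul_le_mul_of_nonneg_left l2 ht
          have a3 : s * c + t * c = c := by rw [← add_mul, hst, one_mul]
          linarith
        have e2 : φ x2 = c := by
          by_contra hne
          have := lt_of_le_of_ne l2 hne
          have a1 := mul_lt_mul_of_pos_left this ht0
          have a2 := mul_le_mul_of_nonneg_left l1 hs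
          have a3 : s * c + t * c = c := by rw [← add_mul, hst, one_mul]
          linarith
        exact ⟨x1, hx1, x2, hx2, e1, e2, s, t, hst, rfl⟩
  set F1 : Set E := {y | y ∈ P1 ∧ φ y = c} with hF1
  set F2 : Set E := {y | y ∈ P2 ∧ φ y = c} with hF2
  rcases F1.eq_empty_or_nonempty with e1 | ⟨y1, hy1⟩
  · -- F is contained in F2
    have hsub : F ⊆ F2 := by
      intro x hx
      rcases hpts x hx with ⟨x1, hx1, hc, rfl⟩ | ⟨x2, hx2, hc, rfl⟩ | ⟨x1, hx1, x2, _, hc, _⟩
      · have : x ∈ F1 := ⟨hx1, hc⟩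
        rw [e1] at this; exact absurd this (notMem_empty _)
      · exact ⟨hx2, hc⟩
      · have : x1 ∈ F1 := ⟨hx1, hc⟩
        rw [e1] at this; exact absurd this (notMem_empty _)
    obtain ⟨x, hx⟩ := hFne
    have h3 : Module.finrank ℝ (vectorSpan ℝ F2) + 1 ≤ Module.finrank ℝ (vectorSpan ℝ P2) :=
      finrank_lt hu2 (hsub hx).1 hφ2 (hsub hx).2
    have h4 := Submodule.finrank_mono (vectorSpan_mono ℝ hsub)
    omega
  · rcases F2.eq_empty_or_nonempty with e2 | ⟨y2, hy2⟩
    · have hsub : F ⊆ F1 := by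
        intro x hx
        rcases hpts x hx with ⟨x1, hx1, hc, rfl⟩ | ⟨x2, hx2, hc, rfl⟩ | ⟨_, _, x2, hx2, _, hc, _⟩
        · exact ⟨hx1, hc⟩
        · have : x ∈ F2 := ⟨hx2, hc⟩
          rw [e2] at this; exact absurd this (notMem_empty _)
        · have : x2 ∈ F2 := ⟨hx2, hc⟩
          rw [e2] at this; exact absurd this (notMem_empty _)
      have h3 : Module.finrank ℝ (vectorSpan ℝ F1) + 1 ≤ Module.finrank ℝ (vectorSpan ℝ P1) :=
        finrank_lt hu1 hy1.1 hφ1 hy1.2
      have h4 := Submodule.finrank_mono (vectorSpan_mono ℝ hsub)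
      omega
    · have h3 : Module.finrank ℝ (vectorSpan ℝ F1) + 1 ≤ Module.finrank ℝ (vectorSpan ℝ P1) :=
        finrank_lt hu1 hy1.1 hφ1 hy1.2
      have h4 : Module.finrank ℝ (vectorSpan ℝ F2) + 1 ≤ Module.finrank ℝ (vectorSpan ℝ P2) :=
        finrank_lt hu2 hy2.1 hφ2 hy2.2
      have hspan : vectorSpan ℝ F ≤ (vectorSpan ℝ F1 ⊔ vectorSpan ℝ F2) ⊔
          Submodule.span ℝ {y2 - y1} := by
        have key : ∀ x ∈ F, x - y1 ∈ (vectorSpan ℝ F1 ⊔ vectorSpan ℝ F2) ⊔
            Submodule.span ℝ {y2 - y1} := by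
          intro x hx
          have k1 : ∀ x1 ∈ F1, x1 - y1 ∈ (vectorSpan ℝ F1 ⊔ vectorSpan ℝ F2) ⊔
              Submodule.span ℝ {y2 - y1} := fun x1 hx1 =>
            Submodule.mem_sup_left (Submodule.mem_sup_left (vsub_mem_vectorSpan ℝ hx1 hy1))
          have k2 : ∀ x2 ∈ F2, x2 - y1 ∈ (vectorSpan ℝ F1 ⊔ vectorSpan ℝ F2) ⊔
              Submodule.span ℝ {y2 - y1} := by
            intro x2 hx2
            have : x2 - y1 = (x2 - y2) + (y2 - y1) := by abel
            rw [this]
            exact add_mem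
              (Submodule.mem_sup_left (Submodule.mem_sup_right (vsub_mem_vectorSpan ℝ hx2 hy2)))
              (Submodule.mem_sup_right (Submodule.mem_span_singleton_self _))
          rcases hpts x hx with ⟨x1, hx1, hc, rfl⟩ | ⟨x2, hx2, hc, rfl⟩ |
            ⟨x1, hx1, x2, hx2, hc1, hc2, s, t, hst, rfl⟩
          · exact k1 _ ⟨hx1, hc⟩
          · exact k2 _ ⟨hx2, hc⟩
          · have : s • x1 + t • x2 - y1 = s • (x1 - y1) + t • (x2 - y1) := by
              have ht : t = 1 - s := by linarith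
              rw [ht]; module
            rw [this]
            exact add_mem (Submodule.smul_mem _ _ (k1 _ ⟨hx1, hc1⟩))
              (Submodule.smul_mem _ _ (k2 _ ⟨hx2, hc2⟩))
        rw [vectorSpan_def, Submodule.span_le]
        rintro _ ⟨x, hx, y, hy, rfl⟩
        have : x -ᵥ y = (x - y1) - (y - y1) := by rw [vsub_eq_sub]; abel
        show x -ᵥ y ∈ _
        rw [this]
        exact sub_mem (key x hx) (key y hy)
      have h5 := Submodule.finrank_mono hspan
      have h6 := Submodule.finrank_add_le_finrank_add_finrank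
        (vectorSpan ℝ F1 ⊔ vectorSpan ℝ F2) (Submodule.span ℝ {y2 - y1})
      have h7 := Submodule.finrank_add_le_finrank_add_finrank (vectorSpan ℝ F1) (vectorSpan ℝ F2)
      have h8 : Module.finrank ℝ (Submodule.span ℝ {y2 - y1}) ≤ 1 := by
        have := finrank_span_le_card (R := ℝ) ({y2 - y1} : Set E)
        simpa using this
      omega

end Pool.Agent.X157.HRep
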