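import Pool.Agent.X157.HRep

set_option autoImplicit false

/-! The face lattice of a polytope, and free joins. -/

namespace Pool.Agent.X157.Join

open Set Pool.Agent.X157.CP Pool.Agent.X157.HRep

/-- the dimension of a set -/
noncomputable def dim {E : Type*} [NormedAddCommGroup E] [NormedSpace ℝ E] (P : Set E) : ℕ :=
  Module.finrank ℝ (vectorSpan ℝ P)

/-- the faces of `P` (the empty set and `P` included), ordered by inclusion: the face lattice -/
abbrev Face {E : Type*} [NormedAddCommGroup E] [NormedSpace ℝ E] (P : Set E) :=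
  {F : Set E // IsExposed ℝ P F}

/-- convex hulls of finite nonempty sets -/
def IsPoly {E : Type*} [NormedAddCommGroup E] [NormedSpace ℝ E] (P : Set E) : Prop :=
  P.Nonempty ∧ ∃ S : Set E, S.Finite ∧ P = convexHull ℝ S

/-- `P` is (combinatorially) a free join -/
def IsFreeJoin {E : Type*} [NormedAddCommGroup E] [NormedSpace ℝ E] (P : Set E) : Prop :=
  ∃ (n : ℕ) (P1 P2 : Set (Fin n → ℝ)), IsPoly P1 ∧ IsPoly P2 ∧
    dim (P1 ∪ P2) = dim P1 + dim P2 + 1 ∧ Nonempty (Face P ≃o Face (convexHull ℝ (P1 ∪ P2)))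

variable {E : Type*} [NormedAddCommGroup E] [NormedSpace ℝ E] [FiniteDimensional ℝ E]

omit [FiniteDimensional ℝ E] in
lemma face_of_le {P : Set E} {φ : StrongDual ℝ E} {c : ℝ} (h : ∀ x ∈ P, φ x ≤ c) :
    IsExposed ℝ P {x | x ∈ P ∧ φ x = c} := by
  rintro ⟨x0, hx0⟩
  refine ⟨φ, ?_⟩
  ext x
  constructor
  · rintro ⟨h1, h2⟩
    exact ⟨h1, fun y hy => by rw [h2]; exact h y hy⟩
  · rintro ⟨h1, h2⟩
    exact ⟨h1, le_antisymm (h x h1) (by rw [← hx0.2]; exact h2 x0 hx0.1)⟩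

omit [FiniteDimensional ℝ E] in
lemma isExposed_self (P : Set E) : IsExposed ℝ P P := by
  rintro _
  refine ⟨0, ?_⟩
  ext x
  exact ⟨fun h => ⟨h, fun _ _ => le_rfl⟩, fun h => h.1⟩

omit [FiniteDimensional ℝ E] in
lemma isExposed_empty (P : Set E) : IsExposed ℝ P ∅ := fun h => absurd h (by simp)

omit [FiniteDimensional ℝ E] in
lemma vectorSpan_hull (S : Set E) : vectorSpan ℝ (convexHull ℝ S) = vectorSpan ℝ S := by
  rw [← direction_affineSpan, affineSpan_convexHull, direction_affineSpan]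

/-- a proper face has smaller dimension -/
lemma dim_lt {P F : Set E} (hF : IsExposed ℝ P F) (hne : F.Nonempty) (hFP : F ≠ P) :
    dim F + 1 ≤ dim P := by
  obtain ⟨φ, c, hle, rfl⟩ := exposed_data hF hne
  obtain ⟨x, hx⟩ := hne
  have : ∃ u ∈ P, φ u < c := by
    by_contra hcon
    push Not at hcon
    apply hFP
    ext y
    exact ⟨fun h => h.1, fun h => ⟨h, le_antisymm (hle y h) (hcon y h)⟩⟩
  obtain ⟨u, hu, huc⟩ := this
  exact finrank_lt hu hx.1 huc hx.2

/-- a facet is a maximal proper face -/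
lemma facet_maximal {P F G : Set E} (hF : IsExposed ℝ P F) (hne : F.Nonempty)
    (hd : dim F + 1 = dim P) (hG : IsExposed ℝ P G) (hFG : F ⊆ G) : G = F ∨ G = P := by
  by_cases hGP : G = P
  · exact Or.inr hGP
  · left
    have h1 := dim_lt hG (hne.mono hFG) hGP
    have h2 : vectorSpan ℝ F = vectorSpan ℝ G := by
      apply Submodule.eq_of_le_of_finrank_le (vectorSpan_mono ℝ hFG)
      unfold dim at hd h1
      omega
    obtain ⟨φ, c, hle, hFe⟩ := exposed_data hF hne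
    obtain ⟨x0, hx0⟩ := hne
    have hx0c : φ x0 = c := by
      have := hx0
      rw [hFe] at this
      exact this.2
    refine Subset.antisymm (fun y hy => ?_) hFG
    have h3 : y - x0 ∈ vectorSpan ℝ G := vsub_mem_vectorSpan ℝ hy (hFG hx0)
    rw [← h2] at h3
    have h4 := vectorSpan_le_ker (S := F) (φ := φ) (c := c)
      (fun y hy => by rw [hFe] at hy; exact hy.2) h3
    have h5 : φ (y - x0) = 0 := h4
    rw [hFe]
    refine ⟨hG.subset hy, ?_⟩
    rw [map_sub, hx0c] at h5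
    linarith

/-- a face of codimension at least two lies in a bigger proper face -/
lemma exists_bigger {S : Set E} (hS : S.Finite) {F : Set E}
    (hF : IsExposed ℝ (convexHull ℝ S) F) (hne : F.Nonempty)
    (hd : dim F + 1 < dim (convexHull ℝ S)) :
    ∃ G, IsExposed ℝ (convexHull ℝ S) G ∧ F ⊆ G ∧ G ≠ F ∧ G ≠ convexHull ℝ S := by
  obtain ⟨φ, c, hle, hFe⟩ := exposed_data hF hne
  obtain ⟨x0, hx0⟩ := hne
  have hx0' := hx0
  rw [hFe] at hx0'
  have hSP : S ⊆ convexHull ℝ S := subset_convexHull ℝ S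
  -- a direction
  set VQ := vectorSpan ℝ (convexHull ℝ S) with hVQ
  set VF := vectorSpan ℝ F with hVF
  have hFQ : VF ≤ VQ := vectorSpan_mono ℝ hF.subset
  have hFK : VF ≤ LinearMap.ker (φ : E →ₗ[ℝ] ℝ) := vectorSpan_le_ker (c := c)
    (fun y hy => by rw [hFe] at hy; exact hy.2)
  have hlt : VF < LinearMap.ker (φ : E →ₗ[ℝ] ℝ) ⊓ VQ := by
    refine lt_of_le_of_ne (le_inf hFK hFQ) (fun he => ?_)
    have h1 := Submodule.finrank_sup_add_finrank_inf_eq (LinearMap.ker (φ : E →ₗ[ℝ] ℝ)) VQ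
    rw [← he] at h1
    have h2 : Module.finrank ℝ (LinearMap.ker (φ : E →ₗ[ℝ] ℝ)) + 1 ≥ Module.finrank ℝ E := by
      by_cases h0 : φ = 0
      · have : LinearMap.ker (φ : E →ₗ[ℝ] ℝ) = ⊤ := by
          rw [h0]; ext x; simp
        rw [this, finrank_top]
        omega
      · exact (finrank_ker h0).ge
    have h3 := Submodule.finrank_le (LinearMap.ker (φ : E →ₗ[ℝ] ℝ) ⊔ VQ)
    have h4 : Module.finrank ℝ VF + 1 < Module.finrank ℝ VQ := hd
    omega
  obtain ⟨w, hw1, hw2⟩ := SetLike.exists_of_lt hlt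
  obtain ⟨ψ0, hψ1, hψ2⟩ := Submodule.exists_dual_map_eq_bot_of_notMem hw2 inferInstance
  -- choose the sign
  have hconst : ∀ ψ : StrongDual ℝ E, (∀ v ∈ VF, ψ v = 0) → ψ w ≠ 0 →
      (∃ s ∈ S, ψ x0 < ψ s) → 
      ∃ G, IsExposed ℝ (convexHull ℝ S) G ∧ F ⊆ G ∧ G ≠ F ∧ G ≠ convexHull ℝ S := by
    intro ψ hψF hψw hex
    set T : Finset E := hS.toFinset.filter (fun s => ψ x0 < ψ s) with hT
    have hTne : T.Nonempty := by
      obtain ⟨s, hs, hs'⟩ := hex
      exact ⟨s, by rw [hT, Finset.mem_filter]; exact ⟨hS.mem_toFinset.mpr hs, hs'⟩⟩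
    obtain ⟨s0, hs0, hmin⟩ := T.exists_min_image (fun s => (c - φ s) / (ψ s - ψ x0)) hTne
    rw [hT, Finset.mem_filter, hS.mem_toFinset] at hs0
    set t := (c - φ s0) / (ψ s0 - ψ x0) with ht
    have hb0 : 0 < ψ s0 - ψ x0 := by linarith [hs0.2]
    have hFconst : ∀ x ∈ F, ψ x = ψ x0 := by
      intro x hx
      have h1 := hψF (x - x0) (vsub_mem_vectorSpan ℝ hx hx0)
      rw [map_sub] at h1
      linarith
    have ha0 : 0 < c - φ s0 := by
      have h1 := hle s0 (hSP hs0.1)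
      rcases h1.lt_or_eq with h2 | h2
      · linarith
      · exfalso
        have : s0 ∈ F := by rw [hFe]; exact ⟨hSP hs0.1, h2⟩
        have := hFconst _ this
        linarith [hs0.2]
    have htpos : 0 < t := div_pos ha0 hb0
    set θ : StrongDual ℝ E := φ + t • ψ with hθ
    have hθa : ∀ x, θ x = φ x + t * ψ x := fun x => rfl
    have hθS : ∀ s ∈ S, θ s ≤ c + t * ψ x0 := by
      intro s hs
      rw [hθa]
      have h1 := hle s (hSP hs)
      by_cases h2 : ψ x0 < ψ s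
      · have h3 := hmin s (by rw [hT, Finset.mem_filter]; exact ⟨hS.mem_toFinset.mpr hs, h2⟩)
        have h4 : 0 < ψ s - ψ x0 := by linarith
        rw [le_div_iff₀ h4] at h3
        nlinarith
      · push Not at h2
        nlinarith
    have hθP : ∀ x ∈ convexHull ℝ S, θ x ≤ c + t * ψ x0 := fun x hx => le_of_mem_hull hθS hx
    have hs0G : θ s0 = c + t * ψ x0 := by
      rw [hθa]
      have : t * (ψ s0 - ψ x0) = c - φ s0 := div_mul_cancel₀ _ hb0.ne'
      nlinarith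
    refine ⟨{x | x ∈ convexHull ℝ S ∧ θ x = c + t * ψ x0}, face_of_le hθP, ?_, ?_, ?_⟩
    · intro x hx
      have hx' := hx
      rw [hFe] at hx'
      refine ⟨hx'.1, ?_⟩
      rw [hθa, hx'.2, hFconst x hx]
    · intro he
      have h1 : s0 ∈ {x | x ∈ convexHull ℝ S ∧ θ x = c + t * ψ x0} := ⟨hSP hs0.1, hs0G⟩
      rw [he] at h1
      have := hFconst _ h1
      linarith [hs0.2]
    · intro he
      have h1 : VQ ≤ LinearMap.ker (θ : E →ₗ[ℝ] ℝ) := by
        apply vectorSpan_le_ker (c := c + t * ψ x0)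
        intro x hx
        rw [← he] at hx
        exact hx.2
      have h2 : θ w = 0 := h1 hw1.2
      rw [hθa] at h2
      have h3 : φ w = 0 := hw1.1
      rw [h3, zero_add] at h2
      rcases mul_eq_zero.mp h2 with h4 | h4
      · exact htpos.ne' h4
      · exact hψw h4
  set ψ : StrongDual ℝ E := LinearMap.toContinuousLinearMap ψ0 with hψ
  have hψa : ∀ x, ψ x = ψ0 x := fun x => rfl
  have hψF : ∀ v ∈ VF, ψ v = 0 := by
    intro v hv
    have : ψ0 v ∈ VF.map ψ0 := Submodule.mem_map_of_mem hv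
    rw [hψ2] at this
    rw [hψa]
    simpa using this
  by_cases hp : ∃ s ∈ S, ψ x0 < ψ s
  · exact hconst ψ hψF hψ1 hp
  · by_cases hn : ∃ s ∈ S, ψ s < ψ x0
    · apply hconst (-ψ) (fun v hv => by rw [ContinuousLinearMap.neg_apply, hψF v hv, neg_zero])
        (by rw [ContinuousLinearMap.neg_apply, neg_ne_zero]; exact hψ1)
      obtain ⟨s, hs, hs'⟩ := hn
      exact ⟨s, hs, by rw [ContinuousLinearMap.neg_apply, ContinuousLinearMap.neg_apply]; linarith⟩
    · exfalso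
      push Not at hp hn
      have h1 : VQ ≤ LinearMap.ker (ψ : E →ₗ[ℝ] ℝ) := by
        rw [hVQ, vectorSpan_hull]
        exact vectorSpan_le_ker (c := ψ x0) (fun s hs => le_antisymm (hp s hs) (hn s hs))
      exact hψ1 (h1 hw1.2)

omit [FiniteDimensional ℝ E] in
lemma IsPoly.isPolytope {P : Set E} (hP : IsPoly P) : IsPolytope (dim P) P :=
  ⟨hP.1, hP.2, rfl⟩

omit [FiniteDimensional ℝ E] in
/-- the vertices are faces -/
lemma IsPoly.exposed_vertex {P : Set E} (hP : IsPoly P) {v : E} (hv : v ∈ P.extremePoints ℝ) :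
    IsExposed ℝ P {v} := by
  obtain ⟨hfin, hexp, hPe⟩ := hP.isPolytope.exists_family
  obtain ⟨l, hl⟩ := hexp ⟨v, hv⟩
  have h1 := Exp.face_single (f := fun v : P.extremePoints ℝ => (v : E)) ⟨v, hv⟩ hl
  rw [← hPe] at h1
  have h2 : ∀ x ∈ P, l x ≤ l v := by
    intro x hx
    rw [hPe] at hx
    apply le_of_mem_hull _ hx
    rintro _ ⟨k, rfl⟩
    by_cases h : k = ⟨v, hv⟩
    · rw [h]
    · exact (hl k h).le
  have h3 := face_of_le h2
  have h4 : {x | x ∈ P ∧ l x = l v} = {v} := h1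
  rw [h4] at h3
  exact h3

omit [FiniteDimensional ℝ E] in
lemma IsPoly.subset_hull {P : Set E} (hP : IsPoly P) : P ⊆ convexHull ℝ (P.extremePoints ℝ) := by
  obtain ⟨hfin, hexp, hPe⟩ := hP.isPolytope.exists_family
  rw [Subtype.range_coe] at hPe
  exact hPe.subset

omit [FiniteDimensional ℝ E] in
/-- a nonempty face contains a vertex -/
lemma IsPoly.exists_vertex {P : Set E} (hP : IsPoly P) {F : Set E} (hF : IsExposed ℝ P F)
    (hne : F.Nonempty) : ∃ v ∈ P.extremePoints ℝ, v ∈ F := by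
  obtain ⟨φ, c, hle, hFe⟩ := exposed_data hF hne
  by_contra hcon
  push Not at hcon
  have hlt : ∀ v ∈ P.extremePoints ℝ, φ v < c := by
    intro v hv
    refine lt_of_le_of_ne (hle v (extremePoints_subset hv)) (fun h => hcon v hv ?_)
    rw [hFe]
    exact ⟨extremePoints_subset hv, h⟩
  obtain ⟨x, hx⟩ := hne
  rw [hFe] at hx
  have h1 : convexHull ℝ (P.extremePoints ℝ) ⊆ {x | φ x < c} :=
    convexHull_min hlt (convex_halfSpace_lt (LinearMap.isLinear (φ : E →ₗ[ℝ] ℝ)) c)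
  have h2 : φ x < c := h1 (hP.subset_hull hx.1)
  rw [hx.2] at h2
  exact lt_irrefl _ h2

variable {E' : Type*} [NormedAddCommGroup E'] [NormedSpace ℝ E'] [FiniteDimensional ℝ E']

omit [FiniteDimensional ℝ E] [FiniteDimensional ℝ E'] in
/-- an isomorphism of face lattices maps vertices to vertices -/
lemma iso_vertex {P : Set E} {Q : Set E'} (hQ : IsPoly Q) (e : Face P ≃o Face Q) {v : E}
    (hv : IsExposed ℝ P {v}) : ∃ u ∈ Q.extremePoints ℝ, (e ⟨{v}, hv⟩).1 = {u} := by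
  have hne : (e ⟨{v}, hv⟩).1.Nonempty := by
    rw [nonempty_iff_ne_empty]
    intro h0
    have h1 : e ⟨{v}, hv⟩ ≤ e ⟨∅, isExposed_empty P⟩ := by
      show (e ⟨{v}, hv⟩).1 ⊆ _
      rw [h0]
      exact empty_subset _
    rw [e.le_iff_le] at h1
    have h2 : ({v} : Set E) ⊆ ∅ := h1
    exact absurd (h2 rfl) (notMem_empty v)
  obtain ⟨u, hu, huF⟩ := hQ.exists_vertex (e ⟨{v}, hv⟩).2 hne
  refine ⟨u, hu, ?_⟩
  have hexp := hQ.exposed_vertex hu
  have h1 : (⟨{u}, hexp⟩ : Face Q) ≤ e ⟨{v}, hv⟩ := by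
    show ({u} : Set E') ⊆ _
    rw [singleton_subset_iff]
    exact huF
  have h2 : e.symm ⟨{u}, hexp⟩ ≤ ⟨{v}, hv⟩ := by
    rw [← e.le_iff_le, e.apply_symm_apply]
    exact h1
  have h3 : (e.symm ⟨{u}, hexp⟩).1 ⊆ {v} := h2
  rcases subset_singleton_iff_eq.mp h3 with h4 | h4
  · exfalso
    have h5 : e.symm ⟨{u}, hexp⟩ ≤ e.symm ⟨∅, isExposed_empty Q⟩ := by
      show (e.symm ⟨{u}, hexp⟩).1 ⊆ _
      rw [h4]
      exact empty_subset _
    rw [e.symm.le_iff_le] at h5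
    have h6 : ({u} : Set E') ⊆ ∅ := h5
    exact absurd (h6 rfl) (notMem_empty u)
  · have h5 : e.symm ⟨{u}, hexp⟩ = ⟨{v}, hv⟩ := Subtype.ext h4
    have h6 := congrArg e h5
    rw [e.apply_symm_apply] at h6
    rw [← h6]

omit [FiniteDimensional ℝ E'] in
lemma iso_facet [FiniteDimensional ℝ E'] {P : Set E} {Q : Set E'} (hQ : IsPoly Q)
    (e : Face P ≃o Face Q) {F : Set E} (hF : IsExposed ℝ P F) (hne : F.Nonempty)
    (hd : dim F + 1 = dim P) :
    (e ⟨F, hF⟩).1.Nonempty ∧ dim (e ⟨F, hF⟩).1 + 1 = dim Q := by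
  have hne' : (e ⟨F, hF⟩).1.Nonempty := by
    rw [nonempty_iff_ne_empty]
    intro h0
    have h1 : e ⟨F, hF⟩ ≤ e ⟨∅, isExposed_empty P⟩ := by
      show (e ⟨F, hF⟩).1 ⊆ _
      rw [h0]
      exact empty_subset _
    rw [e.le_iff_le] at h1
    have h2 : F ⊆ ∅ := h1
    obtain ⟨x, hx⟩ := hne
    exact absurd (h2 hx) (notMem_empty x)
  refine ⟨hne', ?_⟩
  have hneQ : (e ⟨F, hF⟩).1 ≠ Q := by
    intro h0
    have h1 : e ⟨P, isExposed_self P⟩ ≤ e ⟨F, hF⟩ := by
      show (e ⟨P, isExposed_self P⟩).1 ⊆ (e ⟨F, hF⟩).1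
      rw [h0]
      exact (e ⟨P, isExposed_self P⟩).2.subset
    rw [e.le_iff_le] at h1
    have h2 : P ⊆ F := h1
    have h3 : F = P := Subset.antisymm hF.subset h2
    rw [h3] at hd
    omega
  have h1 := dim_lt (e ⟨F, hF⟩).2 hne' hneQ
  by_contra hcon
  have h2 : dim (e ⟨F, hF⟩).1 + 1 < dim Q := by omega
  obtain ⟨S, hS, hQS⟩ := hQ.2
  have h3 := (e ⟨F, hF⟩).2
  have h4 : ∃ G, IsExposed ℝ Q G ∧ (e ⟨F, hF⟩).1 ⊆ G ∧ G ≠ (e ⟨F, hF⟩).1 ∧ G ≠ Q := by
    subst hQS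
    exact exists_bigger hS h3 hne' h2
  obtain ⟨G, hG, hFG, hG1, hG2⟩ := h4
  have h5 : (⟨F, hF⟩ : Face P) ≤ e.symm ⟨G, hG⟩ := by
    rw [← e.le_iff_le, e.apply_symm_apply]
    exact hFG
  rcases facet_maximal hF hne hd (e.symm ⟨G, hG⟩).2 h5 with h6 | h6
  · apply hG1
    have h7 : e.symm ⟨G, hG⟩ = ⟨F, hF⟩ := Subtype.ext h6
    rw [← h7, e.apply_symm_apply]
  · apply hG2
    have h7 : e.symm ⟨G, hG⟩ = ⟨P, isExposed_self P⟩ := Subtype.ext h6
    have h8 : e ⟨P, isExposed_self P⟩ = ⟨G, hG⟩ := by rw [← h7, e.apply_symm_apply]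
    have h9 : (⟨Q, isExposed_self Q⟩ : Face Q) ≤ e ⟨P, isExposed_self P⟩ := by
      rw [← e.symm.le_iff_le, e.symm_apply_apply]
      exact (e.symm ⟨Q, isExposed_self Q⟩).2.subset
    rw [h8] at h9
    exact Subset.antisymm hG.subset h9

omit [FiniteDimensional ℝ E] in
lemma isPoly_join {P1 P2 : Set E} (h1 : IsPoly P1) (h2 : IsPoly P2) :
    IsPoly (convexHull ℝ (P1 ∪ P2)) := by
  obtain ⟨S1, hS1, rfl⟩ := h1.2
  obtain ⟨S2, hS2, rfl⟩ := h2.2
  refine ⟨?_, S1 ∪ S2, hS1.union hS2, ?_⟩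
  · obtain ⟨x, hx⟩ := h1.1
    exact ⟨x, subset_convexHull ℝ _ (Or.inl hx)⟩
  · rw [convexHull_convexHull_union_left, convexHull_convexHull_union_right]

/-- In a free join the vertices carry two colours, both used, so that the vertices outside a facet
have the same colour. -/
theorem IsFreeJoin.coloring {P : Set E} (hP : IsPoly P) (h : IsFreeJoin P) :
    ∃ χ : E → Prop, (∃ v ∈ P.extremePoints ℝ, χ v) ∧ (∃ v ∈ P.extremePoints ℝ, ¬ χ v) ∧
      ∀ F, IsExposed ℝ P F → F.Nonempty → dim F + 1 = dim P →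
        (∀ v ∈ P.extremePoints ℝ, v ∉ F → χ v) ∨ (∀ v ∈ P.extremePoints ℝ, v ∉ F → ¬ χ v) := by
  obtain ⟨n, P1, P2, h1, h2, hdim, ⟨e⟩⟩ := h
  set Q := convexHull ℝ (P1 ∪ P2) with hQ
  have hQP : IsPoly Q := isPoly_join h1 h2
  have hdQ : dim Q = dim P1 + dim P2 + 1 := by
    rw [← hdim, hQ]
    unfold dim
    rw [vectorSpan_hull]
  have hc1 : Convex ℝ P1 := by
    obtain ⟨S, _, rfl⟩ := h1.2
    exact convex_convexHull ℝ _
  have hc2 : Convex ℝ P2 := by
    obtain ⟨S, _, rfl⟩ := h2.2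
    exact convex_convexHull ℝ _
  have hext : ∀ u ∈ Q.extremePoints ℝ, u ∈ P1 ∨ u ∈ P2 := by
    intro u hu
    have h3 : u ∈ P1 ∪ P2 := extremePoints_convexHull_subset hu
    exact h3
  -- every vertex of Q comes from a vertex of P
  have hback : ∀ u ∈ Q.extremePoints ℝ, ∃ v ∈ P.extremePoints ℝ, ∃ hv : IsExposed ℝ P {v},
      (e ⟨{v}, hv⟩).1 = {u} := by
    intro u hu
    obtain ⟨v, hv, hve⟩ := iso_vertex hP e.symm (hQP.exposed_vertex hu)
    refine ⟨v, hv, hP.exposed_vertex hv, ?_⟩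
    have h3 : (⟨{v}, hP.exposed_vertex hv⟩ : Face P) = e.symm ⟨{u}, hQP.exposed_vertex hu⟩ :=
      Subtype.ext hve.symm
    rw [h3, e.apply_symm_apply]
  refine ⟨fun v => ∃ hv : IsExposed ℝ P {v}, (e ⟨{v}, hv⟩).1 ⊆ P1, ?_, ?_, ?_⟩
  · by_contra hcon
    push Not at hcon
    have h3 : ∀ u ∈ Q.extremePoints ℝ, u ∈ P2 := by
      intro u hu
      rcases hext u hu with h4 | h4
      · exfalso
        obtain ⟨v, hv, hv', hve⟩ := hback u hu
        exact hcon v hv hv' (by rw [hve, singleton_subset_iff]; exact h4)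
      · exact h4
    have h5 : Q ⊆ P2 := hQP.subset_hull.trans (convexHull_min h3 hc2)
    have h6 : dim Q ≤ dim P2 := Submodule.finrank_mono (vectorSpan_mono ℝ h5)
    omega
  · by_contra hcon
    push Not at hcon
    have h3 : ∀ u ∈ Q.extremePoints ℝ, u ∈ P1 := by
      intro u hu
      obtain ⟨v, hv, hv', hve⟩ := hback u hu
      obtain ⟨hv'', h4⟩ := hcon v hv
      rw [hve, singleton_subset_iff] at h4
      exact h4
    have h5 : Q ⊆ P1 := hQP.subset_hull.trans (convexHull_min h3 hc1)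
    have h6 : dim Q ≤ dim P1 := Submodule.finrank_mono (vectorSpan_mono ℝ h5)
    omega
  · intro F hF hne hd
    obtain ⟨hne', hd'⟩ := iso_facet hQP e hF hne hd
    have key : ∀ v ∈ P.extremePoints ℝ, v ∉ F → ∀ hv : IsExposed ℝ P {v}, ∃ u,
        (e ⟨{v}, hv⟩).1 = {u} ∧ u ∈ Q.extremePoints ℝ ∧ u ∉ (e ⟨F, hF⟩).1 := by
      intro v _ hvF hv
      obtain ⟨u, hu, hue⟩ := iso_vertex hQP e hv
      refine ⟨u, hue, hu, fun hmem => hvF ?_⟩
      have h3 : e ⟨{v}, hv⟩ ≤ e ⟨F, hF⟩ := by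
        show (e ⟨{v}, hv⟩).1 ⊆ _
        rw [hue, singleton_subset_iff]
        exact hmem
      rw [e.le_iff_le] at h3
      have h4 : ({v} : Set E) ⊆ F := h3
      exact h4 rfl
    rcases join_facet hc1 hc2 h1.1 h2.1 (N := dim Q) hdQ.symm (e ⟨F, hF⟩).2 hd' hne' with h3 | h3
    · right
      rintro v hv hvF ⟨hv', h4⟩
      obtain ⟨u, hue, hu, hun⟩ := key v hv hvF hv'
      rw [hue, singleton_subset_iff] at h4
      exact hun (h3 h4)
    · left
      intro v hv hvF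
      obtain ⟨u, hue, hu, hun⟩ := key v hv hvF (hP.exposed_vertex hv)
      refine ⟨hP.exposed_vertex hv, ?_⟩
      rw [hue, singleton_subset_iff]
      rcases hext u hu with h4 | h4
      · exact h4
      · exact absurd (h3 h4) hun

end Pool.Agent.X157.Join
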