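import Pool.Agent.W862.Kom.Action
import Pool.Agent.W862.Kom.AllP
import Pool.Agent.H422R3.Kom.Final
import Mathlib.LinearAlgebra.FreeModule.PID
import Mathlib.GroupTheory.Finiteness

/-!
# Group algebras of infinite abelian groups: finite supports
-/

namespace Pool.Agent.X157.KInf

open Finset

/-- torsion-free or of prime exponent -/
def Good (G : Type) [AddCommGroup G] : Prop :=
  (∀ (n : ℕ) (a : G), n ≠ 0 → n • a = 0 → a = 0) ∨ ∃ p : ℕ, p.Prime ∧ ∀ a : G, p • a = 0

lemma fin_equiv (p : ℕ) [Fact p.Prime] (V : Type) [AddCommGroup V] [Module (ZMod p) V]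
    [Module.Finite ℤ V] : ∃ d, Nonempty (V ≃+ (Fin d → ZMod p)) :=
  have : Module.Finite (ZMod p) V := Module.Finite.of_restrictScalars_finite ℤ (ZMod p) V
  ⟨_, ⟨(Module.finBasis (ZMod p) V).equivFun.toAddEquiv⟩⟩

lemma exists_hom {G : Type} [AddCommGroup G] (hG : Good G) (S : Finset G) (Γ : AddSubgroup G)
    (hΓ : Γ = AddSubgroup.closure (S : Set G)) :
    ∃ p : ℕ, p.Prime ∧ ∃ (d : ℕ) (π : Γ →+ (Fin d → ZMod p)),
      ∀ s t : Γ, (s : G) ∈ S → (t : G) ∈ S → π s = π t → s = t := by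
  classical
  have hSΓ : ∀ s ∈ S, s ∈ Γ := fun s hs => by
    rw [hΓ]; exact AddSubgroup.subset_closure hs
  have hfg : AddGroup.FG Γ := by rw [hΓ]; exact AddGroup.closure_finset_fg S
  have hfin : Module.Finite ℤ Γ := Module.Finite.iff_addGroup_fg.mpr hfg
  rcases hG with hG | ⟨p, hp, hG⟩
  · have htf : Module.IsTorsionFree ℤ Γ := by
      apply Module.IsTorsionFree.of_smul_eq_zero
      intro r m hrm
      by_contra hcon
      push Not at hcon
      have h1 : (r : ℤ) • (m : G) = 0 := by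
        have := congrArg (Subtype.val) hrm
        simpa using this
      have h2 : (r.natAbs) • (m : G) = 0 := by
        rcases Int.natAbs_eq r with h | h
        · rw [h] at h1
          simpa using h1
        · rw [h] at h1
          simpa using h1
      have h3 := hG r.natAbs (m : G) (by simpa using hcon.1) h2
      exact hcon.2 (Subtype.ext h3)
    have hfree : Module.Free ℤ Γ := Module.free_of_finite_type_torsion_free'
    let b := Module.finBasis ℤ Γ
    set d := Module.finrank ℤ Γ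
    -- a bound
    let F : Finset ((Γ × Γ) × Fin d) := (((S.attach.image fun s : {x // x ∈ S} =>
      (⟨s.1, hSΓ s.1 s.2⟩ : Γ)) ×ˢ (S.attach.image fun s : {x // x ∈ S} =>
      (⟨s.1, hSΓ s.1 s.2⟩ : Γ))) ×ˢ univ)
    obtain ⟨M, hM⟩ : ∃ M : ℕ, ∀ q ∈ F, (b.repr (q.1.1 - q.1.2) q.2).natAbs ≤ M :=
      ⟨F.sup fun q => (b.repr (q.1.1 - q.1.2) q.2).natAbs, fun q hq =>
        Finset.le_sup (f := fun q => (b.repr (q.1.1 - q.1.2) q.2).natAbs) hq⟩
    obtain ⟨p, hpM, hp⟩ := Nat.exists_infinite_primes (M + 1)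
    refine ⟨p, hp, d, ?_⟩
    let π : Γ →+ (Fin d → ZMod p) :=
      { toFun := fun g i => ((b.repr g i : ℤ) : ZMod p)
        map_zero' := by funext i; simp
        map_add' := fun x y => by funext i; simp }
    refine ⟨π, fun s t hs ht hst => ?_⟩
    have hsF : ∀ i : Fin d, ((s, t), i) ∈ F := by
      intro i
      simp only [F, mem_product, mem_image, mem_attach, true_and, mem_univ, and_true]
      exact ⟨⟨⟨s, hs⟩, rfl⟩, ⟨⟨t, ht⟩, rfl⟩⟩
    have h0 : b.repr (s - t) = 0 := by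
      ext i
      have h1 : ((b.repr s i : ℤ) : ZMod p) = ((b.repr t i : ℤ) : ZMod p) := congrFun hst i
      have h2 : (((b.repr (s - t) i : ℤ)) : ZMod p) = 0 := by
        rw [map_sub, Finsupp.sub_apply, Int.cast_sub, h1, sub_self]
      rw [ZMod.intCast_zmod_eq_zero_iff_dvd] at h2
      have h3 := hM _ (hsF i)
      have h4 : (b.repr (s - t) i).natAbs < p := by
        refine lt_of_le_of_lt h3 (by omega)
      have h5 := Int.eq_zero_of_dvd_of_natAbs_lt_natAbs h2 (by simpa using h4)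
      simpa using h5
    have h1 : s - t = 0 := (LinearEquiv.map_eq_zero_iff b.repr).mp h0
    exact sub_eq_zero.mp h1
  · have : Fact p.Prime := ⟨hp⟩
    have hexp : ∀ a : Γ, p • a = 0 := fun a => Subtype.ext (by simpa using hG (a : G))
    obtain ⟨d, ⟨e⟩⟩ := @fin_equiv p _ Γ _ (AddCommGroup.zmodModule hexp) hfin
    exact ⟨p, hp, d, e.toAddMonoidHom, fun s t _ _ hst => e.injective hst⟩

/-- one orbit, all primes -/
lemma allP (p : ℕ) [hpf : Fact p.Prime] (d : ℕ) (R : Type) [Fintype R]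
    (a : R → (Fin d → ZMod p) → ℝ) (ha : ∑ ρ, ∑ i, a ρ i ^ 2 ≤ 1) :
    ∃ x : (Fin d → ZMod p) → ℝ, (∀ i, x i = 1 ∨ x i = -1) ∧
      ∀ ρ g, |∑ i, a ρ (g - i) * x i| ≤ 2 ^ 666 := by
  by_cases hp2 : p = 2
  · subst hp2
    let H := Multiplicative (Fin d → ZMod 2)
    have hH2 : ∀ a : H, a * a = 1 := by
      intro a
      apply Multiplicative.toAdd.injective
      funext i
      change (Multiplicative.toAdd a) i + (Multiplicative.toAdd a) i = 0
      exact CharTwo.add_self_eq_zero _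
    let _ : MulAction H (R × H) :=
      { smul := fun h q => (q.1, h * q.2)
        one_smul := fun q => by
          change (q.1, 1 * q.2) = q
          rw [one_mul]
        mul_smul := fun h h' q => by
          change (q.1, (h * h') * q.2) = (q.1, h * (h' * q.2))
          rw [mul_assoc] }
    let _ : Fintype (Multiplicative (Fin d → ZMod 2)) := Fintype.ofEquiv _ Multiplicative.ofAdd
    obtain ⟨⟨ε, hε, hb⟩, _⟩ := Pool.Agent.H422R3.Kom.final (H := H) (R := R × H) (C := H) hH2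
      (fun h q hq => by
        have h1 : h * q.2 = q.2 := congrArg Prod.snd hq
        exact mul_eq_right.mp h1)
      (fun h c hc => mul_eq_right.mp hc)
      (fun q c => a q.1 (Multiplicative.toAdd q.2 - Multiplicative.toAdd c))
      (fun h q c => by
        change a q.1 (Multiplicative.toAdd (h * q.2) - Multiplicative.toAdd (h * c)) = _
        rw [toAdd_mul, toAdd_mul, add_sub_add_left_eq_sub])
      (fun c => by
        rw [Fintype.sum_prod_type]
        refine le_trans (le_of_eq ?_) ha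
        refine Finset.sum_congr rfl fun ρ _ => ?_
        exact Fintype.sum_equiv ((Multiplicative.toAdd).trans
          (Equiv.subRight (Multiplicative.toAdd c))) _ _ fun g => rfl)
    have hcard : Nat.card (MulAction.orbitRel.Quotient H H) = 1 := by
      rw [Nat.card_eq_one_iff_unique]
      refine ⟨⟨fun x y => ?_⟩, ⟨Quotient.mk'' 1⟩⟩
      refine Quotient.inductionOn₂' x y fun x y => ?_
      apply Quotient.sound'
      rw [MulAction.orbitRel_apply]
      exact ⟨x * y⁻¹, by simp⟩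
    refine ⟨fun i => ε (Multiplicative.ofAdd i), fun i => hε _, fun ρ g => ?_⟩
    have h1 := hb (ρ, Multiplicative.ofAdd g)
    rw [hcard, Nat.cast_one, Real.sqrt_one] at h1
    have h2 : ∑ i, a ρ (g - i) * ε (Multiplicative.ofAdd i) =
        ∑ c : H, a (ρ, Multiplicative.ofAdd g).1 (Multiplicative.toAdd
          (ρ, Multiplicative.ofAdd g).2 - Multiplicative.toAdd c) * ε c :=
      Fintype.sum_equiv Multiplicative.ofAdd _ _ fun i => rfl
    rw [h2]
    exact h1.trans (one_le_pow₀ (by norm_num))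
  · exact Pool.Agent.W862.Kom.oddP hp2 a ha

/-- one orbit, finitely many row types, finite supports -/
theorem one_finite {G : Type} [AddCommGroup G] (hG : Good G) {R : Type} [Fintype R]
    (a : R → G → ℝ) (S : Finset G) (ha : ∑ ρ, ∑ s ∈ S, a ρ s ^ 2 ≤ 1) :
    ∃ x : G → ℝ, (∀ g, x g = 1 ∨ x g = -1) ∧
      ∀ ρ g, |∑ s ∈ S, a ρ s * x (g - s)| ≤ 2 ^ 666 := by
  classical
  obtain ⟨Γ, hΓ⟩ : ∃ Γ : AddSubgroup G, Γ = AddSubgroup.closure (S : Set G) := ⟨_, rfl⟩
  obtain ⟨p, hp, d, π, hπ⟩ := exists_hom hG S Γ hΓ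
  have : Fact p.Prime := ⟨hp⟩
  have hSΓ : ∀ s ∈ S, s ∈ Γ := fun s hs => by
    rw [hΓ]; exact AddSubgroup.subset_closure hs
  -- the quotient functions
  set a' : R → (Fin d → ZMod p) → ℝ := fun ρ t =>
    ∑ s : {x // x ∈ S}, if π ⟨s.1, hSΓ s.1 s.2⟩ = t then a ρ s.1 else 0 with ha'
  have hinj : ∀ s t : {x // x ∈ S}, π ⟨s.1, hSΓ s.1 s.2⟩ = π ⟨t.1, hSΓ t.1 t.2⟩ → s = t := by
    intro s t hst
    have := hπ ⟨s.1, hSΓ s.1 s.2⟩ ⟨t.1, hSΓ t.1 t.2⟩ s.2 t.2 hst
    exact Subtype.ext (congrArg (Subtype.val : Γ → G) this)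
  have hnorm : ∑ ρ, ∑ t, a' ρ t ^ 2 ≤ 1 := by
    refine le_trans (le_of_eq ?_) ha
    refine Finset.sum_congr rfl fun ρ _ => ?_
    have h1 : ∀ t, a' ρ t ^ 2 =
        ∑ s : {x // x ∈ S}, if π ⟨s.1, hSΓ s.1 s.2⟩ = t then a ρ s.1 ^ 2 else 0 := by
      intro t
      by_cases ht : ∃ s : {x // x ∈ S}, π ⟨s.1, hSΓ s.1 s.2⟩ = t
      · obtain ⟨s, hs⟩ := ht
        have hother : ∀ s' : {x // x ∈ S}, s' ≠ s → π ⟨s'.1, hSΓ s'.1 s'.2⟩ ≠ t := by
          intro s' hne heq
          exact hne (hinj s' s (heq.trans hs.symm))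
        rw [ha']
        simp only []
        rw [Finset.sum_eq_single s (fun s' _ hne => if_neg (hother s' hne))
          (fun h => absurd (Finset.mem_univ _) h),
          Finset.sum_eq_single s (fun s' _ hne => if_neg (hother s' hne))
          (fun h => absurd (Finset.mem_univ _) h), if_pos hs, if_pos hs]
      · push Not at ht
        rw [ha']
        simp only []
        rw [Finset.sum_eq_zero (fun s _ => if_neg (ht s)),
          Finset.sum_eq_zero (fun s _ => if_neg (ht s))]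
        norm_num
    simp_rw [h1]
    rw [Finset.sum_comm]
    rw [← Finset.sum_attach S]
    refine Finset.sum_congr rfl fun s _ => ?_
    rw [Finset.sum_ite_eq, if_pos (Finset.mem_univ _)]
  obtain ⟨x', hx', hb⟩ := allP p d R a' hnorm
  -- representatives of the cosets
  let rep : G → G := fun g => Quotient.out (QuotientAddGroup.mk g : G ⧸ Γ)
  have hrep : ∀ g, g - rep g ∈ Γ := by
    intro g
    have h1 : (QuotientAddGroup.mk (rep g) : G ⧸ Γ) = QuotientAddGroup.mk g :=
      Quotient.out_eq' _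
    have h2 := QuotientAddGroup.eq.mp h1
    rwa [neg_add_eq_sub] at h2
  have hrep2 : ∀ g s, s ∈ Γ → rep (g - s) = rep g := by
    intro g s hs
    have h1 : (QuotientAddGroup.mk (g - s) : G ⧸ Γ) = QuotientAddGroup.mk g := by
      rw [QuotientAddGroup.eq]
      have : -(g - s) + g = s := by abel
      rwa [this]
    change Quotient.out (QuotientAddGroup.mk (g - s) : G ⧸ Γ) = _
    rw [h1]
  refine ⟨fun g => x' (π ⟨g - rep g, hrep g⟩), fun g => hx' _, fun ρ g => ?_⟩
  have h1 := hb ρ (π ⟨g - rep g, hrep g⟩)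
  refine le_trans (le_of_eq ?_) h1
  congr 1
  set u := π ⟨g - rep g, hrep g⟩ with hu
  have h2 : ∀ s : {x // x ∈ S}, x' (π ⟨(g - s.1) - rep (g - s.1), hrep (g - s.1)⟩) =
      x' (u - π ⟨s.1, hSΓ s.1 s.2⟩) := by
    intro s
    congr 1
    rw [hu, ← map_sub]
    congr 1
    apply Subtype.ext
    change (g - s.1) - rep (g - s.1) = (g - rep g) - s.1
    rw [hrep2 g s.1 (hSΓ s.1 s.2)]
    abel
  rw [← Finset.sum_attach S]
  have h3 : ∑ s ∈ S.attach, a ρ s.1 * x' (π ⟨(g - s.1) - rep (g - s.1), hrep (g - s.1)⟩) =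
      ∑ s : {x // x ∈ S}, a ρ s.1 * x' (u - π ⟨s.1, hSΓ s.1 s.2⟩) :=
    Finset.sum_congr rfl fun s _ => by rw [h2 s]
  rw [h3]
  have h4 : ∀ i, a' ρ (u - i) * x' i = ∑ s : {x // x ∈ S},
      if π ⟨s.1, hSΓ s.1 s.2⟩ = u - i then a ρ s.1 * x' i else 0 := by
    intro i
    rw [ha']
    simp only []
    rw [Finset.sum_mul]
    refine Finset.sum_congr rfl fun s _ => ?_
    split_ifs <;> simp
  simp_rw [h4]
  rw [Finset.sum_comm]
  refine Finset.sum_congr rfl fun s _ => ?_
  have h5 : ∀ i, (π ⟨s.1, hSΓ s.1 s.2⟩ = u - i) ↔ (u - π ⟨s.1, hSΓ s.1 s.2⟩ = i) := by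
    intro i
    constructor
    · intro h; rw [h]; abel
    · intro h; rw [← h]; abel
  simp_rw [h5]
  rw [Finset.sum_ite_eq, if_pos (Finset.mem_univ _)]

end Pool.Agent.X157.KInf
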