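import Pool.Agent.X157.KInf
import Mathlib.Order.Filter.Ultrafilter.Basic
import Mathlib.Topology.Algebra.InfiniteSum.Real
import Mathlib.Analysis.Normed.Group.InfiniteSum

/-!
# Group algebras of infinite abelian groups: summable rows
-/

namespace Pool.Agent.X157.KInf

open Finset Filter

theorem one_trunc {G : Type} [AddCommGroup G] (hG : Good G) {R : Type}
    (a : R → G → ℝ) (hs : Summable (fun q : R × G => a q.1 q.2 ^ 2))
    (hn : ∑' q : R × G, a q.1 q.2 ^ 2 ≤ 1) (F : Finset (R × G)) [DecidableEq R] [DecidableEq G] :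
    ∃ x : G → ℝ, (∀ g, x g = 1 ∨ x g = -1) ∧
      ∀ ρ g, |∑ s ∈ F.image Prod.snd, (if (ρ, s) ∈ F then a ρ s else 0) * x (g - s)| ≤
        2 ^ 666 := by
  set a' : {ρ // ρ ∈ F.image Prod.fst} → G → ℝ := fun ρ s =>
    if (ρ.1, s) ∈ F then a ρ.1 s else 0 with ha'
  have hnorm : ∑ ρ, ∑ s ∈ F.image Prod.snd, a' ρ s ^ 2 ≤ 1 := by
    refine le_trans (le_of_eq ?_) ((hs.sum_le_tsum F fun q _ => sq_nonneg _).trans hn)
    have h1 : ∑ ρ, ∑ s ∈ F.image Prod.snd, a' ρ s ^ 2 =
        ∑ ρ ∈ F.image Prod.fst, ∑ s ∈ F.image Prod.snd,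
          (if (ρ, s) ∈ F then a ρ s ^ 2 else 0) := by
      rw [← Finset.sum_attach (F.image Prod.fst)]
      refine Finset.sum_congr rfl fun ρ _ => Finset.sum_congr rfl fun s _ => ?_
      rw [ha']
      simp only []
      split_ifs <;> simp
    rw [h1, ← Finset.sum_product (s := F.image Prod.fst) (t := F.image Prod.snd)
      (f := fun q => if (q.1, q.2) ∈ F then a q.1 q.2 ^ 2 else 0)]
    rw [← Finset.sum_filter]
    refine Finset.sum_congr ?_ fun _ _ => rfl
    ext q
    simp only [mem_filter, mem_product, mem_image]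
    constructor
    · rintro ⟨_, h⟩; exact h
    · intro h; exact ⟨⟨⟨q, h, rfl⟩, ⟨q, h, rfl⟩⟩, h⟩
  obtain ⟨x, hx, hb⟩ := one_finite hG a' (F.image Prod.snd) hnorm
  refine ⟨x, hx, fun ρ g => ?_⟩
  by_cases hρ : ρ ∈ F.image Prod.fst
  · exact hb ⟨ρ, hρ⟩ g
  · have h0 : ∑ s ∈ F.image Prod.snd, (if (ρ, s) ∈ F then a ρ s else 0) * x (g - s) = 0 := by
      refine Finset.sum_eq_zero fun s _ => ?_
      rw [if_neg, zero_mul]
      intro h
      exact hρ (Finset.mem_image.mpr ⟨_, h, rfl⟩)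
    rw [h0, abs_zero]
    positivity

theorem one_inf {G : Type} [AddCommGroup G] (hG : Good G) {R : Type}
    (a : R → G → ℝ) (hs : Summable (fun q : R × G => a q.1 q.2 ^ 2))
    (hn : ∑' q : R × G, a q.1 q.2 ^ 2 ≤ 1) (hrow : ∀ ρ, Summable (fun i => |a ρ i|)) :
    ∃ x : G → ℝ, (∀ g, x g = 1 ∨ x g = -1) ∧
      ∀ ρ g, |∑' s, a ρ s * x (g - s)| ≤ 2 ^ 666 := by
  classical
  choose X hX hXb using one_trunc hG a hs hn
  let U : Ultrafilter (Finset (R × G)) := Ultrafilter.of atTop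
  have hU : (U : Filter (Finset (R × G))) ≤ atTop := Ultrafilter.of_le _
  let x : G → ℝ := fun g => if ∀ᶠ F in (U : Filter (Finset (R × G))), X F g = 1 then 1 else -1
  have hx : ∀ g, x g = 1 ∨ x g = -1 := by
    intro g
    by_cases h : ∀ᶠ F in (U : Filter (Finset (R × G))), X F g = 1
    · left; exact if_pos h
    · right; exact if_neg h
  have hev : ∀ g, ∀ᶠ F in (U : Filter (Finset (R × G))), X F g = x g := by
    intro g
    by_cases h : ∀ᶠ F in (U : Filter (Finset (R × G))), X F g = 1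
    · have h1 : x g = 1 := if_pos h
      rw [h1]; exact h
    · have h1 : x g = -1 := if_neg h
      rw [h1]
      have h2 := Ultrafilter.eventually_not.mpr h
      filter_upwards [h2] with F hF
      exact (hX F g).resolve_left hF
  refine ⟨x, hx, fun ρ g => ?_⟩
  have habs : ∀ s, |a ρ s * x (g - s)| = |a ρ s| := by
    intro s
    rw [abs_mul]
    rcases hx (g - s) with h | h <;> rw [h] <;> simp
  have habsF : ∀ F s, |a ρ s * X F (g - s)| = |a ρ s| := by
    intro F s
    rw [abs_mul]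
    rcases hX F (g - s) with h | h <;> rw [h] <;> simp
  have hsum : Summable fun s => a ρ s * x (g - s) := by
    refine Summable.of_abs ?_
    simp_rw [habs]
    exact hrow ρ
  refine le_of_forall_pos_le_add fun ε hε => ?_
  -- a large finite set
  have hT1 : ∀ᶠ T in (atTop : Filter (Finset G)),
      |∑ s ∈ T, a ρ s * x (g - s) - ∑' s, a ρ s * x (g - s)| < ε / 2 := by
    have := hsum.hasSum
    rw [HasSum, Metric.tendsto_nhds] at this
    simpa [Real.dist_eq] using this (ε / 2) (by positivity)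
  obtain ⟨T0, hT0⟩ := summable_iff_vanishing_norm.mp (hrow ρ) (ε / 2) (by positivity)
  obtain ⟨T, hTa, hTb⟩ := (hT1.and (eventually_ge_atTop T0)).exists
  have hF1 : ∀ᶠ F in (U : Filter (Finset (R × G))), T.image (fun s => (ρ, s)) ⊆ F :=
    hU (eventually_ge_atTop (T.image fun s => (ρ, s)))
  have hF2 : ∀ᶠ F in (U : Filter (Finset (R × G))), ∀ s ∈ T, X F (g - s) = x (g - s) :=
    (Filter.eventually_all_finset T).mpr fun s _ => hev (g - s)
  obtain ⟨F, hFa, hFb⟩ := (hF1.and hF2).exists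
  have h1 := hXb F ρ g
  have hTsub : T ⊆ F.image Prod.snd := by
    intro s hs'
    have := hFa (Finset.mem_image_of_mem (fun s => (ρ, s)) hs')
    exact Finset.mem_image.mpr ⟨_, this, rfl⟩
  rw [← Finset.sum_sdiff hTsub] at h1
  have h2 : ∑ s ∈ T, (if (ρ, s) ∈ F then a ρ s else 0) * X F (g - s) =
      ∑ s ∈ T, a ρ s * x (g - s) := by
    refine Finset.sum_congr rfl fun s hs' => ?_
    rw [if_pos (hFa (Finset.mem_image_of_mem (fun s => (ρ, s)) hs')), hFb s hs']
  rw [h2] at h1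
  have h3 : |∑ s ∈ F.image Prod.snd \ T, (if (ρ, s) ∈ F then a ρ s else 0) * X F (g - s)| <
      ε / 2 := by
    refine lt_of_le_of_lt ?_ (hT0 (F.image Prod.snd \ T) ?_)
    · refine le_trans ?_ (le_abs_self _)
      refine (Finset.abs_sum_le_sum_abs _ _).trans (Finset.sum_le_sum fun s _ => ?_)
      split_ifs
      · exact (habsF F s).le
      · simp
    · exact Finset.disjoint_of_subset_right hTb Finset.sdiff_disjoint
  have h4 := abs_sub_abs_le_abs_sub (∑' s, a ρ s * x (g - s)) (∑ s ∈ T, a ρ s * x (g - s))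
  rw [abs_sub_comm] at h4
  have h5 := abs_sub_abs_le_abs_sub (∑ s ∈ T, a ρ s * x (g - s))
    (-∑ s ∈ F.image Prod.snd \ T, (if (ρ, s) ∈ F then a ρ s else 0) * X F (g - s))
  rw [sub_neg_eq_add, add_comm (∑ s ∈ T, a ρ s * x (g - s)), abs_neg] at h5
  linarith

end Pool.Agent.X157.KInf
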