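import Mathlib

/-!
# Straight-line drawings with few crossings: from integers to the plane

Definitions of drawings and of `k`-planar graphs, and a criterion for straight-line drawings with
integer coordinates.
-/

set_option autoImplicit false

namespace Pool.Agent.X157.KP

open Set

/-- A drawing of the graph `G` in the plane: distinct points for the vertices, and for every edge a
simple arc (an injective continuous image of `[0,1]`) which joins the two endpoints and contains no
vertex in its interior. -/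
structure Drawing {V : Type} (G : SimpleGraph V) where
  pos : V → ℝ × ℝ
  arc : Sym2 V → unitInterval → ℝ × ℝ
  pos_inj : Function.Injective pos
  arc_cont : ∀ e ∈ G.edgeSet, Continuous (arc e)
  arc_inj : ∀ e ∈ G.edgeSet, Function.Injective (arc e)
  arc_ends : ∀ a b : V, G.Adj a b →
    (arc s(a, b) 0 = pos a ∧ arc s(a, b) 1 = pos b) ∨
    (arc s(a, b) 0 = pos b ∧ arc s(a, b) 1 = pos a)
  arc_avoids : ∀ e ∈ G.edgeSet, ∀ t : unitInterval, t ≠ 0 → t ≠ 1 → ∀ v : V, arc e t ≠ pos v

/-- The interior of the arc of `e`. -/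
def Drawing.inner {V : Type} {G : SimpleGraph V} (D : Drawing G) (e : Sym2 V) : Set (ℝ × ℝ) :=
  D.arc e '' {t | t ≠ 0 ∧ t ≠ 1}

/-- The crossings of the edge `e`: the pairs `(f, x)` of another edge `f` and a common interior
point `x` of the arcs of `e` and `f`. -/
def Drawing.crossings {V : Type} {G : SimpleGraph V} (D : Drawing G) (e : Sym2 V) :
    Set (Sym2 V × (ℝ × ℝ)) :=
  {q | q.1 ∈ G.edgeSet ∧ q.1 ≠ e ∧ q.2 ∈ D.inner e ∧ q.2 ∈ D.inner q.1}

/-- `G` is `k`-planar: it has a drawing in which every edge has at most `k` crossings. -/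
def IsKPlanar (k : ℕ) {V : Type} (G : SimpleGraph V) : Prop :=
  ∃ D : Drawing G, ∀ e ∈ G.edgeSet, (D.crossings e).encard ≤ k

/-- Restriction of a drawing to a subgraph on fewer vertices. -/
theorem IsKPlanar.comap {k : ℕ} {V W : Type} {G : SimpleGraph V} (h : IsKPlanar k G)
    (f : W → V) (hf : Function.Injective f) : IsKPlanar k (G.comap f) := by
  obtain ⟨D, hD⟩ := h
  have hmem : ∀ e ∈ (G.comap f).edgeSet, Sym2.map f e ∈ G.edgeSet := by
    intro e he
    induction e using Sym2.ind with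
    | _ a b => simpa using he
  let D' : Drawing (G.comap f) :=
    { pos := fun w => D.pos (f w)
      arc := fun e => D.arc (Sym2.map f e)
      pos_inj := D.pos_inj.comp hf
      arc_cont := fun e he => D.arc_cont _ (hmem e he)
      arc_inj := fun e he => D.arc_inj _ (hmem e he)
      arc_ends := fun a b hab => by
        have := D.arc_ends (f a) (f b) (by simpa using hab)
        simpa using this
      arc_avoids := fun e he t h0 h1 v => D.arc_avoids _ (hmem e he) t h0 h1 (f v) }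
  refine ⟨D', fun e he => ?_⟩
  refine le_trans ?_ (hD _ (hmem e he))
  have hinj : Function.Injective (fun q : Sym2 W × (ℝ × ℝ) => (Sym2.map f q.1, q.2)) := by
    intro p q hpq
    simp only [Prod.mk.injEq] at hpq
    exact Prod.ext (Sym2.map.injective hf hpq.1) hpq.2
  rw [← hinj.encard_image]
  refine Set.encard_le_encard ?_
  rintro _ ⟨q, ⟨h1, h2, h3, h4⟩, rfl⟩
  exact ⟨hmem _ h1, fun h => h2 (Sym2.map.injective hf h), h3, h4⟩

/-- cast of an integer point -/
def toR (a : ℤ × ℤ) : ℝ × ℝ := ((a.1 : ℝ), (a.2 : ℝ))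

lemma toR_inj : Function.Injective toR := by
  intro a b h
  simp only [toR, Prod.mk.injEq, Int.cast_inj] at h
  exact Prod.ext h.1 h.2

/-- The orientation determinant of three points. -/
def cr (a b c : ℤ × ℤ) : ℤ := (b.1 - a.1) * (c.2 - a.2) - (b.2 - a.2) * (c.1 - a.1)

/-- The scalar product of `b - a` and `c - a`. -/
def dp (a b c : ℤ × ℤ) : ℤ := (b.1 - a.1) * (c.1 - a.1) + (b.2 - a.2) * (c.2 - a.2)

/-- The open segments `ab` and `cd` overlap on a common line. -/
def Ovl (a b c d : ℤ × ℤ) : Prop :=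
  cr a b c = 0 ∧ cr a b d = 0 ∧ max 0 (min (dp a b c) (dp a b d)) <
    min (dp a b b) (max (dp a b c) (dp a b d))

/-- The segments cross at one interior point. -/
def Crs (a b c d : ℤ × ℤ) : Prop := cr a b c * cr a b d < 0 ∧ cr c d a * cr c d b < 0

/-- The point `v` is on the open segment `ab`. -/
def OnS (a b v : ℤ × ℤ) : Prop := cr a b v = 0 ∧ 0 < dp a b v ∧ dp a b v < dp a b b

lemma mem_openSegment {a b : ℤ × ℤ} {x : ℝ × ℝ} :
    x ∈ openSegment ℝ (toR a) (toR b) ↔ ∃ t : ℝ, 0 < t ∧ t < 1 ∧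
      x.1 = (1 - t) * a.1 + t * b.1 ∧ x.2 = (1 - t) * a.2 + t * b.2 := by
  rw [openSegment_eq_image]
  constructor
  · rintro ⟨t, ⟨h0, h1⟩, rfl⟩
    exact ⟨t, h0, h1, by simp [toR], by simp [toR]⟩
  · rintro ⟨t, h0, h1, e1, e2⟩
    refine ⟨t, ⟨h0, h1⟩, ?_⟩
    refine Prod.ext ?_ ?_
    · simp [toR, e1]
    · simp [toR, e2]

/-- Two integer segments with a common interior point overlap or cross. -/
lemma meet {a b c d : ℤ × ℤ} {x : ℝ × ℝ} (h1 : x ∈ openSegment ℝ (toR a) (toR b))
    (h2 : x ∈ openSegment ℝ (toR c) (toR d)) (hab : a ≠ b) (hcd : c ≠ d) :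
    Ovl a b c d ∨ Crs a b c d := by
  obtain ⟨t, t0, t1, ht1, ht2⟩ := mem_openSegment.1 h1
  obtain ⟨u, u0, u1, hu1, hu2⟩ := mem_openSegment.1 h2
  have e1 : (1 - t) * (a.1 : ℝ) + t * b.1 = (1 - u) * c.1 + u * d.1 := by rw [← ht1, hu1]
  have e2 : (1 - t) * (a.2 : ℝ) + t * b.2 = (1 - u) * c.2 + u * d.2 := by rw [← ht2, hu2]
  have k1 : (1 - u) * (cr a b c : ℝ) + u * (cr a b d : ℝ) = 0 := by
    simp only [cr]; push_cast
    linear_combination ((b.2 : ℝ) - a.2) * e1 - ((b.1 : ℝ) - a.1) * e2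
  have k2 : (1 - t) * (cr c d a : ℝ) + t * (cr c d b : ℝ) = 0 := by
    simp only [cr]; push_cast
    linear_combination ((d.1 : ℝ) - c.1) * e2 - ((d.2 : ℝ) - c.2) * e1
  by_cases hz : cr a b c = 0
  · have hz' : cr a b d = 0 := by
      rw [hz] at k1
      have : (cr a b d : ℝ) = 0 := by
        have : u * (cr a b d : ℝ) = 0 := by simpa using k1
        exact (mul_eq_zero.1 this).resolve_left u0.ne'
      exact_mod_cast this
    left
    refine ⟨hz, hz', ?_⟩
    -- the common point has scalar product strictly between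
    have hL : 0 < dp a b b := by
      simp only [dp]
      have : a.1 ≠ b.1 ∨ a.2 ≠ b.2 := by
        by_contra hh
        push Not at hh
        exact hab (Prod.ext hh.1 hh.2)
      rcases this with h | h
      · have : 0 < (b.1 - a.1) ^ 2 := by
          have : b.1 - a.1 ≠ 0 := sub_ne_zero.2 (Ne.symm h)
          positivity
        nlinarith [sq_nonneg (b.2 - a.2)]
      · have : 0 < (b.2 - a.2) ^ 2 := by
          have : b.2 - a.2 ≠ 0 := sub_ne_zero.2 (Ne.symm h)
          positivity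
        nlinarith [sq_nonneg (b.1 - a.1)]
    have hLR : (0 : ℝ) < dp a b b := by exact_mod_cast hL
    have k3 : t * (dp a b b : ℝ) = (1 - u) * (dp a b c : ℝ) + u * (dp a b d : ℝ) := by
      simp only [dp]; push_cast
      linear_combination ((b.1 : ℝ) - a.1) * e1 + ((b.2 : ℝ) - a.2) * e2
    have k4 : 0 < t * (dp a b b : ℝ) := by positivity
    have k5 : t * (dp a b b : ℝ) < dp a b b := by nlinarith
    have k6 : (0 : ℝ) < max (dp a b c : ℝ) (dp a b d) := by
      by_contra hh
      push Not at hh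
      have h3 := (le_max_left (dp a b c : ℝ) (dp a b d)).trans hh
      have h4 := (le_max_right (dp a b c : ℝ) (dp a b d)).trans hh
      nlinarith
    have k7 : min (dp a b c : ℝ) (dp a b d) < dp a b b := by
      by_contra hh
      push Not at hh
      have h3 := hh.trans (min_le_left (dp a b c : ℝ) (dp a b d))
      have h4 := hh.trans (min_le_right (dp a b c : ℝ) (dp a b d))
      nlinarith
    have k8 : min (dp a b c : ℝ) (dp a b d) < max (dp a b c : ℝ) (dp a b d) := by
      rcases lt_or_ge (min (dp a b c : ℝ) (dp a b d)) (max (dp a b c : ℝ) (dp a b d)) with h | h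
      · exact h
      · -- then `dp a b c = dp a b d`, and `c = d`-projection: still a problem only if `c = d`
        exfalso
        have h3 : (dp a b c : ℝ) = dp a b d := by
          have := le_antisymm h (min_le_max)
          rcases le_total (dp a b c : ℝ) (dp a b d) with h5 | h5
          · rw [max_eq_right h5, min_eq_left h5] at this; exact this.symm
          · rw [max_eq_left h5, min_eq_right h5] at this; exact this
        have h4 : dp a b c = dp a b d := by exact_mod_cast h3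
        have h5 : (b.1 - a.1) * (c.1 - d.1) + (b.2 - a.2) * (c.2 - d.2) = 0 := by
          simp only [dp] at h4; linarith
        have h6 : (b.1 - a.1) * (c.2 - d.2) - (b.2 - a.2) * (c.1 - d.1) = 0 := by
          have := hz; have := hz'
          simp only [cr] at hz hz'; linarith
        have h7 : dp a b b * ((c.1 - d.1) ^ 2 + (c.2 - d.2) ^ 2) = 0 := by
          have : dp a b b * ((c.1 - d.1) ^ 2 + (c.2 - d.2) ^ 2) =
              ((b.1 - a.1) * (c.1 - d.1) + (b.2 - a.2) * (c.2 - d.2)) ^ 2 +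
              ((b.1 - a.1) * (c.2 - d.2) - (b.2 - a.2) * (c.1 - d.1)) ^ 2 := by
            simp only [dp]; ring
          rw [this, h5, h6]; norm_num
        rcases mul_eq_zero.1 h7 with h8 | h8
        · omega
        · apply hcd
          have h9 : (c.1 - d.1) ^ 2 = 0 := by nlinarith [sq_nonneg (c.1 - d.1), sq_nonneg (c.2 - d.2)]
          have h10 : (c.2 - d.2) ^ 2 = 0 := by nlinarith [sq_nonneg (c.1 - d.1), sq_nonneg (c.2 - d.2)]
          exact Prod.ext (sub_eq_zero.1 (pow_eq_zero_iff (by norm_num) |>.1 h9))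
            (sub_eq_zero.1 (pow_eq_zero_iff (by norm_num) |>.1 h10))
    refine max_lt ?_ ?_ <;> refine lt_min ?_ ?_
    · exact hL
    · exact_mod_cast k6
    · exact_mod_cast k7
    · exact_mod_cast k8
  · right
    have hd1 : cr a b c * cr a b d < 0 := by
      have hz1 : (cr a b c : ℝ) ≠ 0 := by exact_mod_cast hz
      have : (cr a b c : ℝ) * cr a b d < 0 := by
        have h3 : u * ((cr a b c : ℝ) * cr a b d) = -((1 - u) * (cr a b c : ℝ) ^ 2) := by
          linear_combination (cr a b c : ℝ) * k1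
        have h4 : 0 < (1 - u) * (cr a b c : ℝ) ^ 2 := by
          have : 0 < 1 - u := by linarith
          positivity
        by_contra hh
        push Not at hh
        nlinarith
      exact_mod_cast this
    refine ⟨hd1, ?_⟩
    by_cases hw : cr c d a = 0
    · exfalso
      have hw' : cr c d b = 0 := by
        rw [hw] at k2
        have : (cr c d b : ℝ) = 0 := by
          have : t * (cr c d b : ℝ) = 0 := by simpa using k2
          exact (mul_eq_zero.1 this).resolve_left t0.ne'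
        exact_mod_cast this
      have h3 : cr a b d - cr a b c = cr c d a - cr c d b := by
        simp only [cr]; ring
      rw [hw, hw', sub_zero, sub_eq_zero] at h3
      rw [h3] at hd1
      nlinarith [mul_self_nonneg (cr a b c)]
    · have hw1 : (cr c d a : ℝ) ≠ 0 := by exact_mod_cast hw
      have : (cr c d a : ℝ) * cr c d b < 0 := by
        have h3 : t * ((cr c d a : ℝ) * cr c d b) = -((1 - t) * (cr c d a : ℝ) ^ 2) := by
          linear_combination (cr c d a : ℝ) * k2
        have h4 : 0 < (1 - t) * (cr c d a : ℝ) ^ 2 := by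
          have : 0 < 1 - t := by linarith
          positivity
        by_contra hh
        push Not at hh
        nlinarith
      exact_mod_cast this

/-- The crossing point is unique. -/
lemma unique_meet {a b c d : ℤ × ℤ} {x y : ℝ × ℝ} (hd : cr a b c * cr a b d < 0)
    (h1 : x ∈ openSegment ℝ (toR a) (toR b)) (h2 : x ∈ openSegment ℝ (toR c) (toR d))
    (h3 : y ∈ openSegment ℝ (toR a) (toR b)) (h4 : y ∈ openSegment ℝ (toR c) (toR d)) :
    x = y := by
  have key : ∀ z : ℝ × ℝ, z ∈ openSegment ℝ (toR a) (toR b) →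
      z ∈ openSegment ℝ (toR c) (toR d) →
      z.1 * ((cr a b c : ℝ) - cr a b d) = c.1 * (-(cr a b d : ℝ)) + d.1 * (cr a b c : ℝ) ∧
      z.2 * ((cr a b c : ℝ) - cr a b d) = c.2 * (-(cr a b d : ℝ)) + d.2 * (cr a b c : ℝ) := by
    intro z hz1 hz2
    obtain ⟨t, t0, t1, ht1, ht2⟩ := mem_openSegment.1 hz1
    obtain ⟨u, u0, u1, hu1, hu2⟩ := mem_openSegment.1 hz2
    have e1 : (1 - t) * (a.1 : ℝ) + t * b.1 = (1 - u) * c.1 + u * d.1 := by rw [← ht1, hu1]
    have e2 : (1 - t) * (a.2 : ℝ) + t * b.2 = (1 - u) * c.2 + u * d.2 := by rw [← ht2, hu2]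
    have k1 : (1 - u) * (cr a b c : ℝ) + u * (cr a b d : ℝ) = 0 := by
      simp only [cr]; push_cast
      linear_combination ((b.2 : ℝ) - a.2) * e1 - ((b.1 : ℝ) - a.1) * e2
    constructor
    · rw [hu1]; linear_combination ((c.1 : ℝ) - d.1) * k1
    · rw [hu2]; linear_combination ((c.2 : ℝ) - d.2) * k1
  obtain ⟨x1, x2⟩ := key x h1 h2
  obtain ⟨y1, y2⟩ := key y h3 h4
  have hne : ((cr a b c : ℝ) - cr a b d) ≠ 0 := by
    intro h
    have : cr a b c = cr a b d := by exact_mod_cast sub_eq_zero.1 h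
    rw [this] at hd
    nlinarith [mul_self_nonneg (cr a b d)]
  exact Prod.ext (mul_right_cancel₀ hne (x1.trans y1.symm))
    (mul_right_cancel₀ hne (x2.trans y2.symm))

/-- Two segments with a common interior point have overlapping coordinate ranges. -/
lemma range_meet {a b c d : ℤ × ℤ} {x : ℝ × ℝ} (h1 : x ∈ openSegment ℝ (toR a) (toR b))
    (h2 : x ∈ openSegment ℝ (toR c) (toR d)) {lo hi lo' hi' : ℤ}
    (ha : lo ≤ a.1 ∧ a.1 ≤ hi) (hb : lo ≤ b.1 ∧ b.1 ≤ hi)
    (hc : lo' ≤ c.1 ∧ c.1 ≤ hi') (hd : lo' ≤ d.1 ∧ d.1 ≤ hi') : lo ≤ hi' ∧ lo' ≤ hi := by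
  obtain ⟨t, t0, t1, ht1, ht2⟩ := mem_openSegment.1 h1
  obtain ⟨u, u0, u1, hu1, hu2⟩ := mem_openSegment.1 h2
  have ha1 : (lo : ℝ) ≤ a.1 := by exact_mod_cast ha.1
  have ha2 : (a.1 : ℝ) ≤ hi := by exact_mod_cast ha.2
  have hb1 : (lo : ℝ) ≤ b.1 := by exact_mod_cast hb.1
  have hb2 : (b.1 : ℝ) ≤ hi := by exact_mod_cast hb.2
  have hc1 : (lo' : ℝ) ≤ c.1 := by exact_mod_cast hc.1
  have hc2 : (c.1 : ℝ) ≤ hi' := by exact_mod_cast hc.2
  have hd1 : (lo' : ℝ) ≤ d.1 := by exact_mod_cast hd.1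
  have hd2 : (d.1 : ℝ) ≤ hi' := by exact_mod_cast hd.2
  have x1 : (lo : ℝ) ≤ x.1 := by rw [ht1]; nlinarith
  have x2 : x.1 ≤ (hi : ℝ) := by rw [ht1]; nlinarith
  have x3 : (lo' : ℝ) ≤ x.1 := by rw [hu1]; nlinarith
  have x4 : x.1 ≤ (hi' : ℝ) := by rw [hu1]; nlinarith
  constructor
  · exact_mod_cast x1.trans x4
  · exact_mod_cast x3.trans x2

lemma range_meet' {a b c d : ℤ × ℤ} {x : ℝ × ℝ} (h1 : x ∈ openSegment ℝ (toR a) (toR b))
    (h2 : x ∈ openSegment ℝ (toR c) (toR d)) {lo hi lo' hi' : ℤ}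
    (ha : lo ≤ a.2 ∧ a.2 ≤ hi) (hb : lo ≤ b.2 ∧ b.2 ≤ hi)
    (hc : lo' ≤ c.2 ∧ c.2 ≤ hi') (hd : lo' ≤ d.2 ∧ d.2 ≤ hi') : lo ≤ hi' ∧ lo' ≤ hi := by
  obtain ⟨t, t0, t1, ht1, ht2⟩ := mem_openSegment.1 h1
  obtain ⟨u, u0, u1, hu1, hu2⟩ := mem_openSegment.1 h2
  have ha1 : (lo : ℝ) ≤ a.2 := by exact_mod_cast ha.1
  have ha2 : (a.2 : ℝ) ≤ hi := by exact_mod_cast ha.2
  have hb1 : (lo : ℝ) ≤ b.2 := by exact_mod_cast hb.1
  have hb2 : (b.2 : ℝ) ≤ hi := by exact_mod_cast hb.2
  have hc1 : (lo' : ℝ) ≤ c.2 := by exact_mod_cast hc.1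
  have hc2 : (c.2 : ℝ) ≤ hi' := by exact_mod_cast hc.2
  have hd1 : (lo' : ℝ) ≤ d.2 := by exact_mod_cast hd.1
  have hd2 : (d.2 : ℝ) ≤ hi' := by exact_mod_cast hd.2
  have x1 : (lo : ℝ) ≤ x.2 := by rw [ht2]; nlinarith
  have x2 : x.2 ≤ (hi : ℝ) := by rw [ht2]; nlinarith
  have x3 : (lo' : ℝ) ≤ x.2 := by rw [hu2]; nlinarith
  have x4 : x.2 ≤ (hi' : ℝ) := by rw [hu2]; nlinarith
  constructor
  · exact_mod_cast x1.trans x4
  · exact_mod_cast x3.trans x2

/-- An integer point in the open segment. -/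
lemma onS_of_mem {a b v : ℤ × ℤ} (hab : a ≠ b) (h : toR v ∈ openSegment ℝ (toR a) (toR b)) :
    OnS a b v := by
  obtain ⟨t, t0, t1, ht1, ht2⟩ := mem_openSegment.1 h
  simp only [toR] at ht1 ht2
  have hL : 0 < dp a b b := by
    simp only [dp]
    have : a.1 ≠ b.1 ∨ a.2 ≠ b.2 := by
      by_contra hh
      push Not at hh
      exact hab (Prod.ext hh.1 hh.2)
    rcases this with h | h
    · have : 0 < (b.1 - a.1) ^ 2 := by
        have : b.1 - a.1 ≠ 0 := sub_ne_zero.2 (Ne.symm h)
        positivity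
      nlinarith [sq_nonneg (b.2 - a.2)]
    · have : 0 < (b.2 - a.2) ^ 2 := by
        have : b.2 - a.2 ≠ 0 := sub_ne_zero.2 (Ne.symm h)
        positivity
      nlinarith [sq_nonneg (b.1 - a.1)]
  have hLR : (0 : ℝ) < dp a b b := by exact_mod_cast hL
  have k1 : (cr a b v : ℝ) = 0 := by
    simp only [cr]; push_cast
    linear_combination ((b.1 : ℝ) - a.1) * ht2 - ((b.2 : ℝ) - a.2) * ht1
  have k2 : (dp a b v : ℝ) = t * (dp a b b : ℝ) := by
    simp only [dp]; push_cast
    linear_combination ((b.1 : ℝ) - a.1) * ht1 + ((b.2 : ℝ) - a.2) * ht2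
  refine ⟨by exact_mod_cast k1, ?_, ?_⟩
  · have : (0 : ℝ) < dp a b v := by rw [k2]; positivity
    exact_mod_cast this
  · have : (dp a b v : ℝ) < dp a b b := by rw [k2]; nlinarith
    exact_mod_cast this

/-- **Criterion.** -/
theorem isKPlanar_of {V : Type} (G : SimpleGraph V) (pos : V → ℤ × ℤ)
    (hinj : Function.Injective pos) (k : ℕ)
    (hv : ∀ a b v, G.Adj a b → ¬ OnS (pos a) (pos b) (pos v))
    (ho : ∀ a b c d, G.Adj a b → G.Adj c d → s(a, b) ≠ s(c, d) →
      (∃ x, x ∈ openSegment ℝ (toR (pos a)) (toR (pos b)) ∧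
        x ∈ openSegment ℝ (toR (pos c)) (toR (pos d))) → ¬ Ovl (pos a) (pos b) (pos c) (pos d))
    (hc : ∀ a b, G.Adj a b → ∃ F : Finset (Sym2 V), F.card ≤ k ∧ ∀ c d, G.Adj c d →
      s(a, b) ≠ s(c, d) → Crs (pos a) (pos b) (pos c) (pos d) →
      (∃ x, x ∈ openSegment ℝ (toR (pos a)) (toR (pos b)) ∧
        x ∈ openSegment ℝ (toR (pos c)) (toR (pos d))) → s(c, d) ∈ F) :
    IsKPlanar k G := by
  classical
  let P : V → ℝ × ℝ := fun v => toR (pos v)
  have hP : Function.Injective P := toR_inj.comp hinj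
  let A : Sym2 V → unitInterval → ℝ × ℝ := fun e t =>
    AffineMap.lineMap (P (Quot.out e).1) (P (Quot.out e).2) (t : ℝ)
  have hout : ∀ e : Sym2 V, s((Quot.out e).1, (Quot.out e).2) = e := fun e => Quot.out_eq e
  have hne : ∀ e ∈ G.edgeSet, (Quot.out e).1 ≠ (Quot.out e).2 := by
    intro e he h
    rw [← hout e] at he
    rw [SimpleGraph.mem_edgeSet] at he
    exact he.ne h
  have hadj : ∀ e ∈ G.edgeSet, G.Adj (Quot.out e).1 (Quot.out e).2 := by
    intro e he
    rw [← SimpleGraph.mem_edgeSet, hout e]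
    exact he
  have hinner : ∀ e : Sym2 V, A e '' {t | t ≠ 0 ∧ t ≠ 1} ⊆
      openSegment ℝ (P (Quot.out e).1) (P (Quot.out e).2) := by
    rintro e _ ⟨t, ⟨h0, h1⟩, rfl⟩
    rw [openSegment_eq_image_lineMap]
    refine ⟨t, ⟨lt_of_le_of_ne t.2.1 ?_, lt_of_le_of_ne t.2.2 ?_⟩, rfl⟩
    · intro h; exact h0 (Subtype.ext h.symm)
    · intro h; exact h1 (Subtype.ext h)
  let D : Drawing G :=
    { pos := P
      arc := A
      pos_inj := hP
      arc_cont := fun e _ => by
        show Continuous fun t : unitInterval => AffineMap.lineMap (P (Quot.out e).1) (P (Quot.out e).2) (t : ℝ)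
        exact (AffineMap.lineMap_continuous).comp continuous_subtype_val
      arc_inj := fun e he => by
        intro t u htu
        have := AffineMap.lineMap_injective ℝ (hP.ne (hne e he)) htu
        exact Subtype.ext this
      arc_ends := fun a b hab => by
        have h := hout s(a, b)
        rw [Sym2.eq_iff] at h
        rcases h with ⟨h1, h2⟩ | ⟨h1, h2⟩
        · left
          constructor
          · show AffineMap.lineMap (P (Quot.out s(a, b)).1) (P (Quot.out s(a, b)).2) (((0 : unitInterval)) : ℝ) = P a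
            rw [h1]; simp
          · show AffineMap.lineMap (P (Quot.out s(a, b)).1) (P (Quot.out s(a, b)).2) (((1 : unitInterval)) : ℝ) = P b
            rw [h2]; simp
        · right
          constructor
          · show AffineMap.lineMap (P (Quot.out s(a, b)).1) (P (Quot.out s(a, b)).2) (((0 : unitInterval)) : ℝ) = P b
            rw [h1]; simp
          · show AffineMap.lineMap (P (Quot.out s(a, b)).1) (P (Quot.out s(a, b)).2) (((1 : unitInterval)) : ℝ) = P a
            rw [h2]; simp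
      arc_avoids := fun e he t h0 h1 v hv' => by
        have hm := hinner e ⟨t, ⟨h0, h1⟩, rfl⟩
        rw [hv'] at hm
        exact hv _ _ v (hadj e he) (onS_of_mem (hinj.ne (hne e he)) hm) }
  refine ⟨D, fun e he => ?_⟩
  obtain ⟨F, hF, hF2⟩ := hc _ _ (hadj e he)
  have hsub : ∀ q ∈ D.crossings e, q.1 ∈ G.edgeSet ∧ s((Quot.out e).1, (Quot.out e).2) ≠
      s((Quot.out q.1).1, (Quot.out q.1).2) ∧
      q.2 ∈ openSegment ℝ (toR (pos (Quot.out e).1)) (toR (pos (Quot.out e).2)) ∧
      q.2 ∈ openSegment ℝ (toR (pos (Quot.out q.1).1)) (toR (pos (Quot.out q.1).2)) := by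
    rintro q ⟨h1, h2, h3, h4⟩
    refine ⟨h1, ?_, hinner e h3, hinner q.1 h4⟩
    rw [hout, hout]
    exact fun h => h2 h.symm
  have hcrs : ∀ q ∈ D.crossings e, Crs (pos (Quot.out e).1) (pos (Quot.out e).2)
      (pos (Quot.out q.1).1) (pos (Quot.out q.1).2) := by
    intro q hq
    obtain ⟨h1, h2, h3, h4⟩ := hsub q hq
    rcases meet h3 h4 (hinj.ne (hne e he)) (hinj.ne (hne _ h1)) with h | h
    · exact absurd h (ho _ _ _ _ (hadj e he) (hadj _ h1) h2 ⟨_, h3, h4⟩)
    · exact h
  have hinjOn : Set.InjOn (fun q : Sym2 V × (ℝ × ℝ) => q.1) (D.crossings e) := by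
    intro p hp q hq hpq
    simp only at hpq
    obtain ⟨h1, h2, h3, h4⟩ := hsub p hp
    obtain ⟨h1', h2', h3', h4'⟩ := hsub q hq
    refine Prod.ext hpq ?_
    rw [hpq] at h4
    exact unique_meet (hcrs q hq).1 h3 h4 h3' h4'
  rw [← hinjOn.encard_image]
  calc ((fun q : Sym2 V × (ℝ × ℝ) => q.1) '' D.crossings e).encard
      ≤ (F : Set (Sym2 V)).encard := by
        refine Set.encard_le_encard ?_
        rintro _ ⟨q, hq, rfl⟩
        obtain ⟨h1, h2, h3, h4⟩ := hsub q hq
        have := hF2 _ _ (hadj _ h1) h2 (hcrs q hq) ⟨_, h3, h4⟩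
        rw [hout] at this
        exact this
    _ = F.card := Set.encard_coe_eq_coe_finsetCard F
    _ ≤ k := by exact_mod_cast hF

end Pool.Agent.X157.KP
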