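import Mathlib

set_option autoImplicit false
set_option linter.unusedSectionVars false

namespace Pool.Agent.X157.Poly

open Set

/-- Two flags (maximal chains) are adjacent when they differ in exactly one face. -/
def FlagAdj {α : Type} [PartialOrder α] (A B : Flag α) : Prop :=
  ((A : Set α) \ B).ncard = 1 ∧ ((B : Set α) \ A).ncard = 1

/-- An abstract polytope of rank `n`. The rank function is shifted by one: the least face has
`rk = 0`, vertices have `rk = 1`, facets have `rk = n`, the greatest face has `rk = n + 1`.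
Every flag has exactly one face of each rank; the diamond condition and strong
flag-connectedness hold. (Polytopes of finite rank are countable, so `Face : Type` is no loss.) -/
structure Polytope (n : ℕ) where
  Face : Type
  [ord : PartialOrder Face]
  [bdd : BoundedOrder Face]
  rk : Face → ℕ
  rk_strictMono : StrictMono rk
  flag_ranks : ∀ A : Flag Face, rk '' (A : Set Face) = Set.Iic (n + 1)
  diamond : ∀ F G : Face, F < G → rk G = rk F + 2 → (Set.Ioo F G).ncard = 2
  connected : ∀ A B : Flag Face, Relation.ReflTransGen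
    (fun C D : Flag Face => FlagAdj C D ∧ (A : Set Face) ∩ B ⊆ D) A B

attribute [instance] Polytope.ord Polytope.bdd

section ranked

variable {α : Type} [PartialOrder α] [BoundedOrder α] {rk : α → ℕ} {n : ℕ}

lemma flag_unique (hm : StrictMono rk) (A : Flag α) {x y : α} (hx : x ∈ A) (hy : y ∈ A)
    (h : rk x = rk y) : x = y := by
  rcases A.le_or_le hx hy with h1 | h1
  · rcases h1.eq_or_lt with h2 | h2
    · exact h2
    · exact absurd (hm h2) (by omega)
  · rcases h1.eq_or_lt with h2 | h2
    · exact h2.symm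
    · exact absurd (hm h2) (by omega)

lemma flag_injOn (hm : StrictMono rk) (A : Flag α) : Set.InjOn rk (A : Set α) :=
  fun _ hx _ hy h => flag_unique hm A hx hy h

lemma flag_finite (hm : StrictMono rk) (hf : ∀ A : Flag α, rk '' (A : Set α) = Set.Iic (n + 1))
    (A : Flag α) : (A : Set α).Finite := by
  apply Set.Finite.of_finite_image _ (flag_injOn hm A)
  rw [hf A]; exact Set.finite_Iic _

lemma flag_ncard (hm : StrictMono rk) (hf : ∀ A : Flag α, rk '' (A : Set α) = Set.Iic (n + 1))
    (A : Flag α) : (A : Set α).ncard = n + 2 := by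
  rw [← (flag_injOn hm A).ncard_image, hf A]
  rw [Set.ncard_eq_toFinset_card']
  simp

lemma flag_exists (hf : ∀ A : Flag α, rk '' (A : Set α) = Set.Iic (n + 1))
    (A : Flag α) {i : ℕ} (hi : i ≤ n + 1) : ∃ x ∈ A, rk x = i := by
  have : i ∈ rk '' (A : Set α) := by rw [hf A]; exact hi
  obtain ⟨x, hx, h⟩ := this
  exact ⟨x, hx, h⟩

lemma flag_lt (hm : StrictMono rk) (A : Flag α) {x y : α} (hx : x ∈ A) (hy : y ∈ A)
    (h : rk x < rk y) : x < y := by
  rcases A.le_or_le hx hy with h1 | h1
  · rcases h1.eq_or_lt with h2 | h2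
    · subst h2; omega
    · exact h2
  · rcases h1.eq_or_lt with h2 | h2
    · subst h2; omega
    · exact absurd (hm h2) (by omega)

lemma flag_le (hm : StrictMono rk) (A : Flag α) {x y : α} (hx : x ∈ A) (hy : y ∈ A)
    (h : rk x ≤ rk y) : x ≤ y := by
  rcases h.lt_or_eq with h1 | h1
  · exact (flag_lt hm A hx hy h1).le
  · exact (flag_unique hm A hx hy h1).le

lemma flag_eq_of_subset {A B : Flag α} (h : (A : Set α) ⊆ B) : A = B := by
  apply SetLike.coe_injective
  exact A.max_chain' B.Chain' h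

/-- a chain meeting every rank is a flag -/
lemma chain_is_flag (hm : StrictMono rk)
    (hf : ∀ A : Flag α, rk '' (A : Set α) = Set.Iic (n + 1)) {c : Set α}
    (hc : IsChain (· ≤ ·) c) (hr : Set.Iic (n + 1) ⊆ rk '' c) :
    ∃ A : Flag α, (A : Set α) = c := by
  obtain ⟨A, hA⟩ := hc.exists_subset_flag
  refine ⟨A, Set.Subset.antisymm ?_ hA⟩
  intro x hx
  have h1 : rk x ∈ Set.Iic (n + 1) := by rw [← hf A]; exact ⟨x, hx, rfl⟩
  obtain ⟨y, hy, hxy⟩ := hr h1
  have := flag_unique hm A (hA hy) hx hxy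
  rwa [← this]

/-- exchanging a single face -/
lemma exchange (hm : StrictMono rk)
    (hf : ∀ A : Flag α, rk '' (A : Set α) = Set.Iic (n + 1)) (A : Flag α) {x y F G : α}
    (hx : x ∈ A) (hF : F ∈ A) (hG : G ∈ A) (hFx : rk x = rk F + 1) (hGx : rk G = rk x + 1)
    (hFy : F < y) (hyG : y < G) (hxy : x ≠ y) :
    ∃ B : Flag α, (B : Set α) = insert y ((A : Set α) \ {x}) ∧ FlagAdj A B ∧ y ∉ A := by
  have hry : rk y = rk x := by
    have := hm hFy; have := hm hyG; omega
  have hyA : y ∉ A := fun h => hxy (flag_unique hm A hx h hry.symm)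
  have hc : IsChain (· ≤ ·) (insert y ((A : Set α) \ {x})) := by
    apply (A.chain_le.mono Set.sdiff_subset).insert
    intro b hb _
    have hbA : b ∈ A := hb.1
    have hbx : rk b ≠ rk x := fun h => hb.2 (flag_unique hm A hbA hx h)
    rcases lt_or_gt_of_ne hbx with h | h
    · right
      exact (flag_le hm A hbA hF (by omega)).trans hFy.le
    · left
      exact hyG.le.trans (flag_le hm A hG hbA (by omega))
  obtain ⟨B, hB⟩ := chain_is_flag hm hf hc (by
    rw [← hf A]
    rintro _ ⟨b, hb, rfl⟩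
    by_cases h : b = x
    · exact ⟨y, Set.mem_insert _ _, by rw [h]; exact hry⟩
    · exact ⟨b, Set.mem_insert_of_mem _ ⟨hb, h⟩, rfl⟩)
  refine ⟨B, hB, ⟨?_, ?_⟩, hyA⟩
  · have : (A : Set α) \ B = {x} := by
      rw [hB]; ext b
      constructor
      · rintro ⟨h1, h2⟩
        by_contra h3
        exact h2 (Set.mem_insert_of_mem _ ⟨h1, h3⟩)
      · rintro rfl
        refine ⟨hx, ?_⟩
        rintro (h | h)
        · exact hxy h
        · exact h.2 rfl
    rw [this]; exact Set.ncard_singleton _
  · have : (B : Set α) \ A = {y} := by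
      rw [hB]; ext b
      constructor
      · rintro ⟨h1 | h1, h2⟩
        · exact h1
        · exact (h2 h1.1).elim
      · rintro rfl
        exact ⟨Set.mem_insert _ _, hyA⟩
    rw [this]; exact Set.ncard_singleton _

/-- If all sections of rank at least two are connected, the poset is strongly flag-connected. -/
theorem connected_of_sections (hm : StrictMono rk)
    (hf : ∀ A : Flag α, rk '' (A : Set α) = Set.Iic (n + 1))
    (hs : ∀ F G : α, F < G → rk F + 3 ≤ rk G → ∀ H ∈ Set.Ioo F G, ∀ K ∈ Set.Ioo F G,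
      Relation.ReflTransGen (fun a b => b ∈ Set.Ioo F G ∧ (a ≤ b ∨ b ≤ a)) H K) :
    ∀ A B : Flag α, Relation.ReflTransGen
      (fun C D : Flag α => FlagAdj C D ∧ (A : Set α) ∩ B ⊆ D) A B := by
  have key : ∀ k : ℕ, ∀ A B : Flag α, n + 2 - ((A : Set α) ∩ B).ncard = k →
      Relation.ReflTransGen (fun C D : Flag α => FlagAdj C D ∧ (A : Set α) ∩ B ⊆ D) A B := by
    intro k
    induction k using Nat.strong_induction_on with
    | _ k ih =>
    intro A B hk
    by_cases hAB : A = B
    · subst hAB; exact Relation.ReflTransGen.refl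
    have hAfin := flag_finite hm hf A
    have hAcard := flag_ncard hm hf A
    -- for flags sharing more, use the induction hypothesis
    have ih' : ∀ C D : Flag α, ((A : Set α) ∩ B).ncard < ((C : Set α) ∩ D).ncard →
        (A : Set α) ∩ B ⊆ (C : Set α) ∩ D →
        Relation.ReflTransGen (fun X Y : Flag α => FlagAdj X Y ∧ (A : Set α) ∩ B ⊆ Y) C D := by
      intro C D h1 h2
      have h3 : ((A : Set α) ∩ B).ncard ≤ n + 2 := by
        rw [← hAcard]; exact Set.ncard_le_ncard Set.inter_subset_left hAfin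
      have h4 : ((C : Set α) ∩ D).ncard ≤ n + 2 := by
        rw [← flag_ncard hm hf C]
        exact Set.ncard_le_ncard Set.inter_subset_left (flag_finite hm hf C)
      have := ih (n + 2 - ((C : Set α) ∩ D).ncard) (by omega) C D rfl
      refine (Relation.ReflTransGen.mono ?_) C D this
      intro X Y h
      exact ⟨h.1, h2.trans h.2⟩
    -- the ranks where A and B differ
    have hex : ∃ i, i ≤ n + 1 ∧ ∃ x ∈ A, rk x = i ∧ x ∉ B := by
      by_contra hcon
      push Not at hcon
      apply hAB
      apply flag_eq_of_subset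
      intro x hx
      have : rk x ∈ Set.Iic (n + 1) := by rw [← hf A]; exact ⟨x, hx, rfl⟩
      exact hcon (rk x) this x hx rfl
    classical
    obtain ⟨hi1, x, hxA, hxi, hxB⟩ := Nat.find_spec hex
    set i := Nat.find hex with hi
    have himin : ∀ y ∈ A, rk y < i → y ∈ B := by
      intro y hy hyi
      by_contra hyB
      have h1 : rk y ≤ n + 1 := by omega
      exact Nat.find_min hex hyi ⟨h1, y, hy, rfl, hyB⟩
    have hbotrk : rk (⊥ : α) < i := by
      have hne : (⊥ : α) ≠ x := fun h => hxB (h ▸ B.bot_mem)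
      rw [← hxi]; exact hm (lt_of_le_of_ne bot_le hne)
    have hi0 : 0 < i := by omega
    obtain ⟨F, hFA, hFi⟩ := flag_exists hf A (show i - 1 ≤ n + 1 by omega)
    have hFB : F ∈ B := himin F hFA (by omega)
    -- the next common rank
    have hex2 : ∃ j, i < j ∧ ∃ y ∈ A, rk y = j ∧ y ∈ B := by
      refine ⟨rk (⊤ : α), ?_, ⊤, A.top_mem, rfl, B.top_mem⟩
      have hne : x ≠ (⊤ : α) := fun h => hxB (h ▸ B.top_mem)
      rw [← hxi]; exact hm (lt_of_le_of_ne le_top hne)
    obtain ⟨hij, G, hGA, hGj, hGB⟩ := Nat.find_spec hex2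
    set j := Nat.find hex2 with hj
    have hjmin : ∀ y ∈ A, i < rk y → rk y < j → y ∉ B := by
      intro y hy h1 h2 h3
      exact Nat.find_min hex2 h2 ⟨h1, y, hy, rfl, h3⟩
    have hcommon : ∀ y ∈ (A : Set α) ∩ B, y ≤ F ∨ G ≤ y := by
      rintro y ⟨hy1, hy2⟩
      by_contra hcon
      rw [not_or] at hcon
      have h1 : rk F < rk y := by
        by_contra h
        exact hcon.1 (flag_le hm A hy1 hFA (by omega))
      have h2 : rk y < rk G := by
        by_contra h
        exact hcon.2 (flag_le hm A hGA hy1 (by omega))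
      rcases Nat.lt_or_ge i (rk y) with h3 | h3
      · exact hjmin y hy1 h3 (by omega) hy2
      · have h4 : rk y = rk x := by omega
        exact hxB ((flag_unique hm A hy1 hxA h4) ▸ hy2)
    obtain ⟨y, hyB, hyi⟩ := flag_exists hf B hi1
    have hyA : y ∉ A := by
      intro h
      have : x = y := flag_unique hm A hxA h (by omega)
      exact hxB (this ▸ hyB)
    have hxy : x ≠ y := fun h => hyA (h ▸ hxA)
    have hFx : F < x := flag_lt hm A hFA hxA (by omega)
    have hxG : x < G := flag_lt hm A hxA hGA (by omega)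
    have hFy : F < y := flag_lt hm B hFB hyB (by omega)
    have hyG : y < G := flag_lt hm B hyB hGB (by omega)
    have hABfin : ((A : Set α) ∩ B).Finite := hAfin.subset Set.inter_subset_left
    -- extending the common part
    have hbig : ∀ C D : Flag α, (A : Set α) ∩ B ⊆ (C : Set α) ∩ D →
        (∃ z ∈ (C : Set α) ∩ D, z ∉ (A : Set α) ∩ B) →
        ((A : Set α) ∩ B).ncard < ((C : Set α) ∩ D).ncard := by
      rintro C D h1 ⟨z, hz1, hz2⟩
      apply Set.ncard_lt_ncard
      · exact ⟨h1, fun h => hz2 (h hz1)⟩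
      · exact (flag_finite hm hf C).subset Set.inter_subset_left
    rcases Nat.lt_or_ge j (i + 2) with hcase | hcase
    · -- a single exchange
      obtain ⟨C, hC, hadj, _⟩ := exchange hm hf A hxA hFA hGA (by omega) (by omega) hFy hyG hxy
      have hsub : (A : Set α) ∩ B ⊆ C := by
        rintro z ⟨hz1, hz2⟩
        rw [hC]
        refine Set.mem_insert_of_mem _ ⟨hz1, ?_⟩
        intro h
        exact hxB (by rw [← (show z = x from h)]; exact hz2)
      have h1 : Relation.ReflTransGen (fun X Y : Flag α => FlagAdj X Y ∧ (A : Set α) ∩ B ⊆ Y) C B := by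
        apply ih'
        · apply hbig
          · exact fun z hz => ⟨hsub hz, hz.2⟩
          · refine ⟨y, ⟨?_, hyB⟩, fun h => hyA h.1⟩
            rw [hC]; exact Set.mem_insert _ _
        · exact fun z hz => ⟨hsub hz, hz.2⟩
      exact Relation.ReflTransGen.head ⟨hadj, hsub⟩ h1
    · -- use the connectivity of the section
      have hFG : F < G := hFx.trans hxG
      have hpath := hs F G hFG (by omega) x ⟨hFx, hxG⟩ y ⟨hFy, hyG⟩
      have claim : ∀ z, Relation.ReflTransGen
          (fun a b => b ∈ Set.Ioo F G ∧ (a ≤ b ∨ b ≤ a)) x z → z ∈ Set.Ioo F G ∧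
          ∃ C : Flag α, z ∈ C ∧ (A : Set α) ∩ B ⊆ C ∧
          Relation.ReflTransGen (fun X Y : Flag α => FlagAdj X Y ∧ (A : Set α) ∩ B ⊆ Y) A C := by
        intro z hz
        induction hz with
        | refl => exact ⟨⟨hFx, hxG⟩, A, hxA, Set.inter_subset_left, Relation.ReflTransGen.refl⟩
        | tail _ hbc ih2 =>
          rename_i b c _
          obtain ⟨hb, C, hbC, hsubC, hpC⟩ := ih2
          obtain ⟨hc, hcomp⟩ := hbc
          refine ⟨hc, ?_⟩
          have hchain : IsChain (· ≤ ·) (insert c (insert b ((A : Set α) ∩ B))) := by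
            apply IsChain.insert
            · apply IsChain.insert
              · exact A.chain_le.mono Set.inter_subset_left
              · intro w hw _
                rcases hcommon w hw with h | h
                · exact Or.inr (h.trans hb.1.le)
                · exact Or.inl (hb.2.le.trans h)
            · intro w hw _
              rcases hw with h | h
              · subst h
                exact hcomp.symm
              · rcases hcommon w h with h | h
                · exact Or.inr (h.trans hc.1.le)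
                · exact Or.inl (hc.2.le.trans h)
          obtain ⟨D, hD⟩ := hchain.exists_subset_flag
          have hcD : c ∈ D := hD (Set.mem_insert _ _)
          have hbD : b ∈ D := hD (Set.mem_insert_of_mem _ (Set.mem_insert _ _))
          have hsubD : (A : Set α) ∩ B ⊆ D := fun w hw =>
            hD (Set.mem_insert_of_mem _ (Set.mem_insert_of_mem _ hw))
          refine ⟨D, hcD, hsubD, hpC.trans ?_⟩
          apply ih'
          · apply hbig
            · exact fun w hw => ⟨hsubC hw, hsubD hw⟩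
            · refine ⟨b, ⟨hbC, hbD⟩, fun h => ?_⟩
              rcases hcommon b h with h' | h'
              · exact absurd (hb.1.trans_le h') (lt_irrefl _)
              · exact absurd (hb.2.trans_le h') (lt_irrefl _)
          · exact fun w hw => ⟨hsubC hw, hsubD hw⟩
      obtain ⟨_, C, hyC, hsubC, hpC⟩ := claim y hpath
      refine hpC.trans ?_
      apply ih'
      · apply hbig
        · exact fun w hw => ⟨hsubC hw, hw.2⟩
        · exact ⟨y, ⟨hyC, hyB⟩, fun h => hyA h.1⟩
      · exact fun w hw => ⟨hsubC hw, hw.2⟩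
  intro A B
  exact key _ A B rfl

/-- a finite graded bounded poset: every flag meets every rank -/
theorem flag_ranks_of_graded [Finite α] (hm : StrictMono rk) (h0 : rk (⊥ : α) = 0)
    (h1 : rk (⊤ : α) = n + 1)
    (hg : ∀ F G : α, F < G → rk F + 2 ≤ rk G → ∃ H, F < H ∧ H < G) :
    ∀ A : Flag α, rk '' (A : Set α) = Set.Iic (n + 1) := by
  intro A
  apply Set.Subset.antisymm
  · rintro _ ⟨x, _, rfl⟩
    rw [Set.mem_Iic, ← h1]
    exact hm.monotone le_top
  · intro i hi
    by_contra hcon
    have hne : ∀ x ∈ A, rk x ≠ i := fun x hx h => hcon ⟨x, hx, h⟩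
    have hfin : (A : Set α).Finite := Set.toFinite _
    -- the largest element of rank below i
    obtain ⟨F, ⟨hFA, hFi⟩, hFmax⟩ := Set.exists_max_image {x | x ∈ A ∧ rk x < i} rk
      (Set.toFinite _) ⟨⊥, A.bot_mem, by
        have := hne ⊥ A.bot_mem
        omega⟩
    obtain ⟨G, ⟨hGA, hGi⟩, hGmin⟩ := Set.exists_min_image {x | x ∈ A ∧ i < rk x} rk
      (Set.toFinite _) ⟨⊤, A.top_mem, by
        have := hne ⊤ A.top_mem
        have h2 : i ≤ n + 1 := hi
        omega⟩
    have hFG : F < G := flag_lt hm A hFA hGA (by omega)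
    obtain ⟨H, hH1, hH2⟩ := hg F G hFG (by omega)
    have hHA : H ∈ A := by
      have hc : IsChain (· ≤ ·) (insert H (A : Set α)) := by
        apply A.chain_le.insert
        intro b hb _
        rcases Nat.lt_or_ge (rk b) i with h | h
        · exact Or.inr ((flag_le hm A hb hFA (hFmax b ⟨hb, h⟩)).trans hH1.le)
        · have : i < rk b := lt_of_le_of_ne h (Ne.symm (hne b hb))
          exact Or.inl (hH2.le.trans (flag_le hm A hGA hb (hGmin b ⟨hb, this⟩)))
      have := A.max_chain' hc (Set.subset_insert _ _)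
      rw [show (H ∈ A) = (H ∈ (A : Set α)) from rfl]
      have h2 : (A : Set α) = insert H (A : Set α) := this
      rw [h2]; exact Set.mem_insert _ _
    have hr1 := hm hH1
    have hr2 := hm hH2
    rcases lt_or_gt_of_ne (hne H hHA) with h | h
    · have := hFmax H ⟨hHA, h⟩; omega
    · have := hGmin H ⟨hHA, h⟩; omega

end ranked

abbrev El := ℕ × ℕ

def leB (x y : El) : Bool := Nat.beq (Nat.land x.2 y.2) x.2
def eqB (x y : El) : Bool := Nat.beq x.1 y.1 && Nat.beq x.2 y.2
def ltB (x y : El) : Bool := leB x y && !(Nat.beq x.2 y.2)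
def mid (L : List El) (x y : El) : List El := L.filter (fun z => ltB x z && ltB z y)
def stepL (S T : List El) : List El := S.filter (fun z => T.any (fun w => leB z w || leB w z))
def reach (S : List El) : ℕ → List El → List El
  | 0, T => T
  | k + 1, T => reach S k (stepL S T)
def conn (S : List El) : Bool :=
  S.all (fun z => (reach S 6 (S.take 1)).any (fun w => eqB z w))

lemma eqB_iff {x y : El} : eqB x y = true ↔ x = y := by
  unfold eqB
  rw [Bool.and_eq_true, Nat.beq_eq, Nat.beq_eq, Prod.ext_iff]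

lemma leB_iff {x y : El} : leB x y = true ↔ Nat.land x.2 y.2 = x.2 := by
  unfold leB; rw [Nat.beq_eq]

lemma leB_refl (x : El) : leB x x = true := by
  rw [leB_iff]; exact Nat.and_self x.2

lemma leB_trans {x y z : El} (h1 : leB x y = true) (h2 : leB y z = true) : leB x z = true := by
  rw [leB_iff] at *
  calc Nat.land x.2 z.2 = Nat.land (Nat.land x.2 y.2) z.2 := by rw [h1]
    _ = Nat.land x.2 (Nat.land y.2 z.2) := Nat.and_assoc x.2 y.2 z.2
    _ = x.2 := by rw [h2, h1]

lemma leB_antisymm {x y : El} (h1 : leB x y = true) (h2 : leB y x = true) : x.2 = y.2 := by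
  rw [leB_iff] at *
  calc x.2 = Nat.land x.2 y.2 := h1.symm
    _ = Nat.land y.2 x.2 := Nat.and_comm x.2 y.2
    _ = y.2 := h2

/-- the conditions on a list that make it an abstract polytope -/
structure Good (n : ℕ) (L : List El) (b t : El) : Prop where
  nodup : L.Nodup
  inj : ∀ x ∈ L, ∀ y ∈ L, x.2 = y.2 → x = y
  memb : b ∈ L
  memt : t ∈ L
  bot : ∀ x ∈ L, leB b x = true
  top : ∀ x ∈ L, leB x t = true
  rkb : b.1 = 0
  rkt : t.1 = n + 1
  rk : ∀ x ∈ L, ∀ y ∈ L, ltB x y = true → x.1 < y.1
  graded : ∀ x ∈ L, ∀ y ∈ L, ltB x y = true → x.1 + 2 ≤ y.1 → ∃ z ∈ L, ltB x z = true ∧ ltB z y = true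
  diam : ∀ x ∈ L, ∀ y ∈ L, ltB x y = true → y.1 = x.1 + 2 → (mid L x y).length = 2
  sect : ∀ x ∈ L, ∀ y ∈ L, ltB x y = true → x.1 + 3 ≤ y.1 → conn (mid L x y) = true

def chk (n : ℕ) (L : List El) (b t : El) : Bool :=
  decide L.Nodup &&
  (L.all fun x => L.all fun y => !(Nat.beq x.2 y.2) || eqB x y) &&
  L.any (fun x => eqB b x) && L.any (fun x => eqB t x) &&
  L.all (fun x => leB b x) && L.all (fun x => leB x t) &&
  Nat.beq b.1 0 && Nat.beq t.1 (n + 1) &&
  (L.all fun x => L.all fun y => !(ltB x y) || Nat.blt x.1 y.1) &&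
  (L.all fun x => L.all fun y => !(ltB x y && Nat.ble (x.1 + 2) y.1) ||
    L.any (fun z => ltB x z && ltB z y)) &&
  (L.all fun x => L.all fun y => !(ltB x y && Nat.beq y.1 (x.1 + 2)) ||
    Nat.beq (mid L x y).length 2) &&
  (L.all fun x => L.all fun y => !(ltB x y && Nat.ble (x.1 + 3) y.1) || conn (mid L x y))

lemma imp_of_or {a b : Bool} (h : (!a || b) = true) (ha : a = true) : b = true := by
  rw [ha] at h; simpa using h

lemma good_of_chk {n : ℕ} {L : List El} {b t : El} (h : chk n L b t = true) : Good n L b t := by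
  unfold chk at h
  simp only [Bool.and_eq_true, decide_eq_true_eq, List.all_eq_true, List.any_eq_true,
    Nat.beq_eq] at h
  obtain ⟨⟨⟨⟨⟨⟨⟨⟨⟨⟨⟨h1, h2⟩, h3⟩, h4⟩, h5⟩, h6⟩, h7⟩, h8⟩, h9⟩, h10⟩, h11⟩, h12⟩ := h
  refine ⟨h1, ?_, ?_, ?_, h5, h6, h7, h8, ?_, ?_, ?_, ?_⟩
  · intro x hx y hy hxy
    exact eqB_iff.mp (imp_of_or (h2 x hx y hy) (by rw [Nat.beq_eq]; exact hxy))
  · obtain ⟨x, hx, hbx⟩ := h3
    rw [eqB_iff] at hbx; rw [hbx]; exact hx
  · obtain ⟨x, hx, hbx⟩ := h4
    rw [eqB_iff] at hbx; rw [hbx]; exact hx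
  · intro x hx y hy hxy
    have := imp_of_or (h9 x hx y hy) hxy
    rwa [Nat.blt_eq] at this
  · intro x hx y hy hxy hr
    have := imp_of_or (h10 x hx y hy) (by rw [Bool.and_eq_true, Nat.ble_eq]; exact ⟨hxy, hr⟩)
    rw [List.any_eq_true] at this
    obtain ⟨z, hz, hz'⟩ := this
    rw [Bool.and_eq_true] at hz'
    exact ⟨z, hz, hz'⟩
  · intro x hx y hy hxy hr
    have := imp_of_or (h11 x hx y hy) (by rw [Bool.and_eq_true, Nat.beq_eq]; exact ⟨hxy, hr⟩)
    rwa [Nat.beq_eq] at this
  · intro x hx y hy hxy hr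
    exact imp_of_or (h12 x hx y hy) (by rw [Bool.and_eq_true, Nat.ble_eq]; exact ⟨hxy, hr⟩)

/-- the type of elements of a list -/
def PF (L : List El) : Type := {x : El // x ∈ L}

instance (L : List El) : Finite (PF L) := by
  unfold PF
  exact Finite.of_fintype _

/-- the order of the poset -/
@[instance_reducible] def ordPF {n : ℕ} {L : List El} {b t : El} (h : Good n L b t) : PartialOrder (PF L) where
  le x y := leB x.1 y.1 = true
  le_refl x := leB_refl x.1
  le_trans x y z h1 h2 := leB_trans h1 h2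
  le_antisymm x y h1 h2 := Subtype.ext (h.inj _ x.2 _ y.2 (leB_antisymm h1 h2))

lemma ordPF_le {n : ℕ} {L : List El} {b t : El} (h : Good n L b t) (x y : PF L) :
    (ordPF h).le x y ↔ leB x.1 y.1 = true := Iff.rfl

lemma ordPF_lt {n : ℕ} {L : List El} {b t : El} (h : Good n L b t) (x y : PF L) :
    (ordPF h).lt x y ↔ ltB x.1 y.1 = true := by
  let _ := ordPF h
  show x < y ↔ _
  rw [lt_iff_le_and_ne]
  unfold ltB
  rw [Bool.and_eq_true, Bool.not_eq_true', ← Bool.not_eq_true, Nat.beq_eq]
  constructor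
  · rintro ⟨h1, h2⟩
    exact ⟨h1, fun he => h2 (Subtype.ext (h.inj _ x.2 _ y.2 he))⟩
  · rintro ⟨h1, h2⟩
    exact ⟨h1, fun he => h2 (by rw [he])⟩

lemma ncard_mid {n : ℕ} {L : List El} {b t : El} (h : Good n L b t) (x y : PF L) :
    {z : PF L | (ordPF h).lt x z ∧ (ordPF h).lt z y}.ncard = (mid L x.1 y.1).length := by
  classical
  have h1 : (mid L x.1 y.1).Nodup := h.nodup.filter _
  rw [← List.toFinset_card_of_nodup h1, ← Set.ncard_coe_finset]
  apply Set.ncard_congr (fun z _ => z.1)
  · intro z hz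
    simp only [List.coe_toFinset]
    show z.1 ∈ mid L x.1 y.1
    unfold mid
    rw [List.mem_filter, Bool.and_eq_true]
    exact ⟨z.2, (ordPF_lt h _ _).mp hz.1, (ordPF_lt h _ _).mp hz.2⟩
  · intro z w _ _ he
    exact Subtype.ext he
  · intro z hz
    simp only [List.coe_toFinset] at hz
    have hz' : z ∈ mid L x.1 y.1 := hz
    unfold mid at hz'
    rw [List.mem_filter, Bool.and_eq_true] at hz'
    exact ⟨⟨z, hz'.1⟩, ⟨(ordPF_lt h _ _).mpr hz'.2.1, (ordPF_lt h _ _).mpr hz'.2.2⟩, rfl⟩

lemma reach_sound {n : ℕ} {L : List El} {b t : El} (h : Good n L b t) (x y : PF L) (z0 : PF L)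
    (hz0 : z0.1 ∈ mid L x.1 y.1) :
    ∀ (k : ℕ) (T : List El), (∀ w ∈ T, ∃ hw : w ∈ L,
      w ∈ mid L x.1 y.1 ∧
      Relation.ReflTransGen (fun a c : PF L => c.1 ∈ mid L x.1 y.1 ∧
        ((ordPF h).le a c ∨ (ordPF h).le c a)) z0 ⟨w, hw⟩ ∧
      Relation.ReflTransGen (fun a c : PF L => c.1 ∈ mid L x.1 y.1 ∧
        ((ordPF h).le a c ∨ (ordPF h).le c a)) ⟨w, hw⟩ z0) →
    ∀ w ∈ reach (mid L x.1 y.1) k T, ∃ hw : w ∈ L,
      w ∈ mid L x.1 y.1 ∧
      Relation.ReflTransGen (fun a c : PF L => c.1 ∈ mid L x.1 y.1 ∧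
        ((ordPF h).le a c ∨ (ordPF h).le c a)) z0 ⟨w, hw⟩ ∧
      Relation.ReflTransGen (fun a c : PF L => c.1 ∈ mid L x.1 y.1 ∧
        ((ordPF h).le a c ∨ (ordPF h).le c a)) ⟨w, hw⟩ z0 := by
  intro k
  induction k with
  | zero => intro T hT w hw; exact hT w hw
  | succ k ih =>
    intro T hT
    apply ih
    intro w hw
    unfold stepL at hw
    rw [List.mem_filter, List.any_eq_true] at hw
    obtain ⟨hwS, u, huT, hu⟩ := hw
    obtain ⟨huL, huS, hu1, hu2⟩ := hT u huT
    have hwL : w ∈ L := by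
      unfold mid at hwS
      exact (List.mem_filter.mp hwS).1
    rw [Bool.or_eq_true] at hu
    refine ⟨hwL, hwS, hu1.tail ⟨hwS, ?_⟩, Relation.ReflTransGen.head ⟨huS, ?_⟩ hu2⟩
    · exact hu.symm
    · exact hu

/-- the polytope of a good list -/
def mkPoly {n : ℕ} {L : List El} {b t : El} (h : Good n L b t) : Polytope n :=
  letI := ordPF h
  letI bdd : BoundedOrder (PF L) :=
    { top := ⟨t, h.memt⟩
      bot := ⟨b, h.memb⟩
      le_top := fun x => h.top x.1 x.2
      bot_le := fun x => h.bot x.1 x.2 }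
  have hm : StrictMono (fun x : PF L => x.1.1) := by
    intro x y hxy
    exact h.rk _ x.2 _ y.2 ((ordPF_lt h x y).mp hxy)
  have hf : ∀ A : Flag (PF L), (fun x : PF L => x.1.1) '' (A : Set (PF L)) = Set.Iic (n + 1) := by
    apply flag_ranks_of_graded hm h.rkb h.rkt
    intro F G hFG hr
    obtain ⟨z, hz, h1, h2⟩ := h.graded _ F.2 _ G.2 ((ordPF_lt h F G).mp hFG) hr
    exact ⟨⟨z, hz⟩, (ordPF_lt h _ _).mpr h1, (ordPF_lt h _ _).mpr h2⟩
  { Face := PF L
    ord := ordPF h
    bdd := bdd
    rk := fun x => x.1.1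
    rk_strictMono := hm
    flag_ranks := hf
    diamond := by
      intro F G hFG hr
      have h1 := h.diam _ F.2 _ G.2 ((ordPF_lt h F G).mp hFG) hr
      rw [← h1]
      exact ncard_mid h F G
    connected := by
      apply connected_of_sections hm hf
      intro F G hFG hr H hH K hK
      have h1 := h.sect _ F.2 _ G.2 ((ordPF_lt h F G).mp hFG) hr
      have memmid : ∀ z : PF L, z.1 ∈ mid L F.1 G.1 ↔ z ∈ Set.Ioo F G := by
        intro z
        unfold mid
        rw [List.mem_filter, Bool.and_eq_true]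
        constructor
        · rintro ⟨_, h2, h3⟩
          exact ⟨(ordPF_lt h _ _).mpr h2, (ordPF_lt h _ _).mpr h3⟩
        · rintro ⟨h2, h3⟩
          exact ⟨z.2, (ordPF_lt h _ _).mp h2, (ordPF_lt h _ _).mp h3⟩
      have hHm := (memmid H).mpr hH
      have hKm := (memmid K).mpr hK
      unfold conn at h1
      rw [List.all_eq_true] at h1
      obtain ⟨z0, hz0⟩ : ∃ z0 : PF L, z0.1 ∈ mid L F.1 G.1 ∧ (mid L F.1 G.1).take 1 = [z0.1] := by
        cases hmid : mid L F.1 G.1 with
        | nil => rw [hmid] at hHm; exact absurd hHm List.not_mem_nil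
        | cons a l =>
          have ha : a ∈ L := by
            have : a ∈ mid L F.1 G.1 := by rw [hmid]; exact List.mem_cons_self
            unfold mid at this
            exact (List.mem_filter.mp this).1
          exact ⟨⟨a, ha⟩, List.mem_cons_self, rfl⟩
      have hsound := reach_sound h F G z0 hz0.1 6 ((mid L F.1 G.1).take 1) (by
        intro w hw
        rw [hz0.2, List.mem_singleton] at hw
        subst hw
        exact ⟨z0.2, hz0.1, Relation.ReflTransGen.refl, Relation.ReflTransGen.refl⟩)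
      have both : ∀ z : PF L, z.1 ∈ mid L F.1 G.1 →
          Relation.ReflTransGen (fun a c : PF L => c.1 ∈ mid L F.1 G.1 ∧
            ((ordPF h).le a c ∨ (ordPF h).le c a)) z0 z ∧
          Relation.ReflTransGen (fun a c : PF L => c.1 ∈ mid L F.1 G.1 ∧
            ((ordPF h).le a c ∨ (ordPF h).le c a)) z z0 := by
        intro z hz
        have h2 := h1 z.1 hz
        rw [List.any_eq_true] at h2
        obtain ⟨w, hw, hzw⟩ := h2
        rw [eqB_iff] at hzw
        subst hzw
        obtain ⟨_, _, h3, h4⟩ := hsound _ hw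
        exact ⟨h3, h4⟩
      have hpath := (both H hHm).2.trans (both K hKm).1
      refine (Relation.ReflTransGen.mono ?_) H K hpath
      intro a c hac
      exact ⟨(memmid c).mp hac.1, hac.2⟩ }

end Pool.Agent.X157.Poly
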